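import Pool.Agent.Run7.h317.LV.StmR

/-!
# The archimedean bound for the Hankel determinants (adapted from `Pool/Agent/W165/OZ/AR.lean`)
-/

set_option autoImplicit false

open Polynomial Pool.Agent.H337R2 Filter Topology

namespace Run7.h317.LV

open Pool.Agent.W165.OZ

namespace ARe

noncomputable section

variable {ep N : ℕ} {δ c1 c2 : ℝ} {τ ω : ℕ → ℝ}

lemma tau_gt (hN : Nodes N δ c1 c2 τ ω) (i : ℕ) : 1 < τ i := by
  have h1 := hN.lo i
  have h2 : (0 : ℝ) ≤ ((i / N : ℕ) : ℝ) := Nat.cast_nonneg _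
  linarith

lemma tau_mono (hN : Nodes N δ c1 c2 τ ω) : StrictMono τ :=
  strictMono_nat_of_lt_succ fun i => by
    have h1 := hN.gap i
    have h2 := hN.hδ
    linarith

lemma yv_nonneg {n : ℕ} (hn : 1 ≤ n) {t : ℝ} (ht : 0 ≤ t) : 0 ≤ yv n t := by
  unfold yv
  have h1 : (1 : ℝ) ≤ n := by exact_mod_cast hn
  exact mul_nonneg ht (by linarith)

lemma yv_mono {n : ℕ} (hn : 1 ≤ n) {s t : ℝ} (hs : 0 ≤ s) (hst : s ≤ t) : yv n s ≤ yv n t := by
  unfold yv
  have h1 : (1 : ℝ) ≤ n := by exact_mod_cast hn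
  exact mul_le_mul hst (by linarith) (by linarith) (by linarith)

lemma RvE_nonneg {n h : ℕ} (hn : 1 ≤ n) {t : ℝ} (ht : 0 ≤ t) : 0 ≤ RvE ep n h t := by
  unfold RvE
  have h1 : (1 : ℝ) ≤ n := by exact_mod_cast hn
  apply div_nonneg (pow_nonneg (by linarith) _)
  apply pow_nonneg
  apply Finset.prod_nonneg
  intro k _
  have : (0 : ℝ) ≤ k := Nat.cast_nonneg k
  linarith

/-- the Newton basis -/
def Qn (n : ℕ) (τ : ℕ → ℝ) (i : ℕ) : ℝ[X] := ∏ l ∈ Finset.range i, (X - C (yv n (τ l)))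

lemma Qn_monic (n : ℕ) (τ : ℕ → ℝ) (i : ℕ) : (Qn n τ i).Monic :=
  monic_prod_of_monic _ _ fun _ _ => monic_X_sub_C _

lemma Qn_deg (n : ℕ) (τ : ℕ → ℝ) (i : ℕ) : (Qn n τ i).natDegree = i := by
  unfold Qn
  rw [natDegree_prod_of_monic _ _ fun l _ => monic_X_sub_C _]
  simp

lemma Qn_eval (n : ℕ) (τ : ℕ → ℝ) (i : ℕ) (y : ℝ) :
    (Qn n τ i).eval y = ∏ l ∈ Finset.range i, (y - yv n (τ l)) := by
  unfold Qn
  rw [eval_prod]
  simp

lemma Qn_eval_zero (n : ℕ) (τ : ℕ → ℝ) {i l : ℕ} (h : l < i) :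
    (Qn n τ i).eval (yv n (τ l)) = 0 := by
  rw [Qn_eval]
  exact Finset.prod_eq_zero (Finset.mem_range.2 h) (sub_self _)

lemma Qn_eval_bounds (hN : Nodes N δ c1 c2 τ ω) {n : ℕ} (hn : 1 ≤ n) {i l : ℕ} (h : i ≤ l) :
    0 ≤ (Qn n τ i).eval (yv n (τ l)) ∧ (Qn n τ i).eval (yv n (τ l)) ≤ yv n (τ l) ^ i := by
  rw [Qn_eval]
  have h0 : ∀ a, 0 ≤ τ a := fun a => by have := tau_gt hN a; linarith
  have h1 : ∀ a ∈ Finset.range i, 0 ≤ yv n (τ l) - yv n (τ a) := by
    intro a ha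
    have h2 : τ a ≤ τ l := (tau_mono hN).monotone ((Finset.mem_range.1 ha).le.trans h)
    have h3 := yv_mono hn (h0 a) h2
    linarith
  constructor
  · exact Finset.prod_nonneg h1
  · calc ∏ a ∈ Finset.range i, (yv n (τ l) - yv n (τ a)) ≤ ∏ _a ∈ Finset.range i, yv n (τ l) := by
          apply Finset.prod_le_prod h1
          intro a _
          have := yv_nonneg hn (h0 a)
          linarith
      _ = _ := by simp

lemma hasSum_Lf {n h : ℕ} {μ : ℕ → ℝ} (hM : MomE ep n h τ ω μ) (P : ℝ[X])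
    (hP : P.natDegree + 2 ≤ h * n) :
    HasSum (fun l => ω l * (RvE ep n h (τ l) * P.eval (yv n (τ l)))) (Lf μ P) := by
  rw [Lf_apply μ P (P.natDegree + 1) (Nat.lt_succ_self _)]
  have h1 : (fun l => ω l * (RvE ep n h (τ l) * P.eval (yv n (τ l)))) = fun l =>
      ∑ k ∈ Finset.range (P.natDegree + 1),
        P.coeff k * (ω l * (RvE ep n h (τ l) * yv n (τ l) ^ k)) := by
    funext l
    rw [eval_eq_sum_range, Finset.mul_sum, Finset.mul_sum]
    apply Finset.sum_congr rfl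
    intro k _
    ring
  rw [h1]
  apply hasSum_sum
  intro k hk
  have hk' : k ≤ P.natDegree := Nat.lt_succ_iff.1 (Finset.mem_range.1 hk)
  exact (hM k (by omega)).mul_left _

lemma entry (h2 : S_TBE ep) (hN : Nodes N δ c1 c2 τ ω) {n h : ℕ} (hn : 1 ≤ n) (hh : 1 ≤ h)
    {μ : ℕ → ℝ} (hM : MomE ep n h τ ω μ) (i j : ℕ) (hij : i + j + 2 ≤ h * n) :
    |Lf μ (Qn n τ i * Qn n τ j)| ≤
      4 * (N : ℝ) ^ 2 * c2 * (MM N (max i j) ^ (2 * (h * n - 2 - (i + j))))⁻¹ := by
  set P := Qn n τ i * Qn n τ j with hPd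
  have hdeg : P.natDegree = i + j := by
    rw [hPd, (Qn_monic n τ i).natDegree_mul (Qn_monic n τ j), Qn_deg, Qn_deg]
  have hs := hasSum_Lf hM P (by rw [hdeg]; exact hij)
  set M := max i j with hMd
  obtain ⟨t1, t2⟩ := h2 N δ c1 c2 τ ω hN n h M (i + j) hn hh hij
  have hz : ∀ l < M, ω l * (RvE ep n h (τ l) * P.eval (yv n (τ l))) = 0 := by
    intro l hl
    have : P.eval (yv n (τ l)) = 0 := by
      rw [hPd, eval_mul]
      rcases lt_max_iff.1 hl with h | h
      · rw [Qn_eval_zero n τ h, zero_mul]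
      · rw [Qn_eval_zero n τ h, mul_zero]
    rw [this, mul_zero, mul_zero]
  have hs2 : HasSum (fun l => ω (l + M) * (RvE ep n h (τ (l + M)) * P.eval (yv n (τ (l + M)))))
      (Lf μ P) := by
    have h3 := (hasSum_nat_add_iff' M).2 hs
    rw [Finset.sum_eq_zero (fun l hl => hz l (Finset.mem_range.1 hl)), sub_zero] at h3
    exact h3
  have hb : ∀ l, ‖ω (l + M) * (RvE ep n h (τ (l + M)) * P.eval (yv n (τ (l + M))))‖ ≤
      |ω (l + M)| * (RvE ep n h (τ (l + M)) * yv n (τ (l + M)) ^ (i + j)) := by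
    intro l
    have h0 : 0 ≤ τ (l + M) := by have := tau_gt hN (l + M); linarith
    have hR := RvE_nonneg (ep := ep) (h := h) hn h0
    obtain ⟨a1, a2⟩ := Qn_eval_bounds hN hn (i := i) (l := l + M) (by omega)
    obtain ⟨b1, b2⟩ := Qn_eval_bounds hN hn (i := j) (l := l + M) (by omega)
    have hP : 0 ≤ P.eval (yv n (τ (l + M))) := by
      rw [hPd, eval_mul]; exact mul_nonneg a1 b1
    have hP2 : P.eval (yv n (τ (l + M))) ≤ yv n (τ (l + M)) ^ (i + j) := by
      rw [hPd, eval_mul, pow_add]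
      exact mul_le_mul a2 b2 b1 (a1.trans a2)
    rw [norm_mul, Real.norm_eq_abs, Real.norm_eq_abs, abs_of_nonneg (mul_nonneg hR hP)]
    exact mul_le_mul_of_nonneg_left (mul_le_mul_of_nonneg_left hP2 hR) (abs_nonneg _)
  have h4 : ‖Lf μ P‖ ≤
      ∑' l, |ω (l + M)| * (RvE ep n h (τ (l + M)) * yv n (τ (l + M)) ^ (i + j)) := by
    rw [← hs2.tsum_eq]
    exact tsum_of_norm_bounded t1.hasSum hb
  rw [Real.norm_eq_abs] at h4
  exact h4.trans t2

lemma MM_one (N i : ℕ) : 1 ≤ MM N i := le_max_left _ _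

lemma MM_mono (N : ℕ) {i j : ℕ} (h : i ≤ j) : MM N i ≤ MM N j := by
  unfold MM
  apply max_le_max le_rfl
  apply div_le_div_of_nonneg_right _ (Nat.cast_nonneg N)
  exact_mod_cast h

end

end ARe

open ARe in
theorem t_arE (ep : ℕ) (h1 : S_BAS) (h2 : S_TBE ep) : S_ARE ep := by
  intro N δ c1 c2 τ ω hN n h hn hh hev μ hM r hr
  have hc2 : 0 ≤ c2 := (abs_nonneg _).trans (hN.whi 0)
  obtain ⟨m, hm⟩ : ∃ m, h * n = 2 * m := by
    obtain ⟨k, hk⟩ := hev
    exact ⟨h * k, by rw [hk]; ring⟩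
  have hm2 : h * n / 2 = m := by omega
  have hrm : r ≤ m := by omega
  set C0 : ℝ := 4 * (N : ℝ) ^ 2 * c2 with hC0
  have hC0n : 0 ≤ C0 := by positivity
  let A : ℕ → ℝ := fun i => (MM N i ^ (2 * (m - 1 - i)))⁻¹
  have hA0 : ∀ i, 0 ≤ A i := fun i => by
    have := MM_one N i
    positivity
  have hdet := h1 ℝ ℝ (Lf μ) (Qn n τ) (Qn_monic n τ) (Qn_deg n τ) r
  have hDH : DH (fun k => Lf μ (X ^ k)) r = DH μ r := by
    congr 1
    funext k
    exact Lf_X_pow μ k
  rw [hDH] at hdet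
  rw [← hdet]
  have hent : ∀ i j : Fin r, |Lf μ (Qn n τ i.1 * Qn n τ j.1)| ≤ C0 * (A i.1 * A j.1) := by
    intro i j
    have hi := i.2
    have hj := j.2
    refine (entry h2 hN hn hh hM i.1 j.1 (by omega)).trans ?_
    apply mul_le_mul_of_nonneg_left _ hC0n
    have e1 : 2 * (h * n - 2 - (i.1 + j.1)) = 2 * (m - 1 - i.1) + 2 * (m - 1 - j.1) := by omega
    rw [e1, pow_add, ← mul_inv]
    have p1 := MM_one N i.1
    have p2 := MM_one N j.1
    have p3 := MM_one N (max i.1 j.1)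
    apply inv_anti₀ (by positivity)
    apply mul_le_mul
    · exact pow_le_pow_left₀ (by linarith) (MM_mono N (le_max_left _ _)) _
    · exact pow_le_pow_left₀ (by linarith) (MM_mono N (le_max_right _ _)) _
    · positivity
    · positivity
  rw [Matrix.det_apply]
  calc |∑ σ : Equiv.Perm (Fin r), Equiv.Perm.sign σ •
        ∏ i, Matrix.of (fun i j : Fin r => Lf μ (Qn n τ i.1 * Qn n τ j.1)) (σ i) i|
      ≤ ∑ σ : Equiv.Perm (Fin r), |Equiv.Perm.sign σ •
        ∏ i, Matrix.of (fun i j : Fin r => Lf μ (Qn n τ i.1 * Qn n τ j.1)) (σ i) i| :=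
        Finset.abs_sum_le_sum_abs _ _
    _ ≤ ∑ _σ : Equiv.Perm (Fin r), C0 ^ r * (∏ i : Fin r, A i.1) ^ 2 := by
        apply Finset.sum_le_sum
        intro σ _
        have e1 : |Equiv.Perm.sign σ •
            ∏ i, Matrix.of (fun i j : Fin r => Lf μ (Qn n τ i.1 * Qn n τ j.1)) (σ i) i| =
            ∏ i, |Lf μ (Qn n τ (σ i).1 * Qn n τ i.1)| := by
          rw [Units.smul_def, zsmul_eq_mul, abs_mul, Finset.abs_prod]
          have : |(((Equiv.Perm.sign σ : ℤˣ) : ℤ) : ℝ)| = 1 := by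
            rcases Int.units_eq_one_or (Equiv.Perm.sign σ) with h | h <;> rw [h] <;> simp
          rw [this, one_mul]
          rfl
        rw [e1]
        calc ∏ i, |Lf μ (Qn n τ (σ i).1 * Qn n τ i.1)| ≤
              ∏ i : Fin r, (C0 * (A (σ i).1 * A i.1)) :=
              Finset.prod_le_prod (fun i _ => abs_nonneg _) (fun i _ => hent (σ i) i)
          _ = C0 ^ r * ((∏ i : Fin r, A (σ i).1) * ∏ i : Fin r, A i.1) := by
              rw [Finset.prod_mul_distrib (f := fun _ : Fin r => C0),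
                Finset.prod_mul_distrib (f := fun i : Fin r => A (σ i).1), Finset.prod_const,
                Finset.card_univ, Fintype.card_fin]
          _ = C0 ^ r * (∏ i : Fin r, A i.1) ^ 2 := by
              rw [Equiv.prod_comp σ (fun i : Fin r => A i.1), sq]
    _ = Arc N n h C0 r := by
        rw [Finset.sum_const, Finset.card_univ, Fintype.card_perm, Fintype.card_fin,
          nsmul_eq_mul]
        unfold Arc
        rw [mul_assoc]
        congr 2
        rw [← Finset.prod_pow, Finset.prod_range]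
        apply Finset.prod_congr rfl
        intro i _
        change ((MM N i.1 ^ (2 * (m - 1 - i.1)))⁻¹) ^ 2 = _
        rw [inv_pow, ← pow_mul, hm2]
        congr 2
        ring

end Run7.h317.LV
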