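import Pool.Agent.Run7.h317.LV.DS

/-!
# Integrality at the primes `p > n` (adapted from `Pool/Agent/W165/OZ/SF.lean`, `HJ.lean`)
-/

open Polynomial Pool.Agent.H337R2 Filter Topology

namespace Run7.h317.LV

open Pool.Agent.W165.OZ

noncomputable section

namespace SFe

open SFaux (Rp mem_Rp int_mem nat_mem dd)

/-- HJ: the singular part of the twisted harmonic sums -/
theorem t_hjE (A : Type) [CommRing A] [Algebra ℚ A] (p : ℕ) [hp : Fact p.Prime]
    (S : Subring A) (hS : ∀ x : ℚ, padicNorm p x ≤ 1 → algebraMap ℚ A x ∈ S)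
    (f : ℕ → A) (hf : ∀ v, f v ∈ S) (ι m : ℕ) :
    hsE f ι m - ∑ v ∈ Finset.Icc 1 (m / p), algebraMap ℚ A (1 / ((p * v : ℕ) : ℚ) ^ ι) * f (p * v) ∈ S := by
  have hp0 : 0 < p := hp.out.pos
  have h1 : hsE f ι m = ∑ u ∈ Finset.Icc 1 m, algebraMap ℚ A (1 / (u : ℚ) ^ ι) * f u := by
    unfold hsE
    have e1 : Finset.Icc 1 m = Finset.Ico (0 + 1) (m + 1) := by
      ext u
      simp only [Finset.mem_Icc, Finset.mem_Ico]
      omega
    rw [e1, ← Finset.sum_Ico_add' (fun u : ℕ => algebraMap ℚ A (1 / (u : ℚ) ^ ι) * f u) 0 m 1,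
      Finset.range_eq_Ico]
    apply Finset.sum_congr rfl
    intro l _
    push_cast
    rfl
  have h2 : ∑ v ∈ Finset.Icc 1 (m / p), algebraMap ℚ A (1 / ((p * v : ℕ) : ℚ) ^ ι) * f (p * v) =
      ∑ u ∈ (Finset.Icc 1 m).filter (fun u => p ∣ u), algebraMap ℚ A (1 / (u : ℚ) ^ ι) * f u := by
    refine Finset.sum_nbij' (fun v => p * v) (fun u => u / p) ?_ ?_ ?_ ?_ ?_
    · intro v hv
      rw [Finset.mem_Icc] at hv
      rw [Finset.mem_filter, Finset.mem_Icc]
      refine ⟨⟨Nat.mul_pos hp0 hv.1, ?_⟩, dvd_mul_right _ _⟩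
      have := Nat.mul_le_mul_left p hv.2
      exact this.trans (Nat.mul_div_le m p)
    · intro u hu
      rw [Finset.mem_filter, Finset.mem_Icc] at hu
      rw [Finset.mem_Icc]
      exact ⟨Nat.div_pos (Nat.le_of_dvd hu.1.1 hu.2) hp0, Nat.div_le_div_right hu.1.2⟩
    · intro v _
      exact Nat.mul_div_cancel_left v hp0
    · intro u hu
      rw [Finset.mem_filter] at hu
      exact Nat.mul_div_cancel' hu.2
    · intro v _
      rfl
  rw [h1, h2, ← Finset.sum_filter_add_sum_filter_not (Finset.Icc 1 m) (fun u => p ∣ u),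
    add_sub_cancel_left]
  refine Subring.sum_mem _ fun u hu => ?_
  rw [Finset.mem_filter] at hu
  refine S.mul_mem (hS _ ?_) (hf _)
  have h4 : padicNorm p ((u : ℚ) ^ ι) = 1 := by
    have h5 : ((u : ℚ) ^ ι) = ((u ^ ι : ℕ) : ℚ) := by push_cast; rfl
    rw [h5, padicNorm.nat_eq_one_iff]
    intro h6
    exact hu.2 (hp.out.dvd_of_dvd_pow h6)
  rw [padicNorm.div, padicNorm.one, h4]
  norm_num

/-- integrality of the coefficients of the numerator -/
lemma numE_coeff {p : ℕ} [Fact p.Prime] (ep n k j : ℕ) :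
    padicNorm p ((numE ep n (X ^ k)).coeff j) ≤ 1 := by
  have h : numE ep n (X ^ k) = Polynomial.map (Int.castRingHom ℚ)
      ((C 2 * X + C ((n : ℤ) - 1)) ^ ep * (X * (X + C ((n : ℤ) - 1))) ^ k) := by
    unfold numE yp
    simp only [Polynomial.X_pow_comp, Polynomial.map_mul, Polynomial.map_add, Polynomial.map_pow,
      Polynomial.map_X, Polynomial.map_C]
    simp
  rw [h, Polynomial.coeff_map]
  exact padicNorm.of_int _

lemma numE_eval (ep n k : ℕ) (t : ℚ) :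
    (numE ep n (X ^ k)).eval t = (2 * t + ((n : ℚ) - 1)) ^ ep * ((yp n).eval t) ^ k := by
  unfold numE
  simp

/-- the set of singular triples -/
def TTE (n M B p : ℕ) : Finset (Σ _ : ℕ, Σ _ : ℕ, ℕ) :=
  (Finset.Icc 1 B).sigma fun d => (Finset.range n).sigma fun k => Finset.Icc 1 (M * d * (k + 1) / p)

lemma TTE_card (n M B p : ℕ) : (TTE n M B p).card = SpE n M B p := by
  unfold TTE SpE
  simp [Finset.card_sigma]

lemma mem_TTE {n M B p : ℕ} {s : Σ _ : ℕ, Σ _ : ℕ, ℕ} (hs : s ∈ TTE n M B p) :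
    1 ≤ s.1 ∧ s.1 ≤ B ∧ s.2.1 < n ∧ 1 ≤ s.2.2 ∧ s.2.2 ≤ M * s.1 * (s.2.1 + 1) / p := by
  unfold TTE at hs
  simp only [Finset.mem_sigma, Finset.mem_Icc, Finset.mem_range] at hs
  exact ⟨hs.1.1, hs.1.2, hs.2.1, hs.2.2.1, hs.2.2.2⟩

/-- the node of a triple -/
def ttE (M p : ℕ) (s : Σ _ : ℕ, Σ _ : ℕ, ℕ) : ℚ := ((p * s.2.2 : ℕ) : ℚ) / ((M * s.1 : ℕ) : ℚ) - s.2.1

/-- the rational part is `p`-integral up to the singular part -/
lemma keyE (A : Type) [CommRing A] [Algebra ℚ A] (p : ℕ) [hp : Fact p.Prime]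
    (S : Subring A) (hS : ∀ x : ℚ, padicNorm p x ≤ 1 → algebraMap ℚ A x ∈ S)
    (f : ℕ → A) (hf : ∀ v, f v ∈ S) (n h M B : ℕ) (w : ℕ → ℤ) (hM : 1 ≤ M)
    (hn : n < p) (hB : M * B ≤ n) (P : ℚ[X]) (hP : ∀ j, padicNorm p (P.coeff j) ≤ 1)
    (hdeg : P.natDegree < 2 * h * n) :
    (∑ i ∈ Finset.Icc 1 (2 * h), betE n h M B w f P i)
      - ∑ s ∈ TTE n M B p, algebraMap ℚ A ((w s.1 : ℚ) * (P.eval (ttE M p s) / dd n h (ttE M p s))) *
        f (p * s.2.2) ∈ S := by
  have hp0 : 0 < p := lt_of_le_of_lt (Nat.zero_le _) hn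
  have e1 : (∑ i ∈ Finset.Icc 1 (2 * h), betE n h M B w f P i)
      = ∑ d ∈ Finset.Icc 1 B, ∑ k ∈ Finset.range n, ∑ i ∈ Finset.Icc 1 (2 * h),
        algebraMap ℚ A ((w d : ℚ) * ((M * d : ℕ) : ℚ) ^ i * pa (sP n) (mP h) P k i) *
          hsE f i (M * d * (k + 1)) := by
    unfold betE
    rw [Finset.sum_comm]
    apply Finset.sum_congr rfl
    intro d _
    rw [Finset.sum_comm]
  have e2 : ∑ s ∈ TTE n M B p, algebraMap ℚ A ((w s.1 : ℚ) * (P.eval (ttE M p s) / dd n h (ttE M p s))) *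
        f (p * s.2.2)
      = ∑ d ∈ Finset.Icc 1 B, ∑ k ∈ Finset.range n, ∑ v ∈ Finset.Icc 1 (M * d * (k + 1) / p),
        algebraMap ℚ A ((w d : ℚ) * (P.eval (((p * v : ℕ) : ℚ) / ((M * d : ℕ) : ℚ) - k) /
          dd n h (((p * v : ℕ) : ℚ) / ((M * d : ℕ) : ℚ) - k))) * f (p * v) := by
    unfold TTE
    rw [Finset.sum_sigma]
    apply Finset.sum_congr rfl
    intro d _
    rw [Finset.sum_sigma]
    rfl
  rw [e1, e2, ← Finset.sum_sub_distrib]
  apply Subring.sum_mem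
  intro d hd
  rw [Finset.mem_Icc] at hd
  rw [← Finset.sum_sub_distrib]
  apply Subring.sum_mem
  intro k hk
  rw [Finset.mem_range] at hk
  have hMd1 : 1 ≤ M * d := Nat.mul_pos hM hd.1
  have hMdB : M * d ≤ M * B := Nat.mul_le_mul_left M hd.2
  have e3 : (∑ i ∈ Finset.Icc 1 (2 * h),
        algebraMap ℚ A ((w d : ℚ) * ((M * d : ℕ) : ℚ) ^ i * pa (sP n) (mP h) P k i) *
          hsE f i (M * d * (k + 1)))
      - ∑ v ∈ Finset.Icc 1 (M * d * (k + 1) / p),
        algebraMap ℚ A ((w d : ℚ) * (P.eval (((p * v : ℕ) : ℚ) / ((M * d : ℕ) : ℚ) - k) /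
          dd n h (((p * v : ℕ) : ℚ) / ((M * d : ℕ) : ℚ) - k))) * f (p * v)
      = (∑ i ∈ Finset.Icc 1 (2 * h),
        algebraMap ℚ A ((w d : ℚ) * ((M * d : ℕ) : ℚ) ^ i * pa (sP n) (mP h) P k i) *
          (hsE f i (M * d * (k + 1)) - ∑ v ∈ Finset.Icc 1 (M * d * (k + 1) / p),
            algebraMap ℚ A (1 / ((p * v : ℕ) : ℚ) ^ i) * f (p * v)))
        + ∑ v ∈ Finset.Icc 1 (M * d * (k + 1) / p),
          algebraMap ℚ A ((w d : ℚ) * ((∑ i ∈ Finset.Icc 1 (2 * h), pa (sP n) (mP h) P k i *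
            (((M * d : ℕ) : ℚ) / ((p * v : ℕ) : ℚ)) ^ i) -
            P.eval (((p * v : ℕ) : ℚ) / ((M * d : ℕ) : ℚ) - k) /
              dd n h (((p * v : ℕ) : ℚ) / ((M * d : ℕ) : ℚ) - k))) * f (p * v) := by
    have e4 : ∑ v ∈ Finset.Icc 1 (M * d * (k + 1) / p),
        algebraMap ℚ A ((w d : ℚ) * (∑ i ∈ Finset.Icc 1 (2 * h), pa (sP n) (mP h) P k i *
            (((M * d : ℕ) : ℚ) / ((p * v : ℕ) : ℚ)) ^ i)) * f (p * v)
        = ∑ i ∈ Finset.Icc 1 (2 * h),
          algebraMap ℚ A ((w d : ℚ) * ((M * d : ℕ) : ℚ) ^ i * pa (sP n) (mP h) P k i) *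
          ∑ v ∈ Finset.Icc 1 (M * d * (k + 1) / p),
            algebraMap ℚ A (1 / ((p * v : ℕ) : ℚ) ^ i) * f (p * v) := by
      simp only [Finset.mul_sum, map_sum, Finset.sum_mul]
      rw [Finset.sum_comm]
      apply Finset.sum_congr rfl
      intro i _
      apply Finset.sum_congr rfl
      intro v _
      have e0 : (w d : ℚ) * (pa (sP n) (mP h) P k i * (((M * d : ℕ) : ℚ) / ((p * v : ℕ) : ℚ)) ^ i) =
          ((w d : ℚ) * ((M * d : ℕ) : ℚ) ^ i * pa (sP n) (mP h) P k i) * (1 / ((p * v : ℕ) : ℚ) ^ i) := by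
        rw [div_pow]; ring
      rw [e0, map_mul, mul_assoc]
    have e5 : ∑ v ∈ Finset.Icc 1 (M * d * (k + 1) / p),
          algebraMap ℚ A ((w d : ℚ) * ((∑ i ∈ Finset.Icc 1 (2 * h), pa (sP n) (mP h) P k i *
            (((M * d : ℕ) : ℚ) / ((p * v : ℕ) : ℚ)) ^ i) -
            P.eval (((p * v : ℕ) : ℚ) / ((M * d : ℕ) : ℚ) - k) /
              dd n h (((p * v : ℕ) : ℚ) / ((M * d : ℕ) : ℚ) - k))) * f (p * v) =
        (∑ v ∈ Finset.Icc 1 (M * d * (k + 1) / p),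
        algebraMap ℚ A ((w d : ℚ) * (∑ i ∈ Finset.Icc 1 (2 * h), pa (sP n) (mP h) P k i *
            (((M * d : ℕ) : ℚ) / ((p * v : ℕ) : ℚ)) ^ i)) * f (p * v)) -
        ∑ v ∈ Finset.Icc 1 (M * d * (k + 1) / p),
        algebraMap ℚ A ((w d : ℚ) * (P.eval (((p * v : ℕ) : ℚ) / ((M * d : ℕ) : ℚ) - k) /
          dd n h (((p * v : ℕ) : ℚ) / ((M * d : ℕ) : ℚ) - k))) * f (p * v) := by
      rw [← Finset.sum_sub_distrib]
      apply Finset.sum_congr rfl
      intro v _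
      rw [mul_sub, map_sub, sub_mul]
    rw [e5, e4]
    simp only [mul_sub, Finset.sum_sub_distrib]
    ring
  rw [e3]
  apply Subring.add_mem
  · apply Subring.sum_mem
    intro i _
    apply Subring.mul_mem
    · apply hS
      have h3 : ((w d : ℚ) * ((M * d : ℕ) : ℚ) ^ i * pa (sP n) (mP h) P k i) ∈ Rp p := by
        apply Subring.mul_mem
        · exact Subring.mul_mem _ (int_mem _) (Subring.pow_mem _ (nat_mem (M * d)) _)
        · exact t_pj p n h hn.le P hP k i hk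
      exact h3
    · exact t_hjE A p S hS f hf i (M * d * (k + 1))
  · apply Subring.sum_mem
    intro v hv
    rw [Finset.mem_Icc] at hv
    apply Subring.mul_mem _ _ (hf _)
    apply hS
    have h3 := (t_po t_pf t_pj p n h (M * B) hn hB P hP hdeg (M * d) k v hMd1 hMdB hk hv.1
      (by rw [mul_comm]; exact (Nat.le_div_iff_mul_le hp0).mp hv.2)).1
    have h4 : ((w d : ℚ) * ((∑ i ∈ Finset.Icc 1 (2 * h), pa (sP n) (mP h) P k i *
            (((M * d : ℕ) : ℚ) / ((p * v : ℕ) : ℚ)) ^ i) -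
            P.eval (((p * v : ℕ) : ℚ) / ((M * d : ℕ) : ℚ) - k) /
              dd n h (((p * v : ℕ) : ℚ) / ((M * d : ℕ) : ℚ) - k))) ∈ Rp p :=
      Subring.mul_mem _ (int_mem _) h3
    exact h4

end SFe

open SFe in
open SFaux (Rp mem_Rp int_mem nat_mem dd) in
/-- SF: integrality at the primes `p > n` -/
theorem t_sfE (ep : ℕ) (hep : ep ≤ 1) (A : Type) [CommRing A] [Algebra ℚ A] (p : ℕ) [hp : Fact p.Prime]
    (S : Subring A) (hS : ∀ x : ℚ, padicNorm p x ≤ 1 → algebraMap ℚ A x ∈ S)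
    (n h M B : ℕ) (w : ℕ → ℤ) (z f : ℕ → A) (hf : ∀ v, f v ∈ S) (q : ℕ) (hz : ∀ i, (q : A) * z i ∈ S)
    (hn : 2 ≤ n) (hh : 1 ≤ h) (hM : 1 ≤ M) (hB : 1 ≤ B) (hBn : M * B ≤ n) (hnp : n < p)
    (r : ℕ) (hr : 2 * r ≤ h * n) :
    algebraMap ℚ A ((q : ℚ) ^ r * (p : ℚ) ^ (2 * h * SpE n M B p)) * DH (moE ep n h M B w z f) r ∈ S := by
  have hp0 : 0 < p := lt_of_le_of_lt (Nat.zero_le _) hnp
  have hSR : ∀ x ∈ Rp p, algebraMap ℚ A x ∈ S := fun x hx => hS x hx
  -- the facts on the nodes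
  have hnode : ∀ s ∈ TTE n M B p, (((p : ℚ) ^ (2 * h)) / dd n h (ttE M p s)) ∈ Rp p ∧
      (yp n).eval (ttE M p s) ∈ Rp p ∧ 2 * ttE M p s + ((n : ℚ) - 1) ∈ Rp p := by
    intro s hs
    obtain ⟨a1, a2, a3, a4, a5⟩ := mem_TTE hs
    have := t_po t_pf t_pj p n h (M * B) hnp hBn 0 (by simp) (by
      rw [Polynomial.natDegree_zero]; positivity) (M * s.1) s.2.1 s.2.2 (Nat.mul_pos hM a1)
      (Nat.mul_le_mul_left M a2) a3 a4 (by rw [mul_comm]; exact (Nat.le_div_iff_mul_le hp0).mp a5)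
    exact ⟨this.2.1, this.2.2.1, this.2.2.2⟩
  let lam : TTE n M B p → A := fun s =>
    algebraMap ℚ A (-((q : ℚ) * (w s.1.1) * ((2 * ttE M p s.1 + ((n : ℚ) - 1)) ^ ep / dd n h (ttE M p s.1)))) *
      f (p * s.1.2.2)
  let v : TTE n M B p → Fin r → A := fun s i => algebraMap ℚ A (((yp n).eval (ttE M p s.1)) ^ (i : ℕ))
  let G : Matrix (Fin r) (Fin r) A := Matrix.of fun i j =>
    (q : A) * moE ep n h M B w z f (i.1 + j.1) - ∑ s, lam s * v s i * v s j
  have hLA := t_la A S (algebraMap ℚ A ((p : ℚ) ^ (2 * h))) r (TTE n M B p) G lam v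
    (hSR _ (Subring.pow_mem _ (nat_mem p) _)) ?_ ?_ ?_
  · have e1 : G + Matrix.of (fun i j => ∑ s, lam s * v s i * v s j)
        = (q : A) • Matrix.of (fun i j : Fin r => moE ep n h M B w z f (i.1 + j.1)) := by
      ext i j
      simp [G]
    rw [e1, Matrix.det_smul, Fintype.card_fin, Fintype.card_coe, TTE_card] at hLA
    have e2 : algebraMap ℚ A ((q : ℚ) ^ r * (p : ℚ) ^ (2 * h * SpE n M B p)) * DH (moE ep n h M B w z f) r
        = algebraMap ℚ A ((p : ℚ) ^ (2 * h)) ^ SpE n M B p * ((q : A) ^ r *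
          Matrix.det (Matrix.of fun i j : Fin r => moE ep n h M B w z f (i.1 + j.1))) := by
      unfold DH
      rw [map_mul, map_pow, map_natCast, pow_mul, map_pow]
      ring
    rw [e2]
    exact hLA
  · intro i j
    set k := i.1 + j.1 with hk
    have hdeg : (numE ep n (X ^ k)).natDegree < 2 * h * n := by
      have := numE_natDegree ep n k
      have := i.2
      have := j.2
      nlinarith
    have hP : ∀ j, padicNorm p ((numE ep n (X ^ k)).coeff j) ≤ 1 := fun j => numE_coeff ep n k j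
    have hkey := keyE A p S hS f hf n h M B w hM hnp hBn (numE ep n (X ^ k)) hP hdeg
    have e1 : G i j = (∑ ι ∈ Finset.Icc 1 (2 * h),
        algebraMap ℚ A (rhoP n h (numE ep n (X ^ k)) ι * WWE M B w ι) * ((q : A) * z ι))
        - (q : A) * ((∑ ι ∈ Finset.Icc 1 (2 * h), betE n h M B w f (numE ep n (X ^ k)) ι)
          - ∑ s ∈ TTE n M B p, algebraMap ℚ A ((w s.1 : ℚ) * ((numE ep n (X ^ k)).eval (ttE M p s) /
            dd n h (ttE M p s))) * f (p * s.2.2)) := by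
      have e2 : ∑ s, lam s * v s i * v s j = - ((q : A) *
          ∑ s ∈ TTE n M B p, algebraMap ℚ A ((w s.1 : ℚ) * ((numE ep n (X ^ k)).eval (ttE M p s) /
            dd n h (ttE M p s))) * f (p * s.2.2)) := by
        rw [Finset.mul_sum, ← Finset.sum_neg_distrib]
        refine Eq.trans ?_ (Finset.sum_coe_sort (TTE n M B p) (fun x => -((q : A) *
          (algebraMap ℚ A ((w x.1 : ℚ) * ((numE ep n (X ^ k)).eval (ttE M p x) / dd n h (ttE M p x))) *
            f (p * x.2.2)))))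
        apply Finset.sum_congr rfl
        intro s _
        simp only [lam, v]
        rw [numE_eval, hk, pow_add]
        simp only [map_mul, map_neg, map_natCast, map_div₀, map_pow]
        have hq : algebraMap ℚ A ((q : ℚ)) = (q : A) := map_natCast _ _
        generalize f (p * s.1.2.2) = F
        have e9 : algebraMap ℚ A ((2 * ttE M p s.1 + ((n : ℚ) - 1)) ^ ep *
            ((yp n).eval (ttE M p s.1) ^ i.1 * (yp n).eval (ttE M p s.1) ^ j.1) / dd n h (ttE M p s.1)) =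
            algebraMap ℚ A ((2 * ttE M p s.1 + ((n : ℚ) - 1)) ^ ep / dd n h (ttE M p s.1)) *
            (algebraMap ℚ A ((yp n).eval (ttE M p s.1))) ^ i.1 *
            (algebraMap ℚ A ((yp n).eval (ttE M p s.1))) ^ j.1 := by
          rw [← map_pow, ← map_pow, ← map_mul, ← map_mul]
          congr 1
          ring
        rw [e9]
        ring
      have e3 : (q : A) * moE ep n h M B w z f k = (∑ ι ∈ Finset.Icc 1 (2 * h),
          algebraMap ℚ A (rhoP n h (numE ep n (X ^ k)) ι * WWE M B w ι) * ((q : A) * z ι))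
          - (q : A) * ∑ ι ∈ Finset.Icc 1 (2 * h), betE n h M B w f (numE ep n (X ^ k)) ι := by
        unfold moE LaE
        rw [Finset.sum_sub_distrib, mul_sub, Finset.mul_sum]
        congr 1
        apply Finset.sum_congr rfl
        intro ι _
        ring
      simp only [G, Matrix.of_apply]
      rw [e2, ← hk, e3, mul_sub]
      ring
    rw [e1]
    apply Subring.sub_mem
    · apply Subring.sum_mem
      intro ι _
      apply Subring.mul_mem _ _ (hz ι)
      apply hSR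
      apply Subring.mul_mem
      · unfold rhoP
        apply Subring.sum_mem
        intro k' hk'
        exact t_pj p n h hnp.le _ hP k' ι (Finset.mem_range.mp hk')
      · exact int_mem _
    · exact Subring.mul_mem _ (natCast_mem S q) hkey
  · intro s
    obtain ⟨a1, a2, a3⟩ := hnode s.1 s.2
    simp only [lam]
    rw [← mul_assoc, ← map_mul]
    apply Subring.mul_mem _ _ (hf _)
    apply hSR
    have e : (p : ℚ) ^ (2 * h) * -((q : ℚ) * (w s.1.1) * ((2 * ttE M p s.1 + ((n : ℚ) - 1)) ^ ep / dd n h (ttE M p s.1)))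
        = -((q : ℚ) * (w s.1.1) * (2 * ttE M p s.1 + ((n : ℚ) - 1)) ^ ep *
          (((p : ℚ) ^ (2 * h)) / dd n h (ttE M p s.1))) := by ring
    rw [e]
    exact Subring.neg_mem _ (Subring.mul_mem _ (Subring.mul_mem _ (Subring.mul_mem _ (nat_mem q)
      (int_mem _)) (Subring.pow_mem _ a3 _)) a1)
  · intro s i
    obtain ⟨a1, a2, a3⟩ := hnode s.1 s.2
    simp only [v]
    exact hSR _ (Subring.pow_mem _ a2 _)

end

end Run7.h317.LV
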