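import Pool.Agent.Run7.h317.LV.SE
import Pool.Agent.Run7.h317.LV.SF

/-!
# The norm of the determinant over a number field (adapted from `Pool/Agent/W165/OZ/PK.lean`)
-/

open Polynomial Pool.Agent.H337R2 Filter Topology

namespace Run7.h317.LV

open Pool.Agent.W165.OZ
open PRaux (Sring mem_Sring padicNorm_sc one_le_abs)

lemma PPE_pos (n h M B : ℕ) : 0 < PPE n h M B := by
  unfold PPE
  refine Finset.prod_pos fun p hp => ?_
  exact pow_pos (Finset.mem_filter.1 hp).2.1.pos _

lemma dvd_PPE (p : ℕ) [Fact p.Prime] (n h M B : ℕ) (hp : n < p) :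
    p ^ (2 * h * SpE n M B p) ∣ PPE n h M B := by
  by_cases hB : p < M * B * n + 1
  · unfold PPE
    exact Finset.dvd_prod_of_mem (fun p => p ^ (2 * h * SpE n M B p))
      (Finset.mem_filter.2 ⟨Finset.mem_range.2 hB, (Fact.out : p.Prime), hp⟩)
  · have h0 : SpE n M B p = 0 := by
      unfold SpE
      refine Finset.sum_eq_zero fun d hd => Finset.sum_eq_zero fun k hk => ?_
      refine Nat.div_eq_of_lt ?_
      have h1 := (Finset.mem_Icc.1 hd).2
      have h2 := Finset.mem_range.1 hk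
      calc M * d * (k + 1) ≤ M * B * n := Nat.mul_le_mul (Nat.mul_le_mul_left M h1) h2
        _ < p := by omega
    rw [h0, Nat.mul_zero, pow_zero]
    exact one_dvd _

/-- PK: the norm of the determinant over a number field -/
theorem t_pkE (ep : ℕ) (hep : ep ≤ 1) (K : Type) [Field K] [Algebra ℚ K] [FiniteDimensional ℚ K]
    (n h M B : ℕ) (w : ℕ → ℤ) (z f : ℕ → K) (hf : ∀ v, IsIntegral ℤ (f v)) (q : ℕ) (hq : 1 ≤ q)
    (hz : ∀ i, IsIntegral ℤ ((q : K) * z i)) (hn : 2 ≤ n) (hev : Even n) (hh : 1 ≤ h) (hM : 1 ≤ M)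
    (hB : 1 ≤ B) (hBn : M * B ≤ n) (r : ℕ) (hr : 2 * r ≤ h * n) (hne : DH (moE ep n h M B w z f) r ≠ 0) :
    1 ≤ |Algebra.norm ℚ (algebraMap ℚ K ((q : ℚ) ^ r * (∏ i ∈ Finset.range r, sc n h (M * B) i ^ 2) *
      (PPE n h M B : ℚ)) * DH (moE ep n h M B w z f) r)| := by
  have hx : ∀ p : ℕ, [Fact p.Prime] → IsIntegral (Sring p)
      (algebraMap ℚ K ((q : ℚ) ^ r * (∏ i ∈ Finset.range r, sc n h (M * B) i ^ 2) * (PPE n h M B : ℚ)) *
        DH (moE ep n h M B w z f) r) := by
    intro p hp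
    let S : Subring K := (integralClosure (Sring p) K).toSubring
    have hmem : ∀ x : K, x ∈ S ↔ IsIntegral (Sring p) x := fun x => Iff.rfl
    have hS : ∀ x : ℚ, padicNorm p x ≤ 1 → algebraMap ℚ K x ∈ S := fun x hx => by
      rw [hmem]
      exact isIntegral_algebraMap (x := (⟨x, hx⟩ : Sring p))
    have hqz : ∀ i, (q : K) * z i ∈ S := by
      intro i
      rw [hmem]
      exact (hz i).tower_top
    have hfS : ∀ v, f v ∈ S := by
      intro v
      rw [hmem]
      exact (hf v).tower_top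
    rw [← hmem]
    by_cases hpn : p ≤ n
    · have h3 := t_seE ep K p S hS n h M B w z f hfS q hqz hn hev hh hM hB hpn r hr
      have h4 : algebraMap ℚ K ((PPE n h M B : ℕ) : ℚ) ∈ S := hS _ (padicNorm.of_nat _)
      have h5 := S.mul_mem h3 h4
      have h6 : algebraMap ℚ K ((q : ℚ) ^ r * ∏ i ∈ Finset.range r, sc n h (M * B) i ^ 2) *
          DH (moE ep n h M B w z f) r * algebraMap ℚ K ((PPE n h M B : ℕ) : ℚ) =
          algebraMap ℚ K ((q : ℚ) ^ r * (∏ i ∈ Finset.range r, sc n h (M * B) i ^ 2) *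
            (PPE n h M B : ℚ)) * DH (moE ep n h M B w z f) r := by
        rw [map_mul (algebraMap ℚ K) (((q : ℚ) ^ r * ∏ i ∈ Finset.range r, sc n h (M * B) i ^ 2)) _]
        ring
      rwa [h6] at h5
    · have hpn' : n < p := by omega
      have h3 := t_sfE ep hep K p S hS n h M B w z f hfS q hqz hn hh hM hB hBn hpn' r hr
      obtain ⟨m, hm⟩ := dvd_PPE p n h M B hpn'
      have h4 : algebraMap ℚ K (m : ℚ) ∈ S := hS _ (padicNorm.of_nat _)
      have h5 : algebraMap ℚ K (∏ i ∈ Finset.range r, sc n h (M * B) i ^ 2) ∈ S := by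
        apply hS
        have h5' : (∏ i ∈ Finset.range r, sc n h (M * B) i ^ 2) ∈ Sring p := by
          refine Subring.prod_mem _ fun i _ => Subring.pow_mem _ ?_ _
          rw [mem_Sring]
          exact padicNorm_sc p n h (M * B) i hn hpn'
        exact h5'
      have h6 := S.mul_mem (S.mul_mem h3 h5) h4
      have h7 : algebraMap ℚ K ((q : ℚ) ^ r * (p : ℚ) ^ (2 * h * SpE n M B p)) *
          DH (moE ep n h M B w z f) r * algebraMap ℚ K (∏ i ∈ Finset.range r, sc n h (M * B) i ^ 2) *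
          algebraMap ℚ K (m : ℚ) =
          algebraMap ℚ K ((q : ℚ) ^ r * (∏ i ∈ Finset.range r, sc n h (M * B) i ^ 2) *
            (PPE n h M B : ℚ)) * DH (moE ep n h M B w z f) r := by
        have h8 : ((PPE n h M B : ℕ) : ℚ) = (p : ℚ) ^ (2 * h * SpE n M B p) * (m : ℚ) := by
          rw [hm]; push_cast; ring
        rw [h8]
        simp only [map_mul]
        ring
      rwa [h7] at h6
  have hq0 : 0 < (q : ℚ) := by exact_mod_cast hq
  have hpos : 0 < (q : ℚ) ^ r * (∏ i ∈ Finset.range r, sc n h (M * B) i ^ 2) * (PPE n h M B : ℚ) := by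
    have a2 : (0 : ℚ) < ∏ i ∈ Finset.range r, sc n h (M * B) i ^ 2 :=
      Finset.prod_pos fun i _ => pow_pos (PRaux.sc_pos n h (M * B) i) 2
    have a3 : (0 : ℚ) < (PPE n h M B : ℚ) := by exact_mod_cast PPE_pos n h M B
    positivity
  apply one_le_abs
  · intro p hp
    exact pk_integral p _ (Algebra.isIntegral_norm ℚ (hx p))
  · rw [Algebra.norm_ne_zero_iff]
    apply mul_ne_zero _ hne
    rw [_root_.map_ne_zero]
    exact hpos.ne'

end Run7.h317.LV
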