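import Pool.Agent.Run7.h317.LV.PP
import Pool.Agent.Run7.h317.LV.PK

/-!
# The asymptotic size (adapted from `Pool/Agent/W165/OZ/AS.lean`)
-/

open Polynomial Pool.Agent.H337R2 Filter Topology

namespace Run7.h317.LV

open Pool.Agent.W165.OZ

noncomputable section

/-- the logarithm of the product -/
lemma as_logE {N h M B q n m r : ℕ} {C : ℝ} (hC : 0 < C) (hq : 1 ≤ q) (hm : 2 * m = h * n)
    (hrm : r ≤ m) :
    Real.log (Arc N n h C r * ((q : ℝ) ^ r * (∏ i ∈ Finset.range r, (sc n h (M * B) i : ℝ) ^ 2) *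
      (PPE n h M B : ℝ))) =
    Real.log (r.factorial : ℝ) + r * Real.log C + r * Real.log q +
      ∑ i ∈ Finset.range r, (2 * Real.log (sc n h (M * B) i : ℝ) - 4 * ((m : ℝ) - 1 - i) *
        Real.log (MM N i)) + Real.log (PPE n h M B) := by
  have hdiv : h * n / 2 = m := by omega
  have p1 : (0 : ℝ) < (r.factorial : ℝ) := by exact_mod_cast r.factorial_pos
  have p2 : 0 < C ^ r := pow_pos hC r
  have hM : ∀ i, 0 < MM N i := fun i => lt_of_lt_of_le one_pos (MM_one_le N i)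
  have p3 : 0 < ∏ i ∈ Finset.range r, (MM N i ^ (4 * (h * n / 2 - 1 - i)))⁻¹ :=
    Finset.prod_pos fun i _ => inv_pos.mpr (pow_pos (hM i) _)
  have hq' : (0 : ℝ) < q := by exact_mod_cast hq
  have p4 : (0 : ℝ) < (q : ℝ) ^ r := pow_pos hq' r
  have hs : ∀ i, (0 : ℝ) < (sc n h (M * B) i : ℝ) := fun i => by exact_mod_cast PRaux.sc_pos n h (M * B) i
  have p5 : (0 : ℝ) < ∏ i ∈ Finset.range r, (sc n h (M * B) i : ℝ) ^ 2 :=
    Finset.prod_pos fun i _ => pow_pos (hs i) _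
  have p6 : (0 : ℝ) < (PPE n h M B : ℝ) := by exact_mod_cast PPE_pos n h M B
  unfold Arc
  rw [Real.log_mul (mul_pos (mul_pos p1 p2) p3).ne' (mul_pos (mul_pos p4 p5) p6).ne',
    Real.log_mul (mul_pos p1 p2).ne' p3.ne', Real.log_mul p1.ne' p2.ne', Real.log_pow,
    Real.log_mul (mul_pos p4 p5).ne' p6.ne', Real.log_mul p4.ne' p5.ne', Real.log_pow,
    Real.log_prod (fun i _ => (inv_pos.mpr (pow_pos (hM i) _)).ne'),
    Real.log_prod (fun i _ => (pow_pos (hs i) _).ne'), Finset.sum_sub_distrib]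
  have e1 : ∑ i ∈ Finset.range r, Real.log (MM N i ^ (4 * (h * n / 2 - 1 - i)))⁻¹ =
      -∑ i ∈ Finset.range r, 4 * ((m : ℝ) - 1 - i) * Real.log (MM N i) := by
    rw [← Finset.sum_neg_distrib]
    refine Finset.sum_congr rfl fun i hi => ?_
    have hi' := Finset.mem_range.mp hi
    rw [Real.log_inv, Real.log_pow, hdiv]
    have : ((4 * (m - 1 - i) : ℕ) : ℝ) = 4 * ((m : ℝ) - 1 - i) := by
      have h4 : m = (m - 1 - i) + 1 + i := by omega
      have h5 : (m : ℝ) = ((m - 1 - i : ℕ) : ℝ) + 1 + i := by exact_mod_cast h4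
      push_cast
      rw [h5]
      ring
    rw [this]
  have e2 : ∑ i ∈ Finset.range r, Real.log ((sc n h (M * B) i : ℝ) ^ 2) =
      ∑ i ∈ Finset.range r, 2 * Real.log (sc n h (M * B) i : ℝ) := by
    refine Finset.sum_congr rfl fun i _ => ?_
    rw [Real.log_pow]; norm_num
  rw [e1, e2]
  ring

lemma as_g7E {h A L n : ℝ} (hh : 1 ≤ h) (hA : 0 ≤ A) (hL : 0 ≤ L) :
    h * Real.log 4 * A * n ^ 2 * (1 + L) ≤ 12 * ((A / h) * (1 + L)) * (h * n) ^ 2 := by
  have h4 : h * Real.log 4 * A * n ^ 2 * (1 + L) =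
      Real.log 4 * (((A / h) * (1 + L)) * (h * n) ^ 2) := by
    have : h ≠ 0 := by linarith
    field_simp
  rw [h4]
  have h5 : Real.log 4 ≤ 12 := by
    have := Real.log_le_sub_one_of_pos (by norm_num : (0 : ℝ) < 4)
    linarith
  have h6 : 0 ≤ ((A / h) * (1 + L)) * (h * n) ^ 2 := by
    positivity
  calc Real.log 4 * (((A / h) * (1 + L)) * (h * n) ^ 2) ≤
      12 * (((A / h) * (1 + L)) * (h * n) ^ 2) :=
        mul_le_mul_of_nonneg_right h5 h6
    _ = _ := by ring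

/-- AS: the asymptotic size -/
theorem t_asE (N h M B q : ℕ) (C : ℝ) (hN : 1 ≤ N) (hh : 1 ≤ h) (hM : 1 ≤ M) (hB : 1 ≤ B) (hq : 1 ≤ q)
    (hC : 0 < C) (hNh : 2 * N ≤ h) :
    ∃ n0 : ℕ, ∀ n ≥ n0, Even n → ∀ r : ℕ, h * n ≤ 16 * r → 2 * r ≤ h * n →
    Real.log (Arc N n h C r * ((q : ℝ) ^ r * (∏ i ∈ Finset.range r, (sc n h (M * B) i : ℝ) ^ 2) *
      (PPE n h M B : ℝ))) ≤
      (12 * (1 + (M * ((B : ℝ) * (B + 1)) / h) * (1 + Real.log ((M * B : ℕ) : ℝ))) -
        (1 / 16) * Real.log ((h : ℝ) / (2 * N))) * ((h : ℝ) * n) ^ 2 := by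
  have hMB : 1 ≤ M * B := Nat.mul_pos hM hB
  set lam : ℝ := Real.log ((h : ℝ) / (2 * N)) with hlam
  have hN' : (1 : ℝ) ≤ N := by exact_mod_cast hN
  have hh' : (1 : ℝ) ≤ h := by exact_mod_cast hh
  have hB' : (1 : ℝ) ≤ ((M * B : ℕ) : ℝ) := by exact_mod_cast hMB
  have hq' : (1 : ℝ) ≤ q := by exact_mod_cast hq
  have hNh' : 2 * (N : ℝ) ≤ h := by exact_mod_cast hNh
  have hlam0 : 0 ≤ lam := Real.log_nonneg (by
    rw [le_div_iff₀ (by linarith)]; linarith)
  have hlq : 0 ≤ Real.log q := Real.log_nonneg hq'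
  set K0 : ℝ := 5 * Real.log (h + 1) + |Real.log C| + Real.log q + 4 * lam + (2 * h + 4) with hK0
  set K1 : ℝ := 5 + 4 + (2 * h + 4) with hK1
  set K3 : ℝ := (2 * h + 4) * (4 * ((M * B : ℕ) : ℝ) ^ ((3 : ℝ) / 4)) with hK3
  obtain ⟨n1, hn1⟩ := as_growth K0 K1 K3
  refine ⟨max 2 n1, fun n hn hne r hr1 hr2 => ?_⟩
  have hn2 : 2 ≤ n := (le_max_left _ _).trans hn
  obtain ⟨-, hgr⟩ := hn1 n ((le_max_right _ _).trans hn)
  have hnR : (2 : ℝ) ≤ n := by exact_mod_cast hn2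
  have hnpos : (0 : ℝ) < n := by linarith
  obtain ⟨m, hm⟩ : ∃ m, 2 * m = h * n := by
    obtain ⟨k, hk⟩ := hne
    exact ⟨h * k, by rw [hk]; ring⟩
  have hmR : 2 * (m : ℝ) = h * n := by exact_mod_cast hm
  have hrm : r ≤ m := by omega
  have hmr : m ≤ 8 * r := by omega
  have hrmR : (r : ℝ) ≤ m := by exact_mod_cast hrm
  have hr0 : (0 : ℝ) ≤ r := by positivity
  have hm0 : (0 : ℝ) ≤ m := by positivity
  rw [as_logE (N := N) (M := M) (B := B) hC hq hm hrm]
  -- the factorial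
  have hlm : 0 ≤ Real.log ((m : ℝ) + 1) := Real.log_nonneg (by linarith)
  have f1 : Real.log (r.factorial : ℝ) ≤ m * Real.log ((m : ℝ) + 1) := by
    have h4 : (r.factorial : ℝ) ≤ ((m : ℝ) + 1) ^ r := by
      have h5 : r.factorial ≤ r ^ r := Nat.factorial_le_pow r
      have h6 : (r.factorial : ℝ) ≤ (r : ℝ) ^ r := by exact_mod_cast h5
      exact h6.trans (pow_le_pow_left₀ hr0 (by linarith) r)
    have h5 := Real.log_le_log (by exact_mod_cast r.factorial_pos) h4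
    rw [Real.log_pow] at h5
    exact h5.trans (mul_le_mul_of_nonneg_right hrmR hlm)
  have f2 : (r : ℝ) * Real.log C ≤ m * |Real.log C| := by
    calc (r : ℝ) * Real.log C ≤ r * |Real.log C| :=
          mul_le_mul_of_nonneg_left (le_abs_self _) hr0
      _ ≤ m * |Real.log C| := mul_le_mul_of_nonneg_right hrmR (abs_nonneg _)
  have f3 : (r : ℝ) * Real.log q ≤ m * Real.log q := mul_le_mul_of_nonneg_right hrmR hlq
  -- the sum
  set E : ℝ := (2 * h + 4) * (Real.sqrt (((M * B : ℕ) : ℝ) * n) * Real.log (((M * B : ℕ) : ℝ) * n) + Real.log n + 1)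
    with hE
  have hlogn : 0 ≤ Real.log n := Real.log_nonneg (by linarith)
  have hBn : 1 ≤ ((M * B : ℕ) : ℝ) * n := by nlinarith
  have hE0 : 0 ≤ E := by
    have := mul_nonneg (Real.sqrt_nonneg (((M * B : ℕ) : ℝ) * n)) (Real.log_nonneg hBn)
    rw [hE]; positivity
  have f4 : ∑ i ∈ Finset.range r, (2 * Real.log (sc n h (M * B) i : ℝ) - 4 * ((m : ℝ) - 1 - i) *
        Real.log (MM N i)) ≤
      4 * (∑ i ∈ Finset.range r, ((m : ℝ) - i) * (Real.log n - Real.log (MM N i))) +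
        r * (4 * Real.log ((m : ℝ) + 1) + 8 * (h + 1) * n + E) := by
    have h4 : (r : ℝ) * (4 * Real.log ((m : ℝ) + 1) + 8 * (h + 1) * n + E) =
        ∑ _i ∈ Finset.range r, (4 * Real.log ((m : ℝ) + 1) + 8 * (h + 1) * n + E) := by
      rw [Finset.sum_const, Finset.card_range, nsmul_eq_mul]
    rw [h4, Finset.mul_sum, ← Finset.sum_add_distrib]
    refine Finset.sum_le_sum fun i hi => ?_
    have hi' := Finset.mem_range.mp hi
    have h5 := t_si t_dl n h (M * B) i hn2 hne hh hMB (by omega)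
    have h6 : Real.log (MM N i) ≤ Real.log ((m : ℝ) + 1) := by
      apply Real.log_le_log (lt_of_lt_of_le one_pos (MM_one_le N i))
      unfold MM
      apply max_le (by linarith)
      have h7 : (i : ℝ) ≤ m := by exact_mod_cast (by omega : i ≤ m)
      have h8 : (i : ℝ) / N ≤ i := div_le_self (by positivity) hN'
      linarith
    have h7 : (2 * (h : ℝ) * n - 4 * i) = 4 * ((m : ℝ) - i) := by
      have : 2 * (h : ℝ) * n = 2 * (2 * m) := by rw [hmR]; ring
      rw [this]; ring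
    rw [h7] at h5
    have h8 : 4 * ((m : ℝ) - 1 - i) * Real.log (MM N i) =
        4 * (((m : ℝ) - i) * Real.log (MM N i)) - 4 * Real.log (MM N i) := by ring
    rw [h8, hE]
    linarith
  have f5 := t_ls N h n m r hN hNh (by omega) hm hrm hmr
  rw [← hlam] at f5
  have f6 := t_ppE n h M B (by omega) hM hB
  have f7 : (r : ℝ) * (4 * Real.log ((m : ℝ) + 1) + 8 * (h + 1) * n + E) ≤
      m * (4 * Real.log ((m : ℝ) + 1) + 8 * (h + 1) * n + E) := by
    apply mul_le_mul_of_nonneg_right hrmR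
    have : 0 ≤ 8 * ((h : ℝ) + 1) * n := by positivity
    linarith
  -- the growth
  have g1 : Real.log ((m : ℝ) + 1) ≤ Real.log (h + 1) + Real.log n := by
    rw [← Real.log_mul (by positivity) hnpos.ne']
    apply Real.log_le_log (by linarith)
    nlinarith
  have g2 : Real.sqrt (((M * B : ℕ) : ℝ) * n) * Real.log (((M * B : ℕ) : ℝ) * n) ≤
      4 * ((M * B : ℕ) : ℝ) ^ ((3 : ℝ) / 4) * (n : ℝ) ^ ((3 : ℝ) / 4) := by
    have := as_sqrt_log (y := ((M * B : ℕ) : ℝ) * n) (by linarith)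
    rw [Real.mul_rpow (by linarith) hnpos.le] at this
    linarith
  have g3 : 5 * Real.log ((m : ℝ) + 1) + |Real.log C| + Real.log q + 4 * Real.log n + 4 * lam + E
      ≤ 6 * n := as_growth_use (by linarith) g1 g2 hgr
  have g4 : (m : ℝ) * (5 * Real.log ((m : ℝ) + 1) + |Real.log C| + Real.log q + 4 * Real.log n +
      4 * lam + E) ≤ 3 * ((h : ℝ) * n) ^ 2 :=
    (mul_le_mul_of_nonneg_left g3 hm0).trans (as_g4 hmR hh' hnpos.le)
  have g5 : (m : ℝ) * (8 * (h + 1) * n) ≤ 8 * ((h : ℝ) * n) ^ 2 := as_g5 hmR hh' hnpos.le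
  have g7 := as_g7E (h := (h : ℝ)) (A := M * ((B : ℝ) * (B + 1))) (L := Real.log ((M * B : ℕ) : ℝ))
    (n := (n : ℝ)) hh' (by positivity) (Real.log_nonneg hB')
  have key := as_final f1 f2 f3 f4 f7 f5 hmR g4 g5 (f6.trans g7)
  rw [show (12 : ℝ) * (1 + (M * ((B : ℝ) * (B + 1)) / h) * (1 + Real.log ((M * B : ℕ) : ℝ))) -
    (1 / 16) * lam = 12 + 12 * ((M * ((B : ℝ) * (B + 1)) / h) * (1 + Real.log ((M * B : ℕ) : ℝ))) -
      (1 / 16) * lam by ring]
  exact key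

end

end Run7.h317.LV
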