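import Pool.Agent.Run7.h317.LV.Defs

/-!
# The absolute value of the partial fraction coefficients (adapted from `Pool/Agent/W165/OZ/CB.lean`)
-/

open Polynomial Pool.Agent.H337R2 Filter Topology

namespace Run7.h317.LV

open Pool.Agent.W165.OZ

noncomputable section

namespace CBe

open CB

/-- the power series after removing the factor `X ^ e` -/
def ffE (ep n k j j' w : ℕ) : PowerSeries ℚ :=
  TS (-(k : ℚ)) (ll n) ^ ep * TS (-(k : ℚ)) (gg n j) * TS (-(k : ℚ)) (gg n j') *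
    ∏ m ∈ (Finset.range n).erase k, Pool.Agent.H337R2.iv (-(k : ℚ) + m) ^ w

lemma seriesE (ep n h i i' k w : ℕ) (hn : Even n) (hn2 : 2 ≤ n) (hk : k < n)
    (hw : 2 * h = (i / (n / 2) + i' / (n / 2)) + w) :
    TS (-(k : ℚ)) (numE ep n (Qb n i * Qb n i')) * VV ((sP n).erase k) (mP h) (-(k : ℚ)) =
      PowerSeries.X ^ (i / (n / 2) + i' / (n / 2)) * ffE ep n k (i % (n / 2)) (i' % (n / 2)) w := by
  unfold numE VV ffE
  rw [Polynomial.mul_comp, Qb_comp n i hn hn2, Qb_comp n i' hn hn2]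
  change TS (-(k : ℚ)) ((ll n) ^ ep * _) * _ = _
  set e := i / (n / 2) with he
  set e' := i' / (n / 2) with he'
  have h1 : ∏ m ∈ (sP n).erase k, Pool.Agent.H337R2.iv (-(k : ℚ) + m) ^ mP h m =
      (∏ m ∈ (Finset.range n).erase k, Pool.Agent.H337R2.iv (-(k : ℚ) + m)) ^ (e + e') *
        ∏ m ∈ (Finset.range n).erase k, Pool.Agent.H337R2.iv (-(k : ℚ) + m) ^ w := by
    rw [← Finset.prod_pow, ← Finset.prod_mul_distrib]
    apply Finset.prod_congr rfl
    intro m _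
    rw [← pow_add, ← hw]
  have h2 : (∏ m ∈ (Finset.range n).erase k, (PowerSeries.X + PowerSeries.C (-(k : ℚ) + m))) *
      (∏ m ∈ (Finset.range n).erase k, Pool.Agent.H337R2.iv (-(k : ℚ) + m)) = 1 := by
    rw [← Finset.prod_mul_distrib]
    apply Finset.prod_eq_one
    intro m hm
    apply lin_mul_iv
    intro h0
    have : m ≠ k := Finset.ne_of_mem_erase hm
    apply this
    have : (m : ℚ) = k := by linarith
    exact_mod_cast this
  rw [h1, map_mul, map_mul, map_mul, map_mul, map_pow, map_pow, map_pow, TS_pi n k hk]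
  set P := ∏ m ∈ (Finset.range n).erase k, (PowerSeries.X + PowerSeries.C (-(k : ℚ) + m))
  set I := ∏ m ∈ (Finset.range n).erase k, Pool.Agent.H337R2.iv (-(k : ℚ) + m)
  calc _ = PowerSeries.X ^ (e + e') * (TS (-(k : ℚ)) (ll n) ^ ep * TS (-(k : ℚ)) (gg n (i % (n / 2))) *
        TS (-(k : ℚ)) (gg n (i' % (n / 2))) *
          ∏ m ∈ (Finset.range n).erase k, Pool.Agent.H337R2.iv (-(k : ℚ) + m) ^ w) * (P * I) ^ (e + e') := by
        ring
    _ = _ := by rw [h2, one_pow, mul_one]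

lemma AB_ffE (ep n k j j' w : ℕ) (hk : k < n) (hj : j ≤ n / 2) (hj' : j' ≤ n / 2) :
    AB ((n : ℚ) ^ ep * (((2 * j).factorial : ℚ) * 2 ^ n) * (((2 * j').factorial : ℚ) * 2 ^ n) *
      (∏ m ∈ (Finset.range n).erase k, 2 / |-(k : ℚ) + m|) ^ w) (ffE ep n k j j' w) := by
  unfold ffE
  refine ((((AB_ll n k hk).pow ep).mul (AB_gg n j k hj hk)).mul (AB_gg n j' k hj' hk)).mul ?_
  rw [← Finset.prod_pow]
  apply AB.prod
  intro m hm
  apply AB.pow
  apply AB.iv
  have h1 : m ≠ k := Finset.ne_of_mem_erase hm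
  have h2 : (-(k : ℤ) + m) ≠ 0 := by
    intro h
    apply h1
    omega
  have h3 := Int.one_le_abs h2
  have h4 : ((1 : ℤ) : ℚ) ≤ ((|-(k : ℤ) + m| : ℤ) : ℚ) := by exact_mod_cast h3
  push_cast at h4
  exact h4

end CBe

open CB CBe in
/-- CB: the absolute value of the normalised partial fraction coefficients -/
theorem t_cbE (ep : ℕ) (hep : ep ≤ 1) (n h B i i' k ι : ℕ) (hn : 2 ≤ n) (he : Even n) (hh : 1 ≤ h)
    (hB : 1 ≤ B) (hi : 2 * i < h * n) (hi' : 2 * i' < h * n) (hk : k < n) (hι : 1 ≤ ι) (hι2 : ι ≤ 2 * h) :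
    |((sc n h B i * sc n h B i' * pa (sP n) (mP h) (numE ep n (Qb n i * Qb n i')) k ι : ℚ) : ℝ)| ≤
      Real.exp (60 * h * (n + Real.sqrt ((B : ℝ) * n) * Real.log ((B : ℝ) * n))) := by
  have h0 : 0 < n / 2 := by omega
  set l := i / (n / 2) with hl
  set l' := i' / (n / 2) with hl'
  set j := i % (n / 2) with hj
  set j' := i' % (n / 2) with hj'
  obtain ⟨c, hc⟩ := he
  have hc2 : n / 2 = c := by omega
  have hlh : l < h := by
    rw [hl, Nat.div_lt_iff_lt_mul h0, hc2]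
    rw [hc] at hi
    nlinarith
  have hlh' : l' < h := by
    rw [hl', Nat.div_lt_iff_lt_mul h0, hc2]
    rw [hc] at hi'
    nlinarith
  obtain ⟨a, ha⟩ : ∃ a, h = l + a := ⟨h - l, by omega⟩
  obtain ⟨a', ha'⟩ : ∃ a', h = l' + a' := ⟨h - l', by omega⟩
  have hjn : j ≤ n / 2 := (Nat.mod_lt i h0).le
  have hjn' : j' ≤ n / 2 := (Nat.mod_lt i' h0).le
  have hser := seriesE ep n h i i' k (a + a') ⟨c, hc⟩ hn hk (by rw [← hl, ← hl']; omega)
  rw [← hl, ← hl', ← hj, ← hj'] at hser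
  have hAB0 := AB_ffE ep n k j j' (a + a') hk hjn hjn'
  have hnep : (n : ℚ) ^ ep ≤ n := by
    have h1n : (1 : ℚ) ≤ n := by exact_mod_cast (by omega : 1 ≤ n)
    calc (n : ℚ) ^ ep ≤ (n : ℚ) ^ 1 := pow_le_pow_right₀ h1n hep
      _ = n := pow_one _
  have hPr0 : (0 : ℚ) ≤ ∏ m ∈ (Finset.range n).erase k, 2 / |-(k : ℚ) + m| :=
    Finset.prod_nonneg fun m _ => by positivity
  have hAB : AB (n * (((2 * j).factorial : ℚ) * 2 ^ n) * (((2 * j').factorial : ℚ) * 2 ^ n) *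
      (∏ m ∈ (Finset.range n).erase k, 2 / |-(k : ℚ) + m|) ^ (a + a')) (ffE ep n k j j' (a + a')) := by
    refine hAB0.mono ?_
    gcongr
  clear_value l l' j j'
  -- the bound for the partial fraction coefficient
  have hpa : |pa (sP n) (mP h) (numE ep n (Qb n i * Qb n i')) k ι| ≤
      2 ^ (2 * h) * (n * (((2 * j).factorial : ℚ) * 2 ^ n) * (((2 * j').factorial : ℚ) * 2 ^ n) *
      (∏ m ∈ (Finset.range n).erase k, 2 / |-(k : ℚ) + m|) ^ (a + a')) := by
    have hnn := hAB.nonneg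
    unfold pa
    rw [if_pos (by simpa using hι2)]
    unfold pfc
    rw [hser, PowerSeries.coeff_X_pow_mul']
    split_ifs with hle
    · refine (hAB.coeff_le _).trans ?_
      apply mul_le_mul_of_nonneg_right _ hnn
      apply pow_le_pow_right₀ (by norm_num)
      have hmP : mP h k = 2 * h := rfl
      omega
    · rw [abs_zero]
      positivity
  -- the scaling factors
  have hsc : sc n h B i * sc n h B i' = ((n.factorial : ℚ) ^ (a + a') * (Dl n B : ℚ) ^ (a + a' + 4)) /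
      (((2 * j).factorial : ℚ) * ((2 * j').factorial : ℚ)) := by
    unfold sc
    rw [← hl, ← hl', ← hj, ← hj', show h - l = a by omega, show h - l' = a' by omega]
    rw [div_mul_div_comm]
    congr 1
    ring
  have hDpos : (0 : ℚ) < (Dl n B : ℚ) := by
    have : 0 < Dl n B := by
      unfold Dl
      refine Finset.prod_pos fun p hp => ?_
      exact pow_pos (Finset.mem_filter.1 hp).2.pos _
    exact_mod_cast this
  have hPr : (0 : ℚ) ≤ ∏ m ∈ (Finset.range n).erase k, 2 / |-(k : ℚ) + m| :=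
    Finset.prod_nonneg fun m _ => by positivity
  have hmain : |sc n h B i * sc n h B i' * pa (sP n) (mP h) (numE ep n (Qb n i * Qb n i')) k ι| ≤
      2 ^ (2 * h) * 2 ^ (3 * n) * 8 ^ (n * (a + a')) * (Dl n B : ℚ) ^ (a + a' + 4) := by
    rw [abs_mul, hsc]
    have hsc0 : (0 : ℚ) ≤ ((n.factorial : ℚ) ^ (a + a') * (Dl n B : ℚ) ^ (a + a' + 4)) /
      (((2 * j).factorial : ℚ) * ((2 * j').factorial : ℚ)) := by positivity
    rw [abs_of_nonneg hsc0]
    refine (mul_le_mul_of_nonneg_left hpa hsc0).trans ?_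
    have hf1 : (0 : ℚ) < ((2 * j).factorial : ℚ) := by positivity
    have hf2 : (0 : ℚ) < ((2 * j').factorial : ℚ) := by positivity
    have h6 : (n : ℚ) ≤ 2 ^ n := by exact_mod_cast (Nat.lt_two_pow_self).le
    have hfb := fact_bound n k hk
    have hfb0 : (0 : ℚ) ≤ (n.factorial : ℚ) * ∏ m ∈ (Finset.range n).erase k, 2 / |-(k : ℚ) + m| := by
      positivity
    calc _ = 2 ^ (2 * h) * ((n : ℚ) * 2 ^ n * 2 ^ n) *
          ((n.factorial : ℚ) * ∏ m ∈ (Finset.range n).erase k, 2 / |-(k : ℚ) + m|) ^ (a + a') *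
          (Dl n B : ℚ) ^ (a + a' + 4) := by
          rw [mul_pow (n.factorial : ℚ)]
          field_simp
      _ ≤ 2 ^ (2 * h) * ((2 : ℚ) ^ n * 2 ^ n * 2 ^ n) * (8 ^ n) ^ (a + a') *
          (Dl n B : ℚ) ^ (a + a' + 4) := by gcongr
      _ = _ := by
          have g1 : ((8 : ℚ) ^ n) ^ (a + a') = 8 ^ (n * (a + a')) := (pow_mul _ _ _).symm
          have g2 : (2 : ℚ) ^ (3 * n) = 2 ^ n * 2 ^ n * 2 ^ n := by
            rw [← pow_add, ← pow_add]
            congr 1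
            ring
          rw [g1, g2]
  -- logarithms
  have hmainR : |((sc n h B i * sc n h B i' * pa (sP n) (mP h) (numE ep n (Qb n i * Qb n i')) k ι : ℚ) : ℝ)| ≤
      2 ^ (2 * h) * 2 ^ (3 * n) * 8 ^ (n * (a + a')) * (Dl n B : ℝ) ^ (a + a' + 4) := by
    have := hmain
    have h2 : ((|sc n h B i * sc n h B i' * pa (sP n) (mP h) (numE ep n (Qb n i * Qb n i')) k ι| : ℚ) : ℝ) ≤
        ((2 ^ (2 * h) * 2 ^ (3 * n) * 8 ^ (n * (a + a')) * (Dl n B : ℚ) ^ (a + a' + 4) : ℚ) : ℝ) := by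
      exact_mod_cast this
    rw [Rat.cast_abs] at h2
    refine h2.trans (le_of_eq ?_)
    push_cast
    rfl
  have hDposR : (0 : ℝ) < (Dl n B : ℝ) := by exact_mod_cast hDpos
  refine hmainR.trans ?_
  have hpos : (0 : ℝ) < 2 ^ (2 * h) * 2 ^ (3 * n) * 8 ^ (n * (a + a')) * (Dl n B : ℝ) ^ (a + a' + 4) := by
    positivity
  rw [← Real.log_le_iff_le_exp hpos]
  rw [Real.log_mul (by positivity) (by positivity), Real.log_mul (by positivity) (by positivity),
    Real.log_mul (by positivity) (by positivity), Real.log_pow, Real.log_pow, Real.log_pow, Real.log_pow]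
  have hDL := t_dl n B (by omega) hB
  set U : ℝ := Real.sqrt ((B : ℝ) * n) * Real.log ((B : ℝ) * n) with hU
  have hn' : (2 : ℝ) ≤ n := by exact_mod_cast hn
  have hB' : (1 : ℝ) ≤ B := by exact_mod_cast hB
  have hh' : (1 : ℝ) ≤ h := by exact_mod_cast hh
  have hBn : (1 : ℝ) ≤ (B : ℝ) * n := by nlinarith
  have hU2 : 0 ≤ U := mul_nonneg (Real.sqrt_nonneg _) (Real.log_nonneg hBn)
  have hl2 : Real.log 2 ≤ 0.7 := by
    have := Real.log_two_lt_d9
    linarith
  have hl20 : 0 ≤ Real.log 2 := Real.log_nonneg (by norm_num)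
  have hl8 : Real.log 8 = 3 * Real.log 2 := by
    rw [show (8 : ℝ) = 2 ^ 3 by norm_num, Real.log_pow]
    norm_num
  have hl4 : Real.log 4 = 2 * Real.log 2 := by
    rw [show (4 : ℝ) = 2 ^ 2 by norm_num, Real.log_pow]
    norm_num
  rw [hl4] at hDL
  rw [hl8]
  have haa : ((a + a' : ℕ) : ℝ) ≤ 2 * h := by
    have : a + a' ≤ 2 * h := by omega
    exact_mod_cast this
  have haa4 : ((a + a' + 4 : ℕ) : ℝ) ≤ 6 * h := by
    have : a + a' + 4 ≤ 6 * h := by omega
    exact_mod_cast this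
  have b1 : ((a + a' + 4 : ℕ) : ℝ) * Real.log (Dl n B) ≤ 6 * h * (n * 1.4 + U) := by
    have c1 : Real.log (Dl n B) ≤ n * 1.4 + U := by nlinarith
    calc ((a + a' + 4 : ℕ) : ℝ) * Real.log (Dl n B) ≤ ((a + a' + 4 : ℕ) : ℝ) * (n * 1.4 + U) :=
          mul_le_mul_of_nonneg_left c1 (Nat.cast_nonneg _)
      _ ≤ 6 * h * (n * 1.4 + U) := mul_le_mul_of_nonneg_right haa4 (by positivity)
  have b2 : ((n * (a + a') : ℕ) : ℝ) * (3 * Real.log 2) ≤ (n * (2 * h)) * (3 * 0.7) := by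
    rw [Nat.cast_mul]
    have : (0 : ℝ) ≤ ((a + a' : ℕ) : ℝ) := Nat.cast_nonneg _
    gcongr
  have b3 : ((3 * n : ℕ) : ℝ) * Real.log 2 ≤ (3 * n) * 0.7 := by
    push_cast
    gcongr
  have b4 : ((2 * h : ℕ) : ℝ) * Real.log 2 ≤ (2 * h) * 0.7 := by
    push_cast
    gcongr
  have hhn : (n : ℝ) ≤ h * n := by nlinarith
  have hhn2 : (h : ℝ) ≤ h * n := by nlinarith
  have hhU : 0 ≤ h * U := by positivity
  have e1 : 6 * (h : ℝ) * (n * 1.4 + U) = 8.4 * (h * n) + 6 * (h * U) := by ring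
  have e2 : (n : ℝ) * (2 * h) * (3 * 0.7) = 4.2 * (h * n) := by ring
  have e3 : 60 * (h : ℝ) * (n + U) = 60 * (h * n) + 60 * (h * U) := by ring
  rw [e1] at b1
  rw [e2] at b2
  rw [e3]
  generalize (h : ℝ) * n = x at *
  generalize (h : ℝ) * U = y at *
  linarith

end

end Run7.h317.LV
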