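import Pool.Agent.Run7.h317.LV.PA

/-!
# Integrality at the primes `p ≤ n` (adapted from `Pool/Agent/W165/OZ/SE.lean`)
-/

open Polynomial Pool.Agent.H337R2 Filter Topology

namespace Run7.h317.LV

open Pool.Agent.W165.OZ

noncomputable section

namespace SEe

/-- the twisted harmonic sums -/
lemma hs_mem (A : Type) [CommRing A] [Algebra ℚ A] (p : ℕ) [hp : Fact p.Prime]
    (S : Subring A) (hS : ∀ x : ℚ, padicNorm p x ≤ 1 → algebraMap ℚ A x ∈ S)
    (f : ℕ → A) (hf : ∀ v, f v ∈ S) (c : ℚ) (ι m K : ℕ) (hm : m ≤ K)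
    (hc : padicNorm p c * (p : ℚ) ^ (ι * Nat.log p K) ≤ 1) :
    algebraMap ℚ A c * hsE f ι m ∈ S := by
  unfold hsE
  rw [Finset.mul_sum]
  refine Subring.sum_mem _ fun l hl => ?_
  rw [← mul_assoc, ← map_mul]
  refine S.mul_mem (hS _ ?_) (hf _)
  have hl' : l + 1 ≤ K := by
    have := Finset.mem_range.1 hl
    omega
  have h5 : 1 / ((l : ℚ) + 1) ^ ι = (1 / ((l + 1 : ℕ) : ℚ)) ^ ι := by
    rw [one_div_pow]
    push_cast
    rfl
  rw [padicNorm.mul, h5, hb_pow]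
  refine le_trans ?_ hc
  apply mul_le_mul_of_nonneg_left _ (padicNorm.nonneg _)
  rw [mul_comm ι, pow_mul]
  exact pow_le_pow_left₀ (padicNorm.nonneg _) (hb_inv p (l + 1) K (by omega) hl') ι

/-- one entry -/
lemma entryE (ep : ℕ) (A : Type) [CommRing A] [Algebra ℚ A] (p : ℕ) [hp : Fact p.Prime]
    (S : Subring A) (hS : ∀ x : ℚ, padicNorm p x ≤ 1 → algebraMap ℚ A x ∈ S)
    (n h M B : ℕ) (w : ℕ → ℤ) (z f : ℕ → A) (hf : ∀ v, f v ∈ S) (q : ℕ) (hz : ∀ i, (q : A) * z i ∈ S)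
    (hn : 2 ≤ n) (he : Even n) (hh : 1 ≤ h) (hM : 1 ≤ M) (hB : 1 ≤ B) (hpn : p ≤ n) (i i' : ℕ)
    (hi : 2 * i < h * n) (hi' : 2 * i' < h * n) :
    algebraMap ℚ A ((q : ℚ) * sc n h (M * B) i * sc n h (M * B) i') *
      LaLE ep n h M B w z f (Qb n i * Qb n i') ∈ S := by
  have hMB : 1 ≤ M * B := Nat.mul_pos hM hB
  set c : ℚ := sc n h (M * B) i * sc n h (M * B) i' with hc
  set P := numE ep n (Qb n i * Qb n i') with hP
  have hpa : ∀ k < n, ∀ ι, 1 ≤ ι → ι ≤ 2 * h →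
      padicNorm p (c * pa (sP n) (mP h) P k ι) * (p : ℚ) ^ (ι * Nat.log p (M * B * n)) ≤ 1 :=
    fun k hk ι h1 h2' => t_paE ep p n h (M * B) hn he hh hMB hpn i i' k ι hi hi' hk h1 h2'
  have hp1 : (1 : ℚ) ≤ p := by exact_mod_cast hp.out.one_lt.le
  have hpa1 : ∀ k < n, ∀ ι, 1 ≤ ι → ι ≤ 2 * h → padicNorm p (c * pa (sP n) (mP h) P k ι) ≤ 1 := by
    intro k hk ι h1 h2'
    refine le_trans ?_ (hpa k hk ι h1 h2')
    exact le_mul_of_one_le_right (padicNorm.nonneg _) (one_le_pow₀ hp1)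
  change algebraMap ℚ A ((q : ℚ) * sc n h (M * B) i * sc n h (M * B) i') * LaE n h M B w z f P ∈ S
  unfold LaE
  rw [Finset.mul_sum]
  refine Subring.sum_mem _ fun ι hι => ?_
  rw [Finset.mem_Icc] at hι
  have e1 : algebraMap ℚ A ((q : ℚ) * sc n h (M * B) i * sc n h (M * B) i') *
      (algebraMap ℚ A (rhoP n h P ι * WWE M B w ι) * z ι - betE n h M B w f P ι) =
      algebraMap ℚ A (c * rhoP n h P ι * WWE M B w ι) * ((q : A) * z ι) -
        (q : A) * (algebraMap ℚ A c * betE n h M B w f P ι) := by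
    rw [hc]
    simp only [map_mul, map_natCast]
    ring
  rw [e1]
  apply S.sub_mem
  · apply S.mul_mem _ (hz ι)
    apply hS
    apply SE.norm_mul_le
    · unfold rhoP
      rw [Finset.mul_sum]
      apply padicNorm.sum_le' _ zero_le_one
      intro k hk
      exact hpa1 k (Finset.mem_range.1 hk) ι hι.1 hι.2
    · exact padicNorm.of_int _
  · apply S.mul_mem (natCast_mem S q)
    unfold betE
    rw [Finset.mul_sum]
    refine Subring.sum_mem _ fun d hd => ?_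
    rw [Finset.mem_Icc] at hd
    rw [Finset.mul_sum]
    refine Subring.sum_mem _ fun k hk => ?_
    have hk' := Finset.mem_range.1 hk
    rw [← mul_assoc, ← map_mul]
    refine hs_mem A p S hS f hf _ ι _ (M * B * n) ?_ ?_
    · exact Nat.mul_le_mul (Nat.mul_le_mul_left M hd.2) hk'
    · have e2 : c * ((w d : ℚ) * ((M * d : ℕ) : ℚ) ^ ι * pa (sP n) (mP h) P k ι) =
          (((w d * ((M * d : ℕ) : ℤ) ^ ι : ℤ)) : ℚ) * (c * pa (sP n) (mP h) P k ι) := by
        push_cast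
        ring
      rw [e2, padicNorm.mul, mul_assoc]
      have h1 := hpa k hk' ι hι.1 hι.2
      have h2 : padicNorm p (((w d * ((M * d : ℕ) : ℤ) ^ ι : ℤ)) : ℚ) ≤ 1 := padicNorm.of_int _
      have h3 : 0 ≤ padicNorm p (c * pa (sP n) (mP h) P k ι) * (p : ℚ) ^ (ι * Nat.log p (M * B * n)) :=
        mul_nonneg (padicNorm.nonneg _) (by positivity)
      exact mul_le_one₀ h2 h3 h1

end SEe

/-- SE: integrality at the primes `p ≤ n` -/
theorem t_seE (ep : ℕ) (A : Type) [CommRing A] [Algebra ℚ A] (p : ℕ) [hp : Fact p.Prime]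
    (S : Subring A) (hS : ∀ x : ℚ, padicNorm p x ≤ 1 → algebraMap ℚ A x ∈ S)
    (n h M B : ℕ) (w : ℕ → ℤ) (z f : ℕ → A) (hf : ∀ v, f v ∈ S) (q : ℕ) (hz : ∀ i, (q : A) * z i ∈ S)
    (hn : 2 ≤ n) (he : Even n) (hh : 1 ≤ h) (hM : 1 ≤ M) (hB : 1 ≤ B) (hpn : p ≤ n)
    (r : ℕ) (hr : 2 * r ≤ h * n) :
    algebraMap ℚ A ((q : ℚ) ^ r * ∏ i ∈ Finset.range r, sc n h (M * B) i ^ 2) *
      DH (moE ep n h M B w z f) r ∈ S := by
  have hdet : DH (moE ep n h M B w z f) r =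
      Matrix.det (Matrix.of fun i j : Fin r => LaLE ep n h M B w z f (Qb n i.1 * Qb n j.1)) := by
    rw [t_bas ℚ A (LaLE ep n h M B w z f) (Qb n) (Qb_monic n) (fun i => Qb_natDegree n i hn) r]
    rfl
  set Mx : Matrix (Fin r) (Fin r) A :=
    Matrix.of fun i j : Fin r => LaLE ep n h M B w z f (Qb n i.1 * Qb n j.1) with hM
  have hN : Matrix.det (Matrix.of fun i j : Fin r => algebraMap ℚ A ((q : ℚ) * sc n h (M * B) i.1) *
      (Matrix.of fun i j : Fin r => algebraMap ℚ A (sc n h (M * B) j.1) * Mx i j) i j) =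
      algebraMap ℚ A ((q : ℚ) ^ r * ∏ i ∈ Finset.range r, sc n h (M * B) i ^ 2) * Mx.det := by
    rw [Matrix.det_mul_column (fun i : Fin r => algebraMap ℚ A ((q : ℚ) * sc n h (M * B) i.1)),
      Matrix.det_mul_row (fun j : Fin r => algebraMap ℚ A (sc n h (M * B) j.1)), ← mul_assoc]
    congr 1
    rw [← map_prod, ← map_prod, ← map_mul]
    congr 1
    rw [Finset.prod_mul_distrib, Finset.prod_const, Finset.card_univ, Fintype.card_fin, mul_assoc,
      ← Finset.prod_mul_distrib]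
    congr 1
    rw [Finset.prod_range]
    refine Finset.prod_congr rfl fun i _ => ?_
    ring
  rw [hdet, ← hN]
  apply SE.det_mem
  intro i j
  have hi := i.2
  have hj := j.2
  have key := SEe.entryE ep A p S hS n h M B w z f hf q hz hn he hh (by assumption) hB hpn i.1 j.1
    (by omega) (by omega)
  have e : (Matrix.of fun i j : Fin r => algebraMap ℚ A ((q : ℚ) * sc n h (M * B) i.1) *
      (Matrix.of fun i j : Fin r => algebraMap ℚ A (sc n h (M * B) j.1) * Mx i j) i j) i j =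
      algebraMap ℚ A ((q : ℚ) * sc n h (M * B) i.1 * sc n h (M * B) j.1) *
        LaLE ep n h M B w z f (Qb n i.1 * Qb n j.1) := by
    simp only [Matrix.of_apply, hM, map_mul]
    ring
  rw [e]
  exact key

end

end Run7.h317.LV
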