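import Pool.Agent.Run7.h317.LV.CB
import Pool.Agent.Run7.h317.LV.SE

/-!
# The conjugates of the determinant (adapted from `Pool/Agent/W165/OZ/CD.lean`)
-/

open Polynomial Pool.Agent.H337R2 Filter Topology

namespace Run7.h317.LV

open Pool.Agent.W165.OZ

noncomputable section

namespace CDe

open CDaux (norm_alg Wn Wn_nonneg sqrt_log)

lemma pow_dM {M B h d i : ℕ} (hM : 1 ≤ M) (hB : 1 ≤ B) (hd : d ∈ Finset.Icc 1 B) (hi : i ≤ 2 * h) :
    ((M * d : ℕ) : ℝ) ^ i ≤ ((M * B : ℕ) : ℝ) ^ (2 * h) := by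
  rw [Finset.mem_Icc] at hd
  have h1 : ((M * d : ℕ) : ℝ) ≤ ((M * B : ℕ) : ℝ) := by exact_mod_cast Nat.mul_le_mul_left M hd.2
  have h2 : (1 : ℝ) ≤ ((M * B : ℕ) : ℝ) := by exact_mod_cast Nat.mul_pos hM hB
  exact (pow_le_pow_left₀ (Nat.cast_nonneg _) h1 i).trans (pow_le_pow_right₀ h2 hi)

lemma WWE_le {M B h i : ℕ} (w : ℕ → ℤ) (hM : 1 ≤ M) (hB : 1 ≤ B) (hi : i ≤ 2 * h) :
    |(WWE M B w i : ℝ)| ≤ Wn B w * ((M * B : ℕ) : ℝ) ^ (2 * h) := by
  unfold WWE Wn
  rw [Int.cast_sum, Finset.sum_mul]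
  refine (Finset.abs_sum_le_sum_abs _ _).trans (Finset.sum_le_sum fun d hd => ?_)
  rw [Int.cast_mul, Int.cast_pow, Int.cast_natCast, abs_mul,
    abs_of_nonneg (by positivity : (0 : ℝ) ≤ ((M * d : ℕ) : ℝ) ^ i)]
  exact mul_le_mul_of_nonneg_left (pow_dM hM hB hd hi) (abs_nonneg _)

lemma hsE_le (f : ℕ → ℂ) (F : ℝ) (hf : ∀ v, ‖f v‖ ≤ F) (i m : ℕ) : ‖hsE f i m‖ ≤ m * F := by
  unfold hsE
  refine (norm_sum_le _ _).trans ?_
  calc _ ≤ ∑ l ∈ Finset.range m, F := by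
        refine Finset.sum_le_sum fun l _ => ?_
        rw [norm_mul, norm_alg]
        have h1 : |((1 / ((l : ℚ) + 1) ^ i : ℚ) : ℝ)| ≤ 1 := by
          have h2 : (0 : ℝ) ≤ l := Nat.cast_nonneg l
          push_cast
          rw [abs_of_nonneg (by positivity), div_le_one (by positivity)]
          exact one_le_pow₀ (by linarith)
        calc _ ≤ 1 * F := mul_le_mul h1 (hf _) (norm_nonneg _) zero_le_one
          _ = F := one_mul _
    _ = m * F := by simp

/-- the entry -/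
lemma entryC {n h M B : ℕ} (w : ℕ → ℤ) (hM : 1 ≤ M) (hB : 1 ≤ B) (s : ℚ) (P : ℚ[X]) (E : ℝ) (hE : 0 ≤ E)
    (hpa : ∀ k i : ℕ, k < n → 1 ≤ i → i ≤ 2 * h →
      |((s * pa (sP n) (mP h) P k i : ℚ) : ℝ)| ≤ E)
    (z f : ℕ → ℂ) (Z : ℝ) (hZ : 0 ≤ Z) (hz : ∀ i, ‖z i‖ ≤ Z) (hf : ∀ i, ‖f i‖ ≤ Z) (hn : 1 ≤ n) :
    ‖algebraMap ℚ ℂ s * LaE n h M B w z f P‖ ≤
      (2 * h * (Wn B w * ((M * B : ℕ) : ℝ) ^ (2 * h)) * (Z + (M * B : ℕ) * Z)) * (n : ℝ) ^ 2 * E := by
  have hWn := Wn_nonneg B w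
  have hBp : (0 : ℝ) ≤ ((M * B : ℕ) : ℝ) ^ (2 * h) := by positivity
  have hn1 : (1 : ℝ) ≤ n := by exact_mod_cast hn
  obtain ⟨Q, hQ⟩ : ∃ Q : ℝ, Q = ((M * B : ℕ) : ℝ) ^ (2 * h) := ⟨_, rfl⟩
  have hrho : ∀ i, 1 ≤ i → i ≤ 2 * h → |((s * rhoP n h P i : ℚ) : ℝ)| ≤ n * E := by
    intro i hi1 hi2
    unfold rhoP
    rw [Finset.mul_sum]
    push_cast
    refine (Finset.abs_sum_le_sum_abs _ _).trans ?_
    calc _ ≤ ∑ k ∈ sP n, E := Finset.sum_le_sum fun k hk => by
          have := hpa k i (Finset.mem_range.1 hk) hi1 hi2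
          push_cast at this
          exact this
      _ = n * E := by simp
  have hbet : ∀ i, 1 ≤ i → i ≤ 2 * h → ‖algebraMap ℚ ℂ s * betE n h M B w f P i‖ ≤
      (Wn B w * Q) * ((M * B : ℕ) * (n : ℝ) ^ 2 * (E * Z)) := by
    intro i hi1 hi2
    have e : algebraMap ℚ ℂ s * betE n h M B w f P i = ∑ d ∈ Finset.Icc 1 B, ∑ k ∈ sP n,
        algebraMap ℚ ℂ (((w d : ℚ) * ((M * d : ℕ) : ℚ) ^ i) * (s * pa (sP n) (mP h) P k i)) *
          hsE f i (M * d * (k + 1)) := by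
      unfold betE
      rw [Finset.mul_sum]
      refine Finset.sum_congr rfl fun d _ => ?_
      rw [Finset.mul_sum]
      refine Finset.sum_congr rfl fun k _ => ?_
      rw [← mul_assoc, ← map_mul]
      congr 2
      ring
    rw [e]
    unfold Wn
    rw [Finset.sum_mul, Finset.sum_mul]
    refine (norm_sum_le _ _).trans (Finset.sum_le_sum fun d hd => ?_)
    have hd1 := pow_dM (h := h) hM hB hd hi2
    rw [← hQ] at hd1
    have hdB : ((M * d : ℕ) : ℝ) ≤ ((M * B : ℕ) : ℝ) := by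
      rw [Finset.mem_Icc] at hd
      exact_mod_cast Nat.mul_le_mul_left M hd.2
    refine (norm_sum_le _ _).trans ?_
    calc _ ≤ ∑ k ∈ sP n, (|(w d : ℝ)| * Q) * (E * ((M * B : ℕ) * n * Z)) :=
          Finset.sum_le_sum fun k hk => by
          have hkn := Finset.mem_range.1 hk
          rw [norm_mul, norm_alg, Rat.cast_mul, abs_mul]
          have h1 : |(((w d : ℚ) * ((M * d : ℕ) : ℚ) ^ i : ℚ) : ℝ)| ≤ |(w d : ℝ)| * Q := by
            rw [Rat.cast_mul, Rat.cast_pow, Rat.cast_natCast, Rat.cast_intCast, abs_mul,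
              abs_of_nonneg (by positivity : (0 : ℝ) ≤ ((M * d : ℕ) : ℝ) ^ i)]
            exact mul_le_mul_of_nonneg_left hd1 (abs_nonneg _)
          have h2 : ‖hsE f i (M * d * (k + 1))‖ ≤ (M * B : ℕ) * n * Z := by
            refine (hsE_le f Z hf i _).trans ?_
            apply mul_le_mul_of_nonneg_right _ hZ
            rw [Nat.cast_mul (M * d)]
            have h3 : ((k + 1 : ℕ) : ℝ) ≤ n := by exact_mod_cast hkn
            exact mul_le_mul hdB h3 (by positivity) (by positivity)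
          have hQ0 : 0 ≤ Q := by rw [hQ]; positivity
          calc |(((w d : ℚ) * ((M * d : ℕ) : ℚ) ^ i : ℚ) : ℝ)| * |((s * pa (sP n) (mP h) P k i : ℚ) : ℝ)| *
                ‖hsE f i (M * d * (k + 1))‖ ≤ (|(w d : ℝ)| * Q) * E * ((M * B : ℕ) * n * Z) :=
                mul_le_mul (mul_le_mul h1 (hpa k i hkn hi1 hi2) (abs_nonneg _) (by positivity)) h2
                  (norm_nonneg _) (by positivity)
            _ = _ := by ring
      _ = |(w d : ℝ)| * Q * ((M * B : ℕ) * (n : ℝ) ^ 2 * (E * Z)) := by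
          rw [Finset.sum_const, Finset.card_range, nsmul_eq_mul]
          ring
  unfold LaE
  rw [Finset.mul_sum]
  refine (norm_sum_le _ _).trans ?_
  calc _ ≤ ∑ i ∈ Finset.Icc 1 (2 * h), ((Wn B w * Q) * (Z + (M * B : ℕ) * Z)) *
        (n : ℝ) ^ 2 * E := Finset.sum_le_sum fun i hi => by
        rw [Finset.mem_Icc] at hi
        have e : algebraMap ℚ ℂ s * (algebraMap ℚ ℂ (rhoP n h P i * WWE M B w i) * z i -
            betE n h M B w f P i) =
            algebraMap ℚ ℂ (s * rhoP n h P i) * algebraMap ℚ ℂ (WWE M B w i : ℚ) * z i -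
            algebraMap ℚ ℂ s * betE n h M B w f P i := by
          rw [map_mul, map_mul]
          ring
        rw [e]
        refine (norm_sub_le _ _).trans ?_
        rw [norm_mul, norm_mul, norm_alg, norm_alg]
        have a1 := hrho i hi.1 hi.2
        have a2 := hbet i hi.1 hi.2
        have a3 : |(((WWE M B w i : ℤ) : ℚ) : ℝ)| ≤ Wn B w * Q := by
          rw [Rat.cast_intCast, hQ]
          exact WWE_le w hM hB hi.2
        have hQ0 : 0 ≤ Q := by rw [hQ]; positivity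
        have a4 : |((s * rhoP n h P i : ℚ) : ℝ)| * |(((WWE M B w i : ℤ) : ℚ) : ℝ)| * ‖z i‖ ≤
            (n * E) * (Wn B w * Q) * Z := by
          refine mul_le_mul (mul_le_mul a1 a3 (abs_nonneg _) (by positivity)) (hz i)
            (norm_nonneg _) (by positivity)
        have a5 : (n * E) * (Wn B w * Q) * Z ≤ ((n : ℝ) ^ 2 * E) * (Wn B w * Q) * Z := by
          gcongr
          nlinarith
        calc _ ≤ ((n : ℝ) ^ 2 * E) * (Wn B w * Q) * Z +
              (Wn B w * Q) * ((M * B : ℕ) * (n : ℝ) ^ 2 * (E * Z)) :=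
              add_le_add (a4.trans a5) a2
          _ = _ := by ring
    _ = _ := by
        rw [Finset.sum_const, Nat.card_Icc, nsmul_eq_mul, hQ]
        push_cast
        ring

/-- the determinant in the adapted basis -/
lemma det_eqE (ep n h M B : ℕ) (hn : 2 ≤ n) (w : ℕ → ℤ) (z f : ℕ → ℂ) (r : ℕ) :
    algebraMap ℚ ℂ (∏ i ∈ Finset.range r, sc n h (M * B) i ^ 2) * DH (moE ep n h M B w z f) r =
      Matrix.det (Matrix.of fun i j : Fin r =>
        algebraMap ℚ ℂ (sc n h (M * B) i.1 * sc n h (M * B) j.1) *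
          LaE n h M B w z f (numE ep n (Qb n i.1 * Qb n j.1))) := by
  have e1 : DH (moE ep n h M B w z f) r = Matrix.det (Matrix.of fun i j : Fin r =>
      LaLE ep n h M B w z f (Qb n i.1 * Qb n j.1)) :=
    (t_bas ℚ ℂ (LaLE ep n h M B w z f) (Qb n) (Qb_monic n) (fun i => Qb_natDegree n i hn) r).symm
  set v : Fin r → ℂ := fun i => algebraMap ℚ ℂ (sc n h (M * B) i.1) with hv
  have e2 : (Matrix.of fun i j : Fin r =>
        algebraMap ℚ ℂ (sc n h (M * B) i.1 * sc n h (M * B) j.1) *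
          LaE n h M B w z f (numE ep n (Qb n i.1 * Qb n j.1))) =
      Matrix.of fun i j : Fin r => v i * (Matrix.of fun i j : Fin r => v j *
        (Matrix.of fun i j : Fin r => LaLE ep n h M B w z f (Qb n i.1 * Qb n j.1)) i j) i j := by
    ext i j
    simp only [Matrix.of_apply, hv, map_mul]
    rw [mul_assoc]
    rfl
  rw [e2, Matrix.det_mul_column, Matrix.det_mul_row, ← e1, ← mul_assoc]
  congr 1
  rw [map_prod, Finset.prod_range]
  simp only [map_pow]
  rw [← Finset.prod_mul_distrib]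
  exact Finset.prod_congr rfl fun i _ => by rw [hv]; ring

end CDe

open CDe CDaux in
/-- CD: the conjugates of the determinant -/
theorem t_cdE (ep : ℕ) (hep : ep ≤ 1) (h M B : ℕ) (w : ℕ → ℤ) (Z : ℝ) (hh : 1 ≤ h) (hM : 1 ≤ M)
    (hB : 1 ≤ B) : ∃ n0 : ℕ, ∀ n ≥ n0, Even n → ∀ z f : ℕ → ℂ, (∀ i, ‖z i‖ ≤ Z) → (∀ i, ‖f i‖ ≤ Z) →
      ∀ r : ℕ, 2 * r ≤ h * n →
      ‖algebraMap ℚ ℂ (∏ i ∈ Finset.range r, sc n h (M * B) i ^ 2) * DH (moE ep n h M B w z f) r‖ ≤
        Real.exp (62 * ((h : ℝ) * n) ^ 2) := by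
  have hMB : 1 ≤ M * B := Nat.mul_pos hM hB
  set Z' : ℝ := max Z 0 with hZ'
  set K0 : ℝ := 2 * h * (Wn B w * ((M * B : ℕ) : ℝ) ^ (2 * h)) * (Z' + (M * B : ℕ) * Z') + 1 with hK0
  have hWn := Wn_nonneg B w
  have hZ0 : 0 ≤ Z' := le_max_right _ _
  have hK1 : 1 ≤ K0 := by
    rw [hK0]
    have : 0 ≤ 2 * (h : ℝ) * (Wn B w * ((M * B : ℕ) : ℝ) ^ (2 * h)) * (Z' + (M * B : ℕ) * Z') := by
      positivity
    linarith
  obtain ⟨m0, hm0⟩ := exists_nat_ge (Real.log K0)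
  refine ⟨max (max 2 m0) ((4 * (M * B)) ^ 4), fun n hn hev z f hz hf r hr => ?_⟩
  have hn2 : 2 ≤ n := ((le_max_left _ _).trans (le_max_left _ _)).trans hn
  have hnm : m0 ≤ n := ((le_max_right _ _).trans (le_max_left _ _)).trans hn
  have hnB : (4 * (M * B)) ^ 4 ≤ n := (le_max_right _ _).trans hn
  have hn1 : (1 : ℝ) ≤ n := by exact_mod_cast (by omega : 1 ≤ n)
  have hh1 : (1 : ℝ) ≤ h := by exact_mod_cast hh
  set E : ℝ := Real.exp (60 * h * (n + Real.sqrt (((M * B : ℕ) : ℝ) * n) *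
    Real.log (((M * B : ℕ) : ℝ) * n))) with hE
  have hE0 : 0 < E := Real.exp_pos _
  rw [det_eqE ep n h M B hn2 w z f r]
  -- the entries
  have hent : ∀ i j : Fin r, ‖(Matrix.of fun i j : Fin r =>
      algebraMap ℚ ℂ (sc n h (M * B) i.1 * sc n h (M * B) j.1) *
        LaE n h M B w z f (numE ep n (Qb n i.1 * Qb n j.1))) i j‖ ≤ K0 * (n : ℝ) ^ 2 * E := by
    intro i j
    rw [Matrix.of_apply]
    refine (entryC w hM hB (sc n h (M * B) i.1 * sc n h (M * B) j.1) (numE ep n (Qb n i.1 * Qb n j.1)) E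
      hE0.le (fun k ι hk hι1 hι2 => ?_) z f Z' hZ0 (fun i => (hz i).trans (le_max_left _ _))
      (fun i => (hf i).trans (le_max_left _ _)) (by omega)).trans ?_
    · exact t_cbE ep hep n h (M * B) i.1 j.1 k ι hn2 hev hh hMB (by have := i.2; omega)
        (by have := j.2; omega) hk hι1 hι2
    · refine mul_le_mul_of_nonneg_right (mul_le_mul_of_nonneg_right ?_ (by positivity)) hE0.le
      rw [hK0]
      linarith
  have hdet := Matrix.det_le (abv := NormedField.toAbsoluteValue ℂ) (fun i j => hent i j)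
  rw [Fintype.card_fin, nsmul_eq_mul] at hdet
  refine hdet.trans ?_
  -- the size
  have hrR : (r : ℝ) ≤ (h : ℝ) * n / 2 := by
    have : (2 : ℝ) * r ≤ h * n := by exact_mod_cast hr
    linarith
  have hr0 : (0 : ℝ) ≤ r := Nat.cast_nonneg r
  have hhn : (n : ℝ) ≤ h * n := by nlinarith
  have b1 : ((r.factorial : ℕ) : ℝ) ≤ Real.exp (r * (h * n)) := by
    calc ((r.factorial : ℕ) : ℝ) ≤ ((r ^ r : ℕ) : ℝ) := by exact_mod_cast Nat.factorial_le_pow r
      _ = (r : ℝ) ^ r := by push_cast; rfl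
      _ ≤ (Real.exp (h * n)) ^ r := by
          refine pow_le_pow_left₀ hr0 ?_ r
          have := Real.add_one_le_exp ((h : ℝ) * n)
          linarith
      _ = Real.exp (r * (h * n)) := by rw [← Real.exp_nat_mul]
  have b2 : K0 ≤ Real.exp n := by
    have h3 : Real.log K0 ≤ n := hm0.trans (by exact_mod_cast hnm)
    calc K0 = Real.exp (Real.log K0) := (Real.exp_log (by linarith)).symm
      _ ≤ _ := Real.exp_le_exp.2 h3
  have b3 : (n : ℝ) ^ 2 ≤ Real.exp (2 * n) := by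
    have h3 : (n : ℝ) ≤ Real.exp n := by linarith [Real.add_one_le_exp (n : ℝ)]
    calc (n : ℝ) ^ 2 ≤ (Real.exp n) ^ 2 := pow_le_pow_left₀ (by linarith) h3 2
      _ = Real.exp (2 * n) := by rw [← Real.exp_nat_mul]; push_cast; rfl
  have b4 : E ≤ Real.exp (60 * h * (2 * n)) := by
    rw [hE]
    refine Real.exp_le_exp.2 (mul_le_mul_of_nonneg_left ?_ (by positivity))
    have := sqrt_log hMB hnB
    linarith
  have b5 : K0 * (n : ℝ) ^ 2 * E ≤ Real.exp (n + 2 * n + 60 * h * (2 * n)) := by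
    rw [Real.exp_add, Real.exp_add]
    exact mul_le_mul (mul_le_mul b2 b3 (by positivity) (Real.exp_pos _).le) b4 hE0.le
      (by positivity)
  calc ((r.factorial : ℕ) : ℝ) * (K0 * (n : ℝ) ^ 2 * E) ^ r
      ≤ Real.exp (r * (h * n)) * (Real.exp (n + 2 * n + 60 * h * (2 * n))) ^ r :=
        mul_le_mul b1 (pow_le_pow_left₀ (by positivity) b5 r) (by positivity) (Real.exp_pos _).le
    _ = Real.exp (r * (h * n) + r * (n + 2 * n + 60 * h * (2 * n))) := by
        rw [← Real.exp_nat_mul, ← Real.exp_add]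
    _ ≤ Real.exp (62 * ((h : ℝ) * n) ^ 2) := by
        refine Real.exp_le_exp.2 ?_
        have c1 : (r : ℝ) * (h * n) ≤ (h * n / 2) * (h * n) :=
          mul_le_mul_of_nonneg_right hrR (by positivity)
        have c2 : (r : ℝ) * (n + 2 * n + 60 * h * (2 * n)) ≤
            (h * n / 2) * (3 * (h * n) + 60 * (2 * (h * n))) := by
          refine mul_le_mul hrR ?_ (by positivity) (by positivity)
          have e : 60 * (h : ℝ) * (2 * n) = 60 * (2 * (h * n)) := by ring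
          rw [e]
          linarith
        nlinarith [sq_nonneg ((h : ℝ) * n)]

end

end Run7.h317.LV
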