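import Pool.Agent.Run7.h317.LV.Defs

/-!
# The orders of the wrong parity vanish (adapted from `Pool/Agent/H337R2/Sym.lean`, `Pool/Agent/W165/OZ/EV.lean`)
-/

open Polynomial Pool.Agent.H337R2 Filter Topology

namespace Run7.h317.LV

open Pool.Agent.W165.OZ

/-- The reflection symmetry of partial fraction coefficients, symmetric numerator. -/
theorem pfc_reflect' (s : Finset ℕ) (μ : ℕ → ℕ) (P : ℚ[X]) (H : ℕ)
    (hsH : ∀ k ∈ s, k ≤ H ∧ H - k ∈ s) (hμ : ∀ k ∈ s, μ (H - k) = μ k)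
    (hP : P.comp (-X - C (H : ℚ)) = P) (hev : Even (∑ m ∈ s, μ m)) {k : ℕ} (hk : k ∈ s)
    {j : ℕ} (hj : j < μ k) :
    pfc s μ P (H - k) j = (-1) ^ (μ k - j) * pfc s μ P k j := by
  have hkH := (hsH k hk).1
  have hVV : VV (s.erase (H - k)) μ (-((H - k : ℕ) : ℚ))
      = (-1) ^ (∑ m ∈ s.erase k, μ m) * PowerSeries.rescale (-1 : ℚ) (VV (s.erase k) μ (-(k : ℚ))) := by
    unfold VV
    rw [map_prod, ← Finset.prod_pow_eq_pow_sum, ← Finset.prod_mul_distrib]
    symm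
    apply Finset.prod_bij (fun m _ => H - m)
    · intro m hm
      rw [Finset.mem_erase] at hm ⊢
      have := hsH m hm.2
      refine ⟨?_, this.2⟩
      intro h
      apply hm.1; omega
    · intro m1 hm1 m2 hm2 h
      rw [Finset.mem_erase] at hm1 hm2
      have := hsH m1 hm1.2
      have := hsH m2 hm2.2
      omega
    · intro m hm
      rw [Finset.mem_erase] at hm
      have := hsH m hm.2
      refine ⟨H - m, ?_, by omega⟩
      rw [Finset.mem_erase]
      refine ⟨?_, this.2⟩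
      intro h
      apply hm.1; omega
    · intro m hm
      rw [Finset.mem_erase] at hm
      have h1 := hsH m hm.2
      rw [hμ m hm.2, map_pow, ← mul_pow]
      congr 1
      have h2 : -((H - k : ℕ) : ℚ) + ((H - m : ℕ) : ℚ) = -(-(k : ℚ) + m) := by
        rw [Nat.cast_sub hkH, Nat.cast_sub h1.1]; ring
      rw [h2, iv_neg]
      simp
  have hT : TS (-((H - k : ℕ) : ℚ)) P = PowerSeries.rescale (-1 : ℚ) (TS (-(k : ℚ)) P) := by
    have h2 : -((H - k : ℕ) : ℚ) = -(H : ℚ) - (-(k : ℚ)) := by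
      rw [Nat.cast_sub hkH]; ring
    rw [h2, TS_reflect, hP]
  have hsum : ∑ m ∈ s, μ m = μ k + ∑ m ∈ s.erase k, μ m := (Finset.add_sum_erase s μ hk).symm
  unfold pfc
  rw [hVV, hT]
  have h3 : (PowerSeries.rescale (-1 : ℚ)) (TS (-(k : ℚ)) P) * ((-1) ^ (∑ m ∈ s.erase k, μ m) *
      (PowerSeries.rescale (-1 : ℚ)) (VV (s.erase k) μ (-(k : ℚ))))
      = PowerSeries.C ((-1 : ℚ) ^ (∑ m ∈ s.erase k, μ m)) * PowerSeries.rescale (-1 : ℚ)
        (TS (-(k : ℚ)) P * VV (s.erase k) μ (-(k : ℚ))) := by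
    rw [map_mul, map_pow]
    simp only [map_neg, map_one]
    ring
  rw [h3, PowerSeries.coeff_C_mul, PowerSeries.coeff_rescale]
  rw [hsum] at hev
  have h4 : ((-1 : ℚ)) ^ (∑ m ∈ s.erase k, μ m) * (-1) ^ j = (-1) ^ (μ k - j) := by
    rw [← pow_add]
    have h5 : Even ((∑ m ∈ s.erase k, μ m) + j + (μ k - j)) := by
      convert hev using 1; omega
    have h6 : ((-1 : ℚ)) ^ ((∑ m ∈ s.erase k, μ m) + j + (μ k - j)) = 1 := h5.neg_one_pow
    rw [pow_add] at h6
    rcases neg_one_pow_eq_or ℚ (μ k - j) with h | h <;> rw [h] at h6 ⊢ <;> linarith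
  calc _ = ((-1 : ℚ) ^ (∑ m ∈ s.erase k, μ m) * (-1) ^ j) *
        (PowerSeries.coeff j) (TS (-(k : ℚ)) P * VV (s.erase k) μ (-(k : ℚ))) := by ring
    _ = _ := by rw [h4]

theorem odd_vanish (s : Finset ℕ) (μ : ℕ → ℕ) (P : ℚ[X]) (H : ℕ)
    (hsH : ∀ k ∈ s, k ≤ H ∧ H - k ∈ s) (hμ : ∀ k ∈ s, μ (H - k) = μ k)
    (hP : P.comp (-X - C (H : ℚ)) = P) (hev : Even (∑ m ∈ s, μ m)) {i : ℕ} (hi : Odd i)
    (hi1 : 1 ≤ i) : ∑ k ∈ s, pa s μ P k i = 0 := by
  have h1 : ∑ k ∈ s, pa s μ P k i = ∑ k ∈ s, pa s μ P (H - k) i := by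
    apply Finset.sum_bij (fun m _ => H - m)
    · intro m hm; exact (hsH m hm).2
    · intro m1 hm1 m2 hm2 h
      have := hsH m1 hm1
      have := hsH m2 hm2
      omega
    · intro m hm
      have := hsH m hm
      exact ⟨H - m, this.2, by omega⟩
    · intro m hm
      have := hsH m hm
      rw [show H - (H - m) = m by omega]
  have h2 : ∀ k ∈ s, pa s μ P (H - k) i = - pa s μ P k i := by
    intro k hk
    unfold pa
    rw [hμ k hk]
    split_ifs with h
    · rw [pfc_reflect' s μ P H hsH hμ hP hev hk (by omega)]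
      rw [show μ k - (μ k - i) = i by omega, hi.neg_one_pow]
      ring
    · simp
  rw [Finset.sum_congr rfl h2, Finset.sum_neg_distrib] at h1
  linarith

theorem ev_compE (ep n : ℕ) (hn : 1 ≤ n) (Q : ℚ[X]) :
    (numE ep n Q).comp (-X - C (((n - 1 : ℕ) : ℚ))) = (-1) ^ ep * numE ep n Q := by
  have hc : (((n - 1 : ℕ) : ℚ)) = (n : ℚ) - 1 := by
    rw [Nat.cast_sub hn]; norm_num
  rw [hc]
  have h1 : (yp n).comp (-X - C ((n : ℚ) - 1)) = yp n := by
    unfold yp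
    simp only [Polynomial.mul_comp, Polynomial.add_comp, Polynomial.X_comp, Polynomial.C_comp]
    ring
  unfold numE
  rw [Polynomial.mul_comp, Polynomial.comp_assoc, h1, Polynomial.pow_comp]
  simp only [Polynomial.mul_comp, Polynomial.add_comp, Polynomial.X_comp, Polynomial.C_comp]
  have h2 : (C (2 : ℚ) : ℚ[X]) = 2 := map_ofNat C 2
  rw [h2, ← mul_assoc, ← mul_pow]
  congr 2
  ring

/-- EV: the orders of the wrong parity vanish -/
theorem t_evE (ep : ℕ) (he : ep ≤ 1) (n h : ℕ) (Q : ℚ[X]) (i : ℕ) (hn : 1 ≤ n) (hi : (i + ep) % 2 = 1)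
    (hi1 : 1 ≤ i) : rhoP n h (numE ep n Q) i = 0 := by
  unfold rhoP
  have hc := ev_compE ep n hn Q
  have a1 : ∀ k ∈ sP n, k ≤ n - 1 ∧ n - 1 - k ∈ sP n := by
    intro k hk
    rw [Finset.mem_range] at hk ⊢
    omega
  have a2 : Even (∑ m ∈ sP n, mP h m) := by
    rw [Finset.sum_const, smul_eq_mul]
    exact (even_two_mul h).mul_left _
  rcases Nat.le_one_iff_eq_zero_or_eq_one.1 he with h0 | h0
  · subst h0
    rw [pow_zero, one_mul] at hc
    exact odd_vanish (sP n) (mP h) (numE 0 n Q) (n - 1) a1 (fun k _ => rfl) hc a2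
      (Nat.odd_iff.2 (by omega)) hi1
  · subst h0
    rw [pow_one, neg_one_mul] at hc
    exact even_vanish (sP n) (mP h) (numE 1 n Q) (n - 1) a1 (fun k _ => rfl) hc a2
      (Nat.even_iff.2 (by omega)) hi1

end Run7.h317.LV
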