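import Pool.Agent.Run7.h317.LV.StmR
import Pool.Agent.Run7.h317.LV.EV

/-!
# The sum over `u > M d` (adapted from `Pool/Agent/W165/OZ/DS.lean`, `RM.lean`)
-/

set_option autoImplicit false

open Polynomial Pool.Agent.H337R2 Filter Topology

namespace Run7.h317.LV

open Pool.Agent.W165.OZ

noncomputable section

lemma per_mul {M : ℕ} {f : ℕ → ℝ} (hf : ∀ u, f (u + M) = f u) (a u : ℕ) : f (u + M * a) = f u := by
  induction a with
  | zero => simp
  | succ a ih =>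
    have : u + M * (a + 1) = (u + M * a) + M := by ring
    rw [this, hf, ih]

lemma per_bdd {M : ℕ} (hM : 1 ≤ M) {f : ℕ → ℝ} (hf : ∀ u, f (u + M) = f u) :
    ∃ C : ℝ, 0 ≤ C ∧ ∀ u, |f u| ≤ C := by
  refine ⟨∑ u ∈ Finset.range M, |f u|, Finset.sum_nonneg fun _ _ => abs_nonneg _, fun u => ?_⟩
  have h1 : f u = f (u % M) := by
    conv_lhs => rw [← Nat.mod_add_div u M]
    exact per_mul hf _ _
  rw [h1]
  exact Finset.single_le_sum (f := fun u => |f u|) (fun _ _ => abs_nonneg _)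
    (Finset.mem_range.2 (Nat.mod_lt _ hM))

lemma summ_L {M : ℕ} (hM : 1 ≤ M) {f : ℕ → ℝ} (hf : ∀ u, f (u + M) = f u) {i : ℕ} (hi : 2 ≤ i) :
    Summable (fun n : ℕ => f (n + 1) / ((n : ℝ) + 1) ^ i) := by
  obtain ⟨C, hC, hb⟩ := per_bdd hM hf
  have h1 : Summable (fun n : ℕ => 1 / ((n : ℝ) + 1) ^ i) := by
    have h2 := (Real.summable_one_div_nat_pow (p := i)).2 (by omega)
    have h3 := (summable_nat_add_iff 1).2 h2
    refine h3.congr fun n => ?_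
    push_cast
    rfl
  refine Summable.of_norm_bounded (h1.mul_left C) fun n => ?_
  rw [norm_div, Real.norm_eq_abs, Real.norm_eq_abs, abs_of_pos (by positivity : (0 : ℝ) < ((n : ℝ) + 1) ^ i)]
  rw [mul_one_div]
  exact div_le_div_of_nonneg_right (hb _) (by positivity)

lemma alg_real (q : ℚ) : algebraMap ℚ ℝ q = (q : ℝ) := rfl

/-- the tail of the series, `i ≥ 2` -/
lemma ds_tailE {M : ℕ} (hM : 1 ≤ M) {f : ℕ → ℝ} (hf : ∀ u, f (u + M) = f u) {i : ℕ} (hi : 2 ≤ i) (m : ℕ) :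
    HasSum (fun u : ℕ => f (u + m + 1) * (1 / ((u : ℝ) + ((m : ℝ) + 1)) ^ i)) (Lr f i - hsE f i m) := by
  have h1 := (summ_L hM hf hi).hasSum
  have h2 := (hasSum_nat_add_iff' m).2 h1
  have e1 : ∑ l ∈ Finset.range m, f (l + 1) / ((l : ℝ) + 1) ^ i = hsE f i m := by
    unfold hsE
    refine Finset.sum_congr rfl fun l _ => ?_
    rw [alg_real]
    push_cast
    ring
  rw [e1] at h2
  refine h2.congr_fun ?_
  intro u
  have e2 : ((u + m : ℕ) : ℝ) + 1 = (u : ℝ) + ((m : ℝ) + 1) := by push_cast; ring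
  rw [e2]
  ring

/-- telescoping, `i = 1`, `M ∣ m` -/
lemma ds_telE {M : ℕ} (hM : 1 ≤ M) {f : ℕ → ℝ} (hf : ∀ u, f (u + M) = f u) (a : ℕ) :
    HasSum (fun u : ℕ => f (u + 1) * (1 / ((u : ℝ) + (((M * a : ℕ) : ℝ) + 1)) - 1 / ((u : ℝ) + 1)))
      (-(hsE f 1 (M * a))) := by
  obtain ⟨C, hC, hb⟩ := per_bdd hM hf
  set m := M * a with hm
  obtain ⟨g, hg⟩ : ∃ g : ℕ → ℝ, g = fun u => f (u + 1) * (1 / ((u : ℝ) + 1)) := ⟨_, rfl⟩
  have hterm : ∀ u : ℕ, f (u + 1) * (1 / ((u : ℝ) + ((m : ℝ) + 1)) - 1 / ((u : ℝ) + 1)) = g (u + m) - g u := by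
    intro u
    rw [hg]
    have e1 : f (u + m + 1) = f (u + 1) := by
      have : u + m + 1 = (u + 1) + M * a := by rw [hm]; ring
      rw [this, per_mul hf]
    have e2 : ((u + m : ℕ) : ℝ) + 1 = (u : ℝ) + ((m : ℝ) + 1) := by push_cast; ring
    simp only [e1, e2]
    ring
  have hs : Summable (fun u : ℕ => f (u + 1) * (1 / ((u : ℝ) + ((m : ℝ) + 1)) - 1 / ((u : ℝ) + 1))) := by
    have h1 : Summable (fun n : ℕ => 1 / ((n : ℝ) + 1) ^ 2) := by
      have h2 := (Real.summable_one_div_nat_pow (p := 2)).2 (by omega)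
      have h3 := (summable_nat_add_iff 1).2 h2
      refine h3.congr fun n => ?_
      push_cast
      rfl
    refine Summable.of_norm_bounded (h1.mul_left (C * m)) fun u => ?_
    have hu : (0 : ℝ) ≤ u := Nat.cast_nonneg u
    have hm0 : (0 : ℝ) ≤ m := Nat.cast_nonneg m
    have e1 : 1 / ((u : ℝ) + ((m : ℝ) + 1)) - 1 / ((u : ℝ) + 1) =
        -(m / (((u : ℝ) + ((m : ℝ) + 1)) * ((u : ℝ) + 1))) := by
      field_simp
      ring
    rw [e1, norm_mul, norm_neg, Real.norm_eq_abs, Real.norm_eq_abs,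
      abs_of_nonneg (by positivity : 0 ≤ (m : ℝ) / (((u : ℝ) + ((m : ℝ) + 1)) * ((u : ℝ) + 1)))]
    have h4 : (m : ℝ) / (((u : ℝ) + ((m : ℝ) + 1)) * ((u : ℝ) + 1)) ≤ m / ((u : ℝ) + 1) ^ 2 := by
      apply div_le_div_of_nonneg_left hm0 (by positivity)
      nlinarith
    calc |f (u + 1)| * ((m : ℝ) / (((u : ℝ) + ((m : ℝ) + 1)) * ((u : ℝ) + 1))) ≤
        C * (m / ((u : ℝ) + 1) ^ 2) := mul_le_mul (hb _) h4 (by positivity) hC
      _ = _ := by ring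
  rw [hs.hasSum_iff_tendsto_nat]
  have hpart : ∀ N : ℕ, ∑ u ∈ Finset.range N,
      f (u + 1) * (1 / ((u : ℝ) + ((m : ℝ) + 1)) - 1 / ((u : ℝ) + 1)) =
      ∑ l ∈ Finset.range m, g (N + l) - ∑ l ∈ Finset.range m, g l := by
    intro N
    rw [Finset.sum_congr rfl fun u _ => hterm u, Finset.sum_sub_distrib]
    have e1 : ∑ u ∈ Finset.range N, g (u + m) = ∑ x ∈ Finset.range (m + N), g x - ∑ l ∈ Finset.range m, g l := by
      rw [Finset.sum_range_add]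
      simp [add_comm]
    have e2 : ∑ x ∈ Finset.range (m + N), g x = ∑ u ∈ Finset.range N, g u + ∑ l ∈ Finset.range m, g (N + l) := by
      rw [add_comm, Finset.sum_range_add]
    rw [e1, e2]
    ring
  simp only [hpart]
  have hg0 : Tendsto g atTop (𝓝 0) := by
    have h1 : Tendsto (fun u : ℕ => C * (1 / ((u : ℝ) + 1))) atTop (𝓝 0) := by
      simpa using tendsto_one_div_add_atTop_nhds_zero_nat.const_mul C
    refine squeeze_zero_norm (fun u => ?_) h1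
    rw [hg, norm_mul, Real.norm_eq_abs, Real.norm_eq_abs,
      abs_of_nonneg (by positivity : (0 : ℝ) ≤ 1 / ((u : ℝ) + 1))]
    exact mul_le_mul_of_nonneg_right (hb _) (by positivity)
  have h2 : Tendsto (fun N : ℕ => ∑ l ∈ Finset.range m, g (N + l)) atTop (𝓝 0) := by
    have h3 : ∀ l ∈ Finset.range m, Tendsto (fun N : ℕ => g (N + l)) atTop (𝓝 0) :=
      fun l _ => hg0.comp (tendsto_add_atTop_nat l)
    simpa using tendsto_finset_sum _ h3
  have h3 : hsE f 1 m = ∑ l ∈ Finset.range m, g l := by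
    unfold hsE
    rw [hg]
    refine Finset.sum_congr rfl fun l _ => ?_
    rw [alg_real]
    push_cast
    ring
  rw [h3]
  simpa using h2.sub_const (∑ l ∈ Finset.range m, g l)

/-- DS: the sum over `u > M d` -/
theorem t_dsE (M : ℕ) (hM : 1 ≤ M) (f : ℕ → ℝ) (hf : ∀ u, f (u + M) = f u) (n h d : ℕ) (P : ℚ[X])
    (hn : 1 ≤ n) (hh : 1 ≤ h) (hd : 1 ≤ d) (hP : P.natDegree + 2 ≤ 2 * h * n) :
    HasSum (fun u : ℕ => f (u + M * d + 1) * (((P.eval (((u : ℚ) + (M * d : ℕ) + 1) / (M * d : ℕ)) /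
      (∏ k ∈ Finset.range n, (((u : ℚ) + (M * d : ℕ) + 1) / (M * d : ℕ) + (k : ℚ))) ^ (2 * h) : ℚ)) : ℝ))
    (∑ i ∈ Finset.Icc 1 (2 * h), (((rhoP n h P i * ((M * d : ℕ) : ℚ) ^ i : ℚ) : ℝ) *
        (if 2 ≤ i then Lr f i else 0) -
      ∑ k ∈ sP n, ((((M * d : ℕ) : ℚ) ^ i * pa (sP n) (mP h) P k i : ℚ) : ℝ) * hsE f i (M * d * (k + 1)))) := by
  have hD1 : 1 ≤ M * d := Nat.mul_pos hM hd
  have hD0 : (0 : ℝ) < ((M * d : ℕ) : ℝ) := by exact_mod_cast hD1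
  have hDq : (0 : ℚ) < ((M * d : ℕ) : ℚ) := by exact_mod_cast hD1
  obtain ⟨A, hA⟩ : ∃ A : ℕ → ℕ → ℚ, A = fun k i => pa (sP n) (mP h) P k i := ⟨_, rfl⟩
  have hA' : ∀ k i, pa (sP n) (mP h) P k i = A k i := fun k i => by rw [hA]
  have hper : ∀ k u : ℕ, f (u + M * d * (k + 1) + 1) = f (u + M * d + 1) := by
    intro k u
    have e1 : u + M * d * (k + 1) + 1 = (u + M * d + 1) + M * (d * k) := by ring
    rw [e1, per_mul hf]
  have hper1 : ∀ u : ℕ, f (u + M * d + 1) = f (u + 1) := by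
    intro u
    have e1 : u + M * d + 1 = (u + 1) + M * d := by ring
    rw [e1, per_mul hf]
  have hterm : ∀ u : ℕ, f (u + M * d + 1) * (((P.eval (((u : ℚ) + (M * d : ℕ) + 1) / (M * d : ℕ)) /
      (∏ k ∈ Finset.range n, (((u : ℚ) + (M * d : ℕ) + 1) / (M * d : ℕ) + (k : ℚ))) ^ (2 * h) : ℚ)) : ℝ) =
      ∑ i ∈ Finset.Icc 1 (2 * h), ∑ k ∈ sP n, (A k i : ℝ) * ((M * d : ℕ) : ℝ) ^ i *
        (f (u + M * d + 1) * (1 / ((u : ℝ) + (((M * d * (k + 1) : ℕ) : ℝ) + 1)) ^ i)) := by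
    intro u
    rw [t_pf n h P _ (by omega) (by intro k _; positivity)]
    rw [Finset.sum_comm, Rat.cast_sum, Finset.mul_sum]
    refine Finset.sum_congr rfl fun i _ => ?_
    rw [Rat.cast_sum, Finset.mul_sum]
    refine Finset.sum_congr rfl fun k _ => ?_
    rw [hA', Rat.cast_div, Rat.cast_pow, Rat.cast_add, Rat.cast_div, Rat.cast_add, Rat.cast_add,
      Rat.cast_natCast, Rat.cast_natCast, Rat.cast_one, Rat.cast_natCast]
    have e : ((u : ℝ) + ((M * d : ℕ) : ℝ) + 1) / ((M * d : ℕ) : ℝ) + k =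
        ((u : ℝ) + (((M * d * (k + 1) : ℕ) : ℝ) + 1)) / ((M * d : ℕ) : ℝ) := by
      rw [Nat.cast_mul (M * d) (k + 1)]
      push_cast at hD0 ⊢
      field_simp
      ring
    rw [e, div_pow]
    have h2 : (0 : ℝ) < (u : ℝ) + (((M * d * (k + 1) : ℕ) : ℝ) + 1) := by positivity
    generalize ((M * d : ℕ) : ℝ) = D at *
    field_simp
  have hres : ∑ k ∈ sP n, A k 1 = 0 := by
    rw [hA]
    refine residue_sum (sP n) (mP h) P ?_
    rw [QQ_natDegree]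
    simp only [mP, Finset.sum_const, Finset.card_range, smul_eq_mul]
    calc P.natDegree + 2 ≤ 2 * h * n := hP
      _ = n * (2 * h) := by ring
  have hresR : ∑ k ∈ sP n, (A k 1 : ℝ) = 0 := by exact_mod_cast congrArg (fun q : ℚ => (q : ℝ)) hres
  simp only [hterm]
  refine hasSum_sum fun i hi => ?_
  rw [Finset.mem_Icc] at hi
  unfold rhoP
  simp only [hA']
  rcases Nat.lt_or_ge i 2 with h2 | h2
  · have hi1 : i = 1 := by omega
    subst hi1
    rw [if_neg (by norm_num), mul_zero, zero_sub]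
    have h3 : HasSum (fun u : ℕ => ∑ k ∈ sP n, (A k 1 : ℝ) * ((M * d : ℕ) : ℝ) ^ 1 *
        (f (u + 1) * (1 / ((u : ℝ) + (((M * (d * (k + 1)) : ℕ) : ℝ) + 1)) - 1 / ((u : ℝ) + 1))))
        (∑ k ∈ sP n, (A k 1 : ℝ) * ((M * d : ℕ) : ℝ) ^ 1 * (-(hsE f 1 (M * (d * (k + 1)))))) :=
      hasSum_sum fun k _ => (ds_telE hM hf (d * (k + 1))).mul_left _
    have e1 : (∑ k ∈ sP n, (A k 1 : ℝ) * ((M * d : ℕ) : ℝ) ^ 1 * (-(hsE f 1 (M * (d * (k + 1)))))) =
        -∑ k ∈ sP n, ((((M * d : ℕ) : ℚ) ^ 1 * A k 1 : ℚ) : ℝ) * hsE f 1 (M * d * (k + 1)) := by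
      rw [← Finset.sum_neg_distrib]
      refine Finset.sum_congr rfl fun k _ => ?_
      rw [mul_assoc M d (k + 1)]
      push_cast
      ring
    rw [← e1]
    refine h3.congr_fun ?_
    intro u
    simp only [mul_sub, Finset.sum_sub_distrib, pow_one, hper1, mul_assoc M d]
    have e2 : ∑ k ∈ sP n, (A k 1 : ℝ) * (((M * d : ℕ) : ℝ)) * (f (u + 1) * (1 / ((u : ℝ) + 1))) = 0 := by
      simp only [mul_assoc]
      rw [← Finset.sum_mul, hresR, zero_mul]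
    rw [e2, sub_zero]
  · rw [if_pos h2]
    have h3 : HasSum (fun u : ℕ => ∑ k ∈ sP n, (A k i : ℝ) * ((M * d : ℕ) : ℝ) ^ i *
        (f (u + M * d * (k + 1) + 1) * (1 / ((u : ℝ) + (((M * d * (k + 1) : ℕ) : ℝ) + 1)) ^ i)))
        (∑ k ∈ sP n, (A k i : ℝ) * ((M * d : ℕ) : ℝ) ^ i * (Lr f i - hsE f i (M * d * (k + 1)))) :=
      hasSum_sum fun k _ => (ds_tailE hM hf h2 (M * d * (k + 1))).mul_left _
    have e1 : (∑ k ∈ sP n, (A k i : ℝ) * ((M * d : ℕ) : ℝ) ^ i * (Lr f i - hsE f i (M * d * (k + 1)))) =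
        (((∑ k ∈ sP n, A k i) * ((M * d : ℕ) : ℚ) ^ i : ℚ) : ℝ) * Lr f i -
          ∑ k ∈ sP n, ((((M * d : ℕ) : ℚ) ^ i * A k i : ℚ) : ℝ) * hsE f i (M * d * (k + 1)) := by
      push_cast
      rw [Finset.sum_mul, Finset.sum_mul, ← Finset.sum_sub_distrib]
      refine Finset.sum_congr rfl fun k _ => ?_
      ring
    rw [← e1]
    refine h3.congr_fun ?_
    intro u
    simp only [hper]

lemma numE_natDegree (ep n k : ℕ) : (numE ep n (X ^ k)).natDegree ≤ ep + 2 * k := by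
  unfold numE
  refine natDegree_mul_le.trans ?_
  have h1 : ((C (2 : ℚ) * X + C ((n : ℚ) - 1)) ^ ep).natDegree ≤ ep := by
    refine natDegree_pow_le.trans ?_
    have : (C (2 : ℚ) * X + C ((n : ℚ) - 1)).natDegree ≤ 1 := natDegree_linear_le
    calc ep * _ ≤ ep * 1 := Nat.mul_le_mul_left _ this
      _ = ep := mul_one _
  have h2 : ((X ^ k : ℚ[X]).comp (yp n)).natDegree ≤ 2 * k := by
    rw [Polynomial.X_pow_comp]
    refine natDegree_pow_le.trans ?_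
    have h3 : (yp n).natDegree ≤ 2 := by
      unfold yp
      refine natDegree_mul_le.trans ?_
      have h4 : (X : ℚ[X]).natDegree ≤ 1 := natDegree_X_le
      have h5 : ((X : ℚ[X]) + C ((n : ℚ) - 1)).natDegree ≤ 1 := (natDegree_X_add_C _).le
      omega
    calc k * (yp n).natDegree ≤ k * 2 := Nat.mul_le_mul_left _ h3
      _ = 2 * k := by ring
  omega

lemma numE_eval_div (ep n h k : ℕ) (t : ℚ) :
    ((((numE ep n (X ^ k)).eval t / (∏ j ∈ Finset.range n, (t + (j : ℚ))) ^ (2 * h) : ℚ)) : ℝ) =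
    RvE ep n h (t : ℝ) * yv n (t : ℝ) ^ k := by
  unfold numE RvE yv yp
  simp only [eval_mul, eval_add, eval_C, eval_X, eval_comp, eval_pow]
  push_cast
  ring

/-- RM: the real moments -/
theorem t_rmE (ep : ℕ) (he : ep ≤ 1) (M : ℕ) (hM : 1 ≤ M) (f : ℕ → ℝ) (hf : ∀ u, f (u + M) = f u)
    (n h B : ℕ) (w : ℕ → ℤ) (hn : 2 ≤ n) (hh : 1 ≤ h) (k : ℕ) (hk : k + 2 ≤ h * n) :
    (∀ d ∈ Finset.Icc 1 B, Summable (fun u : ℕ =>
      RvE ep n h (((u : ℝ) + (M * d : ℕ) + 1) / (M * d : ℕ)) *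
        yv n (((u : ℝ) + (M * d : ℕ) + 1) / (M * d : ℕ)) ^ k)) ∧
    moE ep n h M B w (zzE ep f) f k = ∑ d ∈ Finset.Icc 1 B, (w d : ℝ) * ∑' u : ℕ, f (u + M * d + 1) *
      (RvE ep n h (((u : ℝ) + (M * d : ℕ) + 1) / (M * d : ℕ)) *
        yv n (((u : ℝ) + (M * d : ℕ) + 1) / (M * d : ℕ)) ^ k) := by
  have hdeg : (numE ep n (X ^ k)).natDegree + 2 ≤ 2 * h * n := by
    have := numE_natDegree ep n k
    have h3 : 2 * h * n = 2 * (h * n) := by ring
    omega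
  set P := numE ep n (X ^ k) with hP
  have hterm : ∀ d u : ℕ, (((P.eval (((u : ℚ) + (M * d : ℕ) + 1) / (M * d : ℕ)) /
      (∏ k ∈ Finset.range n, (((u : ℚ) + (M * d : ℕ) + 1) / (M * d : ℕ) + (k : ℚ))) ^ (2 * h) : ℚ)) : ℝ) =
      RvE ep n h (((u : ℝ) + (M * d : ℕ) + 1) / (M * d : ℕ)) *
        yv n (((u : ℝ) + (M * d : ℕ) + 1) / (M * d : ℕ)) ^ k := by
    intro d u
    rw [hP, numE_eval_div]
    push_cast
    rfl
  have hS : ∀ g : ℕ → ℝ, (∀ u, g (u + M) = g u) → ∀ d ∈ Finset.Icc 1 B, HasSum (fun u : ℕ =>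
      g (u + M * d + 1) * (RvE ep n h (((u : ℝ) + (M * d : ℕ) + 1) / (M * d : ℕ)) *
        yv n (((u : ℝ) + (M * d : ℕ) + 1) / (M * d : ℕ)) ^ k))
      (∑ i ∈ Finset.Icc 1 (2 * h), (((rhoP n h P i * ((M * d : ℕ) : ℚ) ^ i : ℚ) : ℝ) *
        (if 2 ≤ i then Lr g i else 0) -
      ∑ k ∈ sP n, ((((M * d : ℕ) : ℚ) ^ i * pa (sP n) (mP h) P k i : ℚ) : ℝ) *
        hsE g i (M * d * (k + 1)))) := by
    intro g hg d hd
    have h3 := t_dsE M hM g hg n h d P (by omega) hh (Finset.mem_Icc.1 hd).1 hdeg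
    refine h3.congr_fun ?_
    intro u
    rw [hterm]
  refine ⟨fun d hd => ?_, ?_⟩
  · have h1 := (hS (fun _ => 1) (fun _ => rfl) d hd).summable
    simpa using h1
  have h4 : ∑ d ∈ Finset.Icc 1 B, (w d : ℝ) * ∑' u : ℕ, f (u + M * d + 1) *
      (RvE ep n h (((u : ℝ) + (M * d : ℕ) + 1) / (M * d : ℕ)) *
        yv n (((u : ℝ) + (M * d : ℕ) + 1) / (M * d : ℕ)) ^ k) =
      ∑ d ∈ Finset.Icc 1 B, (w d : ℝ) * ∑ i ∈ Finset.Icc 1 (2 * h),
        (((rhoP n h P i * ((M * d : ℕ) : ℚ) ^ i : ℚ) : ℝ) * (if 2 ≤ i then Lr f i else 0) -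
      ∑ k ∈ sP n, ((((M * d : ℕ) : ℚ) ^ i * pa (sP n) (mP h) P k i : ℚ) : ℝ) *
        hsE f i (M * d * (k + 1))) := by
    apply Finset.sum_congr rfl
    intro d hd
    rw [(hS f hf d hd).tsum_eq]
  rw [h4]
  unfold moE LaE
  rw [← hP]
  simp_rw [Finset.mul_sum]
  rw [Finset.sum_comm]
  apply Finset.sum_congr rfl
  intro i hi
  obtain ⟨hi1, hi2⟩ := Finset.mem_Icc.1 hi
  have h5 : ((rhoP n h P i : ℚ) : ℝ) * zzE ep f i =
      ((rhoP n h P i : ℚ) : ℝ) * (if 2 ≤ i then Lr f i else 0) := by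
    by_cases h6 : (i + ep) % 2 = 0
    · unfold zzE
      by_cases h7 : 2 ≤ i
      · rw [if_pos ⟨h7, h6⟩, if_pos h7]
      · rw [if_neg (fun h => h7 h.1), if_neg h7]
    · rw [hP, t_evE ep he n h (X ^ k) i (by omega) (by omega) hi1]
      simp
  have h6 : algebraMap ℚ ℝ (rhoP n h P i * (WWE M B w i : ℚ)) * zzE ep f i =
      ∑ d ∈ Finset.Icc 1 B, (w d : ℝ) * (((rhoP n h P i * ((M * d : ℕ) : ℚ) ^ i : ℚ) : ℝ) *
        (if 2 ≤ i then Lr f i else 0)) := by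
    rw [alg_real]
    unfold WWE
    rw [Rat.cast_mul, mul_right_comm, h5, Rat.cast_intCast, Int.cast_sum, Finset.mul_sum]
    apply Finset.sum_congr rfl
    intro d _
    push_cast
    ring
  have h7 : betE n h M B w f P i = ∑ d ∈ Finset.Icc 1 B, (w d : ℝ) *
      ∑ k ∈ sP n, ((((M * d : ℕ) : ℚ) ^ i * pa (sP n) (mP h) P k i : ℚ) : ℝ) *
        hsE f i (M * d * (k + 1)) := by
    unfold betE
    apply Finset.sum_congr rfl
    intro d _
    rw [Finset.mul_sum]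
    apply Finset.sum_congr rfl
    intro k _
    rw [alg_real]
    push_cast
    ring
  rw [h6, h7, ← Finset.sum_sub_distrib]
  apply Finset.sum_congr rfl
  intro d _
  rw [mul_sub]

end

end Run7.h317.LV
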