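import Pool.Agent.W165.OZ.Fin2

/-!
# Values of periodic Dirichlet series outside number fields: definitions (helper317)

The construction of `Pool/Agent/W165/OZ/` for `L(i, f) = ∑ f(n) / n^i` with a function `f` of period `M` in the
place of `ζ(i)`. The functional is
`Q ↦ ∑_{d ≤ B} w_d ∑_{u > M d} f(u) R(u/(M d)) Q(y(u/(M d)))`,
`R(t) = (2t+n-1)^e / (t(t+1)...(t+n-1))^(2h)` with `e = 1` for the odd and `e = 0` for the even `i`.
-/

open Polynomial Pool.Agent.H337R2 Filter Topology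

namespace Run7.h317.LV

open Pool.Agent.W165.OZ

noncomputable section

/-- the numerator `(2t + n - 1)^e Q(y(t))` -/
def numE (e n : ℕ) (Q : ℚ[X]) : ℚ[X] := (C 2 * X + C ((n : ℚ) - 1)) ^ e * Q.comp (yp n)

/-- `R(t)` for real `t` -/
def RvE (e n h : ℕ) (t : ℝ) : ℝ :=
  (2 * t + ((n : ℝ) - 1)) ^ e / (∏ k ∈ Finset.range n, (t + (k : ℝ))) ^ (2 * h)

/-- `μ k = ∑_i ω_i R(τ_i) y(τ_i)^k` for all `k ≤ h n - 2` -/
def MomE (e n h : ℕ) (τ ω : ℕ → ℝ) (μ : ℕ → ℝ) : Prop :=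
  ∀ k, k + 2 ≤ h * n → HasSum (fun i => ω i * (RvE e n h (τ i) * yv n (τ i) ^ k)) (μ k)

/-- twisted harmonic sums `∑_{v ≤ m} f(v) / v^i` -/
def hsE {A : Type*} [CommRing A] [Algebra ℚ A] (f : ℕ → A) (i m : ℕ) : A :=
  ∑ l ∈ Finset.range m, algebraMap ℚ A (1 / ((l : ℚ) + 1) ^ i) * f (l + 1)

/-- the weight `∑_d w_d (M d)^i` -/
def WWE (M B : ℕ) (w : ℕ → ℤ) (i : ℕ) : ℤ := ∑ d ∈ Finset.Icc 1 B, w d * ((M * d : ℕ) : ℤ) ^ i

/-- the part belonging to the poles of order `i` -/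
def betE {A : Type*} [CommRing A] [Algebra ℚ A] (n h M B : ℕ) (w : ℕ → ℤ) (f : ℕ → A) (P : ℚ[X]) (i : ℕ) : A :=
  ∑ d ∈ Finset.Icc 1 B, ∑ k ∈ sP n,
    algebraMap ℚ A ((w d : ℚ) * ((M * d : ℕ) : ℚ) ^ i * pa (sP n) (mP h) P k i) * hsE f i (M * d * (k + 1))

/-- the linear form, with `z i` in the place of `L(i, f)` -/
def LaE {A : Type*} [CommRing A] [Algebra ℚ A] (n h M B : ℕ) (w : ℕ → ℤ) (z f : ℕ → A) (P : ℚ[X]) : A :=
  ∑ i ∈ Finset.Icc 1 (2 * h),
    (algebraMap ℚ A (rhoP n h P i * WWE M B w i) * z i - betE n h M B w f P i)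

/-- the moments -/
def moE {A : Type*} [CommRing A] [Algebra ℚ A] (e n h M B : ℕ) (w : ℕ → ℤ) (z f : ℕ → A) (k : ℕ) : A :=
  LaE n h M B w z f (numE e n (X ^ k))

/-- the value of the Dirichlet series -/
def Lr (f : ℕ → ℝ) (i : ℕ) : ℝ := ∑' n : ℕ, f (n + 1) / ((n : ℝ) + 1) ^ i

/-- the values which are used, `0` where they are not needed -/
def zzE (e : ℕ) (f : ℕ → ℝ) (i : ℕ) : ℝ := if 2 ≤ i ∧ (i + e) % 2 = 0 then Lr f i else 0

/-- the number of singular triples for the prime `p` -/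
def SpE (n M B p : ℕ) : ℕ := ∑ d ∈ Finset.Icc 1 B, ∑ k ∈ Finset.range n, M * d * (k + 1) / p

/-- the contribution of the primes `> n` -/
def PPE (n h M B : ℕ) : ℕ :=
  ∏ p ∈ (Finset.range (M * B * n + 1)).filter (fun p => Nat.Prime p ∧ n < p), p ^ (2 * h * SpE n M B p)

/-! ### Linearity -/

lemma numE_add (e n : ℕ) (P Q : ℚ[X]) : numE e n (P + Q) = numE e n P + numE e n Q := by
  unfold numE
  rw [Polynomial.add_comp, mul_add]

lemma numE_C_mul (e n : ℕ) (c : ℚ) (Q : ℚ[X]) : numE e n (C c * Q) = C c * numE e n Q := by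
  unfold numE
  rw [Polynomial.mul_comp, Polynomial.C_comp]
  ring

lemma betE_add {A : Type*} [CommRing A] [Algebra ℚ A] (n h M B : ℕ) (w : ℕ → ℤ) (f : ℕ → A) (P Q : ℚ[X])
    (i : ℕ) : betE n h M B w f (P + Q) i = betE n h M B w f P i + betE n h M B w f Q i := by
  unfold betE
  rw [← Finset.sum_add_distrib]
  apply Finset.sum_congr rfl
  intro d _
  rw [← Finset.sum_add_distrib]
  apply Finset.sum_congr rfl
  intro k _
  rw [pa_add, mul_add, map_add, add_mul]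

lemma betE_C_mul {A : Type*} [CommRing A] [Algebra ℚ A] (n h M B : ℕ) (w : ℕ → ℤ) (f : ℕ → A) (c : ℚ)
    (P : ℚ[X]) (i : ℕ) : betE n h M B w f (C c * P) i = algebraMap ℚ A c * betE n h M B w f P i := by
  unfold betE
  rw [Finset.mul_sum]
  apply Finset.sum_congr rfl
  intro d _
  rw [Finset.mul_sum]
  apply Finset.sum_congr rfl
  intro k _
  rw [pa_C_mul]
  simp only [map_mul]
  ring

/-- the linear form as a linear map of the polynomial `Q(y)` -/
def LaLE {A : Type*} [CommRing A] [Algebra ℚ A] (e n h M B : ℕ) (w : ℕ → ℤ) (z f : ℕ → A) :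
    ℚ[X] →ₗ[ℚ] A where
  toFun Q := LaE n h M B w z f (numE e n Q)
  map_add' P Q := by
    unfold LaE
    rw [numE_add, ← Finset.sum_add_distrib]
    apply Finset.sum_congr rfl
    intro i _
    rw [rhoP_add, betE_add, add_mul, map_add]
    ring
  map_smul' c P := by
    rw [Polynomial.smul_eq_C_mul, numE_C_mul, RingHom.id_apply]
    unfold LaE
    rw [Finset.smul_sum]
    apply Finset.sum_congr rfl
    intro i _
    rw [rhoP_C_mul, betE_C_mul, Algebra.smul_def, mul_assoc c, map_mul]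
    ring

lemma moE_eq {A : Type*} [CommRing A] [Algebra ℚ A] (e n h M B : ℕ) (w : ℕ → ℤ) (z f : ℕ → A) (k : ℕ) :
    moE e n h M B w z f k = LaLE e n h M B w z f (X ^ k) := rfl

lemma WWE_eq (M B : ℕ) (w : ℕ → ℤ) (i : ℕ) : WWE M B w i = (M : ℤ) ^ i * WW B w i := by
  unfold WWE WW
  rw [Finset.mul_sum]
  refine Finset.sum_congr rfl fun d _ => ?_
  push_cast
  ring

end

end Run7.h317.LV
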