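import Pool.Agent.Run7.h317.LV.Defs

/-!
# The choice of the parameters (adapted from `Pool/Agent/W165/OZ/FJ.lean`, helper612)
-/

set_option autoImplicit false

open Filter

namespace Run7.h317.LV

theorem t_fjE (C1 : ℝ) (hC1 : 0 < C1) : ∃ c : ℝ, 0 < c ∧ ∃ s0 : ℕ, ∀ s ≥ s0, ∀ D M : ℕ, 1 ≤ D → 1 ≤ M →
    (D : ℝ) ≤ c * Real.log (Real.log s) →
    (D : ℝ) * M ≤ c * (s * Real.log (Real.log s) / Real.log s) → ∃ h B : ℕ,
    2 * h ≤ s ∧ 1 ≤ B ∧ 16 * (M * (B * (B + 1))) ≤ h ∧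
    c * Real.sqrt (s * Real.log (Real.log s) / (D * M * Real.log s)) ≤ B ∧
    C1 * D * (1 + (M * ((B : ℝ) * (B + 1)) / h) * (1 + Real.log ((M * B : ℕ) : ℝ))) <
      (1 / 16) * Real.log ((h : ℝ) / (M * ((B : ℝ) * (B + 1)))) := by
  obtain ⟨c, hc0, hc1, hc2⟩ : ∃ c : ℝ, 0 < c ∧ c ≤ 1 / 64 ∧ C1 * c ≤ 1 / 128 := by
    refine ⟨min (1 / 64) (1 / (128 * C1)), by positivity, min_le_left _ _, ?_⟩
    calc C1 * min (1 / 64) (1 / (128 * C1)) ≤ C1 * (1 / (128 * C1)) :=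
          mul_le_mul_of_nonneg_left (min_le_right _ _) hC1.le
      _ = 1 / 128 := by field_simp
  have e2 : ∀ᶠ s : ℕ in atTop, 3 ≤ Real.log s :=
    (Real.tendsto_log_atTop.comp tendsto_natCast_atTop_atTop).eventually_ge_atTop 3
  obtain ⟨s0, hs0⟩ := eventually_atTop.1 e2
  have hcc : c ^ 2 ≤ c := by nlinarith
  refine ⟨c ^ 2, by positivity, s0, fun s hs D M hD hM hDL0 hDM => ?_⟩
  have h2 := hs0 s hs
  obtain ⟨L1, hL1⟩ : ∃ L, L = Real.log s := ⟨_, rfl⟩
  obtain ⟨L2, hL2⟩ : ∃ L, L = Real.log L1 := ⟨_, rfl⟩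
  rw [← hL1] at h2 hDL0 hDM ⊢
  rw [← hL2] at hDL0 hDM ⊢
  have hs2 : (4 : ℝ) ≤ s := by
    by_contra hcon
    push Not at hcon
    have hsp : (0 : ℝ) < s := by
      rcases Nat.eq_zero_or_pos s with h | h
      · subst h
        simp at hL1
        linarith
      · exact_mod_cast h
    have := Real.log_le_sub_one_of_pos hsp
    rw [← hL1] at this
    linarith
  have hs4 : 4 ≤ s := by exact_mod_cast hs2
  have hL2p : 0 < L2 := by
    rw [hL2]
    exact Real.log_pos (by linarith)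
  have hDL : (D : ℝ) ≤ c * L2 := hDL0.trans (mul_le_mul_of_nonneg_right hcc hL2p.le)
  have hL21 : L2 ≤ L1 := by
    rw [hL2]
    have := Real.log_le_sub_one_of_pos (show 0 < L1 by linarith)
    linarith
  have hD1 : (1 : ℝ) ≤ D := by exact_mod_cast hD
  have hM1 : (1 : ℝ) ≤ M := by exact_mod_cast hM
  have hL1p : 0 < L1 := by linarith
  obtain ⟨x, hx⟩ : ∃ x, x = (s : ℝ) * L2 / (D * M * L1) := ⟨_, rfl⟩
  rw [← hx]
  have hxp : 0 < x := by
    rw [hx]
    positivity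
  have hx1 : (1 / c) ^ 2 ≤ x := by
    rw [hx, le_div_iff₀ (by positivity)]
    have h3 : D * M * L1 ≤ c ^ 2 * (s * L2) := by
      have h4 := mul_le_mul_of_nonneg_right hDM hL1p.le
      calc (D : ℝ) * M * L1 ≤ c ^ 2 * (s * L2 / L1) * L1 := h4
        _ = c ^ 2 * (s * L2) := by field_simp
    calc (1 / c) ^ 2 * (D * M * L1) ≤ (1 / c) ^ 2 * (c ^ 2 * (s * L2)) :=
          mul_le_mul_of_nonneg_left h3 (by positivity)
      _ = s * L2 := by field_simp
  have hsq : 1 / c ≤ Real.sqrt x := Real.le_sqrt_of_sq_le hx1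
  have hcs : 1 ≤ c * Real.sqrt x := by
    calc 1 = c * (1 / c) := by field_simp
      _ ≤ _ := mul_le_mul_of_nonneg_left hsq hc0.le
  obtain ⟨B, hB⟩ : ∃ B, B = ⌈c * Real.sqrt x⌉₊ := ⟨_, rfl⟩
  have hB1 : c * Real.sqrt x ≤ B := by
    rw [hB]
    exact Nat.le_ceil _
  have hB2 : (B : ℝ) ≤ 2 * (c * Real.sqrt x) := by
    have := (Nat.ceil_lt_add_one (show 0 ≤ c * Real.sqrt x by positivity)).le
    rw [← hB] at this
    linarith
  have hB3 : (1 : ℝ) ≤ B := hcs.trans hB1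
  have hB4 : (B : ℝ) * (B + 1) ≤ 8 * c ^ 2 * x := by
    have h3 : (B : ℝ) * (B + 1) ≤ 2 * (B : ℝ) ^ 2 := by nlinarith
    have h4 : (B : ℝ) ^ 2 ≤ (2 * (c * Real.sqrt x)) ^ 2 :=
      pow_le_pow_left₀ (by linarith) hB2 2
    have h5 : (2 * (c * Real.sqrt x)) ^ 2 = 4 * c ^ 2 * x := by
      rw [mul_pow, mul_pow, Real.sq_sqrt hxp.le]
      ring
    linarith
  obtain ⟨h, hh⟩ : ∃ h, h = s / 2 := ⟨_, rfl⟩
  have hh1 : 2 * h ≤ s := by omega
  have hh2 : (s : ℝ) / 4 ≤ h := by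
    have h3 : s ≤ 4 * h := by omega
    have h4 : (s : ℝ) ≤ 4 * h := by exact_mod_cast h3
    linarith
  have hhp : (0 : ℝ) < h := by linarith
  -- the quotient
  have hy : M * ((B : ℝ) * (B + 1)) / h ≤ 32 * c ^ 2 * L2 / (D * L1) := by
    rw [div_le_div_iff₀ hhp (by positivity)]
    have h3 : (8 * c ^ 2 * x) * (D * M * L1) = 8 * c ^ 2 * (s * L2) := by
      rw [hx]
      field_simp
    calc M * ((B : ℝ) * (B + 1)) * (D * L1) = ((B : ℝ) * (B + 1)) * (D * M * L1) := by ring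
      _ ≤ (8 * c ^ 2 * x) * (D * M * L1) :=
          mul_le_mul_of_nonneg_right hB4 (by positivity)
      _ = 32 * c ^ 2 * L2 * (s / 4) := by rw [h3]; ring
      _ ≤ 32 * c ^ 2 * L2 * h := mul_le_mul_of_nonneg_left hh2 (by positivity)
  have hc32 : 512 * c ^ 2 ≤ 1 := by nlinarith
  have hy2 : 32 * c ^ 2 * L2 / (D * L1) ≤ 1 / 16 := by
    rw [div_le_div_iff₀ (by positivity) (by norm_num)]
    have h3 : 1 * L2 ≤ D * L1 := mul_le_mul hD1 hL21 hL2p.le (by linarith)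
    nlinarith [mul_le_mul_of_nonneg_right hc32 hL2p.le]
  have hyp : 0 < M * ((B : ℝ) * (B + 1)) / h := by positivity
  have h16 : 16 * (M * (B * (B + 1))) ≤ h := by
    have h3 := hy.trans hy2
    rw [div_le_iff₀ hhp] at h3
    have h4 : (16 : ℝ) * (M * (B * (B + 1))) ≤ h := by linarith
    exact_mod_cast h4
  have hBs : ((M * B : ℕ) : ℝ) ≤ s := by
    have h3 : M * B ≤ M * (B * (B + 1)) := Nat.mul_le_mul_left M (Nat.le_mul_of_pos_right B (by omega))
    have h4 : M * B ≤ s := by omega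
    exact_mod_cast h4
  have hMB1 : (1 : ℝ) ≤ ((M * B : ℕ) : ℝ) := by
    push_cast
    nlinarith
  have hlB : 1 + Real.log ((M * B : ℕ) : ℝ) ≤ 2 * L1 := by
    have h3 := Real.log_le_log (by linarith) hBs
    rw [← hL1] at h3
    linarith
  have hlB0 : 0 ≤ 1 + Real.log ((M * B : ℕ) : ℝ) := by
    have := Real.log_nonneg hMB1
    linarith
  refine ⟨h, B, hh1, by exact_mod_cast hB3, h16,
    le_trans (mul_le_mul_of_nonneg_right hcc (Real.sqrt_nonneg _)) hB1, ?_⟩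
  have hleft : C1 * D * (1 + (M * ((B : ℝ) * (B + 1)) / h) * (1 + Real.log ((M * B : ℕ) : ℝ))) ≤
      L2 / 64 := by
    have h3 : (M * ((B : ℝ) * (B + 1)) / h) * (1 + Real.log ((M * B : ℕ) : ℝ)) ≤
        (32 * c ^ 2 * L2 / (D * L1)) * (2 * L1) :=
      mul_le_mul hy hlB hlB0 (by positivity)
    calc C1 * D * (1 + (M * ((B : ℝ) * (B + 1)) / h) * (1 + Real.log ((M * B : ℕ) : ℝ))) ≤
          C1 * D * (1 + (32 * c ^ 2 * L2 / (D * L1)) * (2 * L1)) :=
          mul_le_mul_of_nonneg_left (by linarith) (by positivity)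
      _ = C1 * D + 64 * (C1 * c) * c * L2 := by field_simp; ring
      _ ≤ C1 * (c * L2) + 64 * (C1 * c) * c * L2 := by
          have := mul_le_mul_of_nonneg_left hDL hC1.le
          linarith
      _ = (C1 * c) * (1 + 64 * c) * L2 := by ring
      _ ≤ (1 / 128) * 2 * L2 := by
          apply mul_le_mul_of_nonneg_right _ hL2p.le
          exact mul_le_mul hc2 (by linarith) (by positivity) (by norm_num)
      _ = L2 / 64 := by ring
  have hright : L2 / 32 ≤ (1 / 16) * Real.log ((h : ℝ) / (M * ((B : ℝ) * (B + 1)))) := by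
    have h3 : (h : ℝ) / (M * ((B : ℝ) * (B + 1))) = (M * ((B : ℝ) * (B + 1)) / h)⁻¹ := by
      rw [inv_div]
    have h4 : L1 / L2 ≤ (h : ℝ) / (M * ((B : ℝ) * (B + 1))) := by
      rw [h3]
      have h5 : M * ((B : ℝ) * (B + 1)) / h ≤ L2 / L1 := by
        refine hy.trans ?_
        rw [div_le_div_iff₀ (by positivity) hL1p]
        have h6 : 32 * c ^ 2 ≤ D := by linarith
        have h7 : 32 * c ^ 2 * (L2 * L1) ≤ D * (L2 * L1) :=
          mul_le_mul_of_nonneg_right h6 (by positivity)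
        linarith
      have h6 := inv_anti₀ hyp h5
      rwa [inv_div] at h6
    have h5 := Real.log_le_log (by positivity) h4
    rw [Real.log_div hL1p.ne' hL2p.ne', ← hL2] at h5
    have h6 : Real.log L2 ≤ L2 / 2 := by
      have h7 := Real.log_le_sub_one_of_pos (show 0 < L2 / 2 by positivity)
      rw [Real.log_div hL2p.ne' (by norm_num)] at h7
      have h8 := Real.log_two_lt_d9
      linarith
    linarith
  linarith

end Run7.h317.LV
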