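import Pool.Agent.Run7.h317.LV.MB
import Pool.Agent.Run7.h317.LV.FJ

/-!
# Values of periodic Dirichlet series outside number fields: assembly
-/

open Filter Topology

namespace Run7.h317.LV

open Pool.Agent.W165.OZ

/-- a common denominator for the values of a periodic function -/
theorem fin_den (K : Type) [Field K] [Algebra ℚ K] [FiniteDimensional ℚ K] (M : ℕ) (hM : 1 ≤ M)
    (f : ℕ → K) (hfp : ∀ u, f (u + M) = f u) :
    ∃ b : ℕ, 1 ≤ b ∧ ∀ v, IsIntegral ℤ ((b : K) * f v) := by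
  choose a ha1 ha2 using fun v => mb_int (f v)
  have hmod : ∀ v, f v = f (v % M) := by
    intro v
    have h1 : ∀ k u, f (u + k * M) = f u := by
      intro k
      induction k with
      | zero => intro u; simp
      | succ k ih =>
        intro u
        have : u + (k + 1) * M = (u + k * M) + M := by ring
        rw [this, hfp, ih]
    conv_lhs => rw [← Nat.mod_add_div v M, mul_comm M (v / M)]
    exact h1 _ _
  refine ⟨∏ u ∈ Finset.range M, a u, Finset.one_le_prod' fun u _ => ha1 u, fun v => ?_⟩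
  rw [hmod v]
  have hv : v % M ∈ Finset.range M := Finset.mem_range.2 (Nat.mod_lt _ hM)
  rw [← Finset.mul_prod_erase _ _ hv]
  push_cast
  have e : (a (v % M) : K) * (∏ x ∈ (Finset.range M).erase (v % M), (a x : K)) * f (v % M) =
      (∏ x ∈ (Finset.range M).erase (v % M), (a x : K)) * ((a (v % M) : K) * f (v % M)) := by ring
  rw [e]
  refine IsIntegral.mul ?_ (ha2 _)
  refine IsIntegral.prod _ fun x _ => ?_
  exact_mod_cast isIntegral_algebraMap (R := ℤ) (A := K) (x := (a x : ℤ))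

theorem fin_summable (M : ℕ) (hM : 1 ≤ M) (f : ℕ → ℂ) (hfp : ∀ u, f (u + M) = f u) (i : ℕ)
    (hi : 2 ≤ i) : Summable fun n : ℕ => f (n + 1) / ((n : ℂ) + 1) ^ i := by
  have hmod : ∀ v, f v = f (v % M) := by
    intro v
    have h1 : ∀ k u, f (u + k * M) = f u := by
      intro k
      induction k with
      | zero => intro u; simp
      | succ k ih =>
        intro u
        have : u + (k + 1) * M = (u + k * M) + M := by ring
        rw [this, hfp, ih]
    conv_lhs => rw [← Nat.mod_add_div v M, mul_comm M (v / M)]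
    exact h1 _ _
  have hb : ∀ v, ‖f v‖ ≤ ∑ u ∈ Finset.range M, ‖f u‖ := by
    intro v
    rw [hmod v]
    exact Finset.single_le_sum (f := fun u => ‖f u‖) (fun u _ => norm_nonneg _)
      (Finset.mem_range.2 (Nat.mod_lt _ hM))
  have h1 : Summable fun n : ℕ => (∑ u ∈ Finset.range M, ‖f u‖) * (1 / ((n : ℝ) + 1) ^ i) := by
    have := (Real.summable_one_div_nat_pow (p := i)).2 (by omega)
    have h2 := (summable_nat_add_iff 1).2 this
    refine Summable.mul_left _ ?_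
    refine h2.congr fun n => ?_
    push_cast
    rfl
  refine Summable.of_norm_bounded h1 fun n => ?_
  rw [norm_div, norm_pow]
  have e : ‖(n : ℂ) + 1‖ = (n : ℝ) + 1 := by
    have : ((n : ℂ) + 1) = (((n : ℝ) + 1 : ℝ) : ℂ) := by push_cast; rfl
    rw [this, Complex.norm_real, Real.norm_of_nonneg (by positivity)]
  rw [e, div_eq_mul_one_div]
  exact mul_le_mul_of_nonneg_right (hb _) (by positivity)

/-- **Values of periodic Dirichlet series outside number fields.** -/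
theorem z_final : ∃ c : ℝ, 0 < c ∧ ∃ s0 : ℕ, ∀ s ≥ s0, ∀ K : IntermediateField ℚ ℂ,
    FiniteDimensional ℚ K → (∀ z ∈ K, (starRingEnd ℂ) z ∈ K) → ∀ M : ℕ, 1 ≤ M →
    (Module.finrank ℚ K : ℝ) ≤ c * Real.log (Real.log s) →
    (Module.finrank ℚ K : ℝ) * M ≤ c * (s * Real.log (Real.log s) / Real.log s) →
    ∀ f : ℕ → ℂ, (∀ n, f n ∈ K) → (∀ n, f (n + M) = f n) → (∃ n, f n ≠ 0) → ∀ a < 2,
    c * Real.sqrt (s * Real.log (Real.log s) / (Module.finrank ℚ K * M * Real.log s)) ≤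
      (Set.ncard {i : ℕ | 2 ≤ i ∧ i ≤ s ∧ i % 2 = a ∧
        (∑' n : ℕ, f (n + 1) / ((n : ℂ) + 1) ^ i) ∉ K} : ℝ) := by
  obtain ⟨c, hc, s0, hs⟩ := t_fjE 77 (by norm_num)
  refine ⟨c, hc, s0, fun s hs0 K hK hconj M hM hD hDM f hfK hfp hf0 a ha => ?_⟩
  have hD1 : 1 ≤ Module.finrank ℚ K := Module.finrank_pos
  obtain ⟨h, B, h1, h2, h3, h4, h5⟩ := hs s hs0 (Module.finrank ℚ K) M hD1 hM hD hDM
  -- the real subfield
  obtain ⟨K0, hK0⟩ : ∃ K0 : IntermediateField ℚ ℝ,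
      K0 = K.comap (IsScalarTower.toAlgHom ℚ ℝ ℂ) := ⟨_, rfl⟩
  have hmem : ∀ x : ℝ, x ∈ K0 ↔ (x : ℂ) ∈ K := by
    intro x
    rw [hK0]
    rfl
  have hlin : ∃ g : K0 →ₗ[ℚ] K, Function.Injective g := by
    refine ⟨{ toFun := fun x => ⟨((x : ℝ) : ℂ), (hmem _).1 x.2⟩
              map_add' := fun x y => ?_
              map_smul' := fun r x => ?_ }, ?_⟩
    · apply Subtype.ext
      simp
    · apply Subtype.ext
      simp [Algebra.smul_def]
    · intro x y hxy
      have := congrArg (fun z : K => (z : ℂ)) hxy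
      simp only [LinearMap.coe_mk, AddHom.coe_mk] at this
      exact Subtype.ext (by exact_mod_cast this)
  obtain ⟨g0, hg0⟩ := hlin
  have hfd : FiniteDimensional ℚ K0 := FiniteDimensional.of_injective g0 hg0
  have hfr : Module.finrank ℚ K0 ≤ Module.finrank ℚ K :=
    LinearMap.finrank_le_finrank_of_injective hg0
  -- the real function
  obtain ⟨u0, hu0⟩ := hf0
  have hηK : (f u0)⁻¹ ∈ K := K.inv_mem (hfK u0)
  have hre : ∀ z ∈ K, (((f u0)⁻¹ * z).re : ℝ) ∈ K0 := by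
    intro z hz
    rw [hmem]
    have h6 : (f u0)⁻¹ * z ∈ K := K.mul_mem hηK hz
    have h7 : ((((f u0)⁻¹ * z).re : ℝ) : ℂ) =
        (1 / 2 : ℚ) • ((f u0)⁻¹ * z + (starRingEnd ℂ) ((f u0)⁻¹ * z)) := by
      rw [Complex.add_conj, Algebra.smul_def]
      simp
    rw [h7]
    exact K.smul_mem (K.add_mem h6 (hconj _ h6))
  obtain ⟨F, hF⟩ : ∃ F : ℕ → K0, ∀ n, ((F n : K0) : ℝ) = ((f u0)⁻¹ * f n).re :=
    ⟨fun n => ⟨_, hre _ (hfK n)⟩, fun n => rfl⟩
  have hFp : ∀ u, F (u + M) = F u := fun u => Subtype.ext (by rw [hF, hF, hfp])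
  obtain ⟨b, hb1, hb2⟩ := fin_den K0 M hM F hFp
  have hb0 : (b : K0) ≠ 0 := by
    have : b ≠ 0 := by omega
    exact_mod_cast this
  obtain ⟨I, hI, hI2⟩ := mb_coreE a (by omega) (Module.finrank ℚ K) h M B hD1 hM h2 h3 h5
    K0 K0.val hfr (fun v => (b : K0) * F v) hb2 (fun u => by simp only [hFp])
    ⟨u0, by
      refine mul_ne_zero hb0 fun h0 => ?_
      have h6 := hF u0
      rw [h0, inv_mul_cancel₀ hu0] at h6
      simp at h6⟩
  refine h4.trans ?_
  have hfin : {i : ℕ | 2 ≤ i ∧ i ≤ s ∧ i % 2 = a ∧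
      (∑' n : ℕ, f (n + 1) / ((n : ℂ) + 1) ^ i) ∉ K}.Finite :=
    (Set.finite_Iic s).subset fun i hi => hi.2.1
  have hsub : (I : Set ℕ) ⊆ {i : ℕ | 2 ≤ i ∧ i ≤ s ∧ i % 2 = a ∧
      (∑' n : ℕ, f (n + 1) / ((n : ℂ) + 1) ^ i) ∉ K} := by
    intro i hi
    obtain ⟨a1, a2, a3, a4⟩ := hI2 i hi
    refine ⟨a1, a2.trans h1, ?_, fun hL => ?_⟩
    · omega
    · refine a4 ⟨(b : ℝ) * ((f u0)⁻¹ * (∑' n : ℕ, f (n + 1) / ((n : ℂ) + 1) ^ i)).re, ?_⟩ ?_
      · exact K0.mul_mem (natCast_mem K0 b) (hre _ hL)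
      · have hS := fin_summable M hM f hfp i a1
        have e1 : (f u0)⁻¹ * (∑' n : ℕ, f (n + 1) / ((n : ℂ) + 1) ^ i) =
            ∑' n : ℕ, (f u0)⁻¹ * (f (n + 1) / ((n : ℂ) + 1) ^ i) := by
          rw [tsum_mul_left]
        change (b : ℝ) * ((f u0)⁻¹ * (∑' n : ℕ, f (n + 1) / ((n : ℂ) + 1) ^ i)).re = _
        rw [e1, Complex.re_tsum (hS.mul_left _), ← tsum_mul_left]
        unfold Lr
        refine tsum_congr fun n => ?_
        have e2 : K0.val ((b : K0) * F (n + 1)) = (b : ℝ) * ((f u0)⁻¹ * f (n + 1)).re := by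
          rw [← hF (n + 1)]
          simp
        beta_reduce
        rw [e2]
        have e3 : (f u0)⁻¹ * (f (n + 1) / ((n : ℂ) + 1) ^ i) =
            ((f u0)⁻¹ * f (n + 1)) / ((((n : ℝ) + 1) ^ i : ℝ) : ℂ) := by
          push_cast
          ring
        rw [e3, Complex.div_ofReal_re]
        ring
  have h6 := Set.ncard_le_ncard hsub hfin
  rw [Set.ncard_coe_finset] at h6
  exact_mod_cast hI.trans h6

end Run7.h317.LV
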