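import Pool.Agent.Run7.h317.LV.StmR

/-!
# Real side: the tail bound and the lower bound for `R` (adapted from `Pool/Agent/W165/OZ/TB.lean`, `RL.lean`)
-/

set_option autoImplicit false

open Polynomial Pool.Agent.H337R2 Filter Topology

namespace Run7.h317.LV

open Pool.Agent.W165.OZ

/-- comparison of the two numerators -/
theorem RvE_le (ep n h : ℕ) (he : ep ≤ 1) (hn : 1 ≤ n) (t : ℝ) (ht : 1 ≤ t) :
    0 < RvE ep n h t ∧ RvE ep n h t ≤ Rv n h t := by
  have hn1 : (1 : ℝ) ≤ (n : ℝ) := by exact_mod_cast hn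
  have hP : 0 < ∏ k ∈ Finset.range n, (t + (k : ℝ)) := by
    apply Finset.prod_pos
    intro k _
    have : (0 : ℝ) ≤ (k : ℝ) := Nat.cast_nonneg _
    linarith
  have hP4 : 0 < (∏ k ∈ Finset.range n, (t + (k : ℝ))) ^ (2 * h) := pow_pos hP _
  have h1 : 1 ≤ 2 * t + ((n : ℝ) - 1) := by linarith
  unfold RvE Rv
  constructor
  · have : 0 < (2 * t + ((n : ℝ) - 1)) ^ ep := pow_pos (by linarith) _
    positivity
  · apply div_le_div_of_nonneg_right _ hP4.le
    calc (2 * t + ((n : ℝ) - 1)) ^ ep ≤ (2 * t + ((n : ℝ) - 1)) ^ 1 := pow_le_pow_right₀ h1 he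
      _ = _ := pow_one _

theorem t_tbE (ep : ℕ) (he : ep ≤ 1) : S_TBE ep := by
  intro N δ c1 c2 τ ω hN n h M k hn hh hk
  obtain ⟨s1, s2⟩ := t_tb N δ c1 c2 τ ω hN n h M k hn hh hk
  have hτ : ∀ i, 1 ≤ τ i := fun i => by
    have h1 := hN.lo i
    have h2 : (0 : ℝ) ≤ ((i / N : ℕ) : ℝ) := Nat.cast_nonneg _
    linarith
  have hy : ∀ i, 0 ≤ yv n (τ i) := fun i => by
    have h1 := hτ i
    have h3 : (1 : ℝ) ≤ n := by exact_mod_cast hn
    unfold yv
    exact mul_nonneg (by linarith) (by linarith)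
  have hle : ∀ i, |ω (i + M)| * (RvE ep n h (τ (i + M)) * yv n (τ (i + M)) ^ k) ≤
      |ω (i + M)| * (Rv n h (τ (i + M)) * yv n (τ (i + M)) ^ k) := by
    intro i
    apply mul_le_mul_of_nonneg_left _ (abs_nonneg _)
    exact mul_le_mul_of_nonneg_right (RvE_le ep n h he hn _ (hτ _)).2 (pow_nonneg (hy _) _)
  have hnn : ∀ i, 0 ≤ |ω (i + M)| * (RvE ep n h (τ (i + M)) * yv n (τ (i + M)) ^ k) := by
    intro i
    have h1 := (RvE_le ep n h he hn _ (hτ (i + M))).1.le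
    have h2 := pow_nonneg (hy (i + M)) k
    positivity
  have s3 := Summable.of_nonneg_of_le hnn hle s1
  exact ⟨s3, (s3.tsum_le_tsum hle s1).trans s2⟩

theorem t_rlE (ep : ℕ) : S_RLE ep := by
  intro N δ c1 c2 τ ω hN n h j hn
  have h1 : (1 : ℝ) < τ j := by
    have := hN.lo j
    have h0 : (0 : ℝ) ≤ ((j / N : ℕ) : ℝ) := Nat.cast_nonneg _
    linarith
  have h2 : τ j ≤ 2 + (j : ℝ) / N := by
    have := hN.hi j
    have h0 : ((j / N : ℕ) : ℝ) ≤ (j : ℝ) / N := Nat.cast_div_le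
    linarith
  have hn1 : (1 : ℝ) ≤ (n : ℝ) := by exact_mod_cast hn
  have hP : 0 < ∏ k ∈ Finset.range n, (τ j + (k : ℝ)) := by
    apply Finset.prod_pos
    intro k _
    have : (0 : ℝ) ≤ (k : ℝ) := Nat.cast_nonneg _
    linarith
  have hP2 : ∏ k ∈ Finset.range n, (τ j + (k : ℝ)) ≤ (2 + (j : ℝ) / N + n) ^ n := by
    calc ∏ k ∈ Finset.range n, (τ j + (k : ℝ))
        ≤ ∏ _k ∈ Finset.range n, (2 + (j : ℝ) / N + n) := by
          apply Finset.prod_le_prod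
          · intro k _
            have : (0 : ℝ) ≤ (k : ℝ) := Nat.cast_nonneg _
            linarith
          · intro k hk
            have : (k : ℝ) ≤ (n : ℝ) := by
              exact_mod_cast (Finset.mem_range.mp hk).le
            linarith
      _ = (2 + (j : ℝ) / N + n) ^ n := by simp
  have hP3 : (∏ k ∈ Finset.range n, (τ j + (k : ℝ))) ^ (2 * h) ≤
      (2 + (j : ℝ) / N + n) ^ (2 * h * n) := by
    calc _ ≤ ((2 + (j : ℝ) / N + n) ^ n) ^ (2 * h) := pow_le_pow_left₀ hP.le hP2 _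
      _ = _ := by rw [← pow_mul, mul_comm]
  have hP4 : 0 < (∏ k ∈ Finset.range n, (τ j + (k : ℝ))) ^ (2 * h) := pow_pos hP _
  unfold RvE
  calc ((2 + (j : ℝ) / N + n) ^ (2 * h * n))⁻¹
      ≤ ((∏ k ∈ Finset.range n, (τ j + (k : ℝ))) ^ (2 * h))⁻¹ := inv_anti₀ hP4 hP3
    _ = 1 / (∏ k ∈ Finset.range n, (τ j + (k : ℝ))) ^ (2 * h) := (one_div _).symm
    _ ≤ (2 * τ j + ((n : ℝ) - 1)) ^ ep / (∏ k ∈ Finset.range n, (τ j + (k : ℝ))) ^ (2 * h) := by
        apply div_le_div_of_nonneg_right _ hP4.le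
        exact one_le_pow₀ (by linarith)

end Run7.h317.LV
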