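import Pool.Agent.Run7.h317.LV.NO
import Pool.Agent.Run7.h317.LV.DS
import Pool.Agent.Run7.h317.LV.TB
import Pool.Agent.Run7.h317.LV.CO
import Pool.Agent.Run7.h317.LV.NV
import Pool.Agent.Run7.h317.LV.AR
import Pool.Agent.Run7.h317.LV.PK
import Pool.Agent.Run7.h317.LV.AS
import Pool.Agent.Run7.h317.LV.CD

/-!
# The main inequality (adapted from `Pool/Agent/W165/OZ/MB.lean`)
-/

open Polynomial Pool.Agent.H337R2 Filter Topology

namespace Run7.h317.LV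

open Pool.Agent.W165.OZ

theorem z_nvE (ep : ℕ) (hep : ep ≤ 1) : S_NVE ep :=
  t_nvE ep t_hk (t_coE ep) (t_tbE ep hep) (t_rlE ep) t_pi t_nu

theorem z_arE (ep : ℕ) (hep : ep ≤ 1) : S_ARE ep := t_arE ep t_bas (t_tbE ep hep)

theorem hsE_map {A A' : Type*} [CommRing A] [Algebra ℚ A] [CommRing A'] [Algebra ℚ A']
    (g : A →ₐ[ℚ] A') (f : ℕ → A) (i m : ℕ) : g (hsE f i m) = hsE (fun v => g (f v)) i m := by
  unfold hsE
  rw [map_sum]
  refine Finset.sum_congr rfl fun l _ => ?_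
  rw [map_mul, AlgHom.commutes]

theorem moE_map {A A' : Type*} [CommRing A] [Algebra ℚ A] [CommRing A'] [Algebra ℚ A']
    (g : A →ₐ[ℚ] A') (ep n h M B : ℕ) (w : ℕ → ℤ) (z f : ℕ → A) (k : ℕ) :
    g (moE ep n h M B w z f k) = moE ep n h M B w (fun i => g (z i)) (fun v => g (f v)) k := by
  unfold moE LaE
  rw [map_sum]
  refine Finset.sum_congr rfl fun i _ => ?_
  rw [map_sub, map_mul, AlgHom.commutes]
  congr 1
  unfold betE
  rw [map_sum]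
  refine Finset.sum_congr rfl fun d _ => ?_
  rw [map_sum]
  refine Finset.sum_congr rfl fun l _ => ?_
  rw [map_mul, AlgHom.commutes, hsE_map]

theorem DHmoE_map {A A' : Type*} [CommRing A] [Algebra ℚ A] [CommRing A'] [Algebra ℚ A']
    (g : A →ₐ[ℚ] A') (ep n h M B : ℕ) (w : ℕ → ℤ) (z f : ℕ → A) (r : ℕ) :
    g (DH (moE ep n h M B w z f) r) = DH (moE ep n h M B w (fun i => g (z i)) (fun v => g (f v))) r := by
  have := mb_DH_map (g : A →+* A') (moE ep n h M B w z f) r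
  rw [AlgHom.coe_toRingHom] at this
  rw [this]
  congr 1
  funext k
  exact moE_map g ep n h M B w z f k

theorem moE_eqz (ep n h M B : ℕ) (w : ℕ → ℤ) (I : Finset ℕ) (f z : ℕ → ℝ)
    (hI : ∀ i ∈ I, WW B w i = 0)
    (hz1 : ∀ i, (i + ep) % 2 = 0 → 2 ≤ i → i ≤ 2 * h → i ∉ I → z i = Lr f i)
    (hz0 : ∀ i, ¬ ((i + ep) % 2 = 0 ∧ 2 ≤ i) → z i = 0) (k : ℕ) :
    moE (A := ℝ) ep n h M B w (zzE ep f) f k = moE (A := ℝ) ep n h M B w z f k := by
  unfold moE LaE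
  refine Finset.sum_congr rfl fun i hi => ?_
  rw [Finset.mem_Icc] at hi
  congr 1
  by_cases h1 : i ∈ I
  · rw [WWE_eq, hI i h1]; simp
  · by_cases h2 : (i + ep) % 2 = 0 ∧ 2 ≤ i
    · rw [hz1 i h2.1 h2.2 hi.2 h1]
      unfold zzE
      rw [if_pos ⟨h2.2, h2.1⟩]
    · rw [hz0 i h2]
      unfold zzE
      rw [if_neg (fun h => h2 ⟨h.2, h.1⟩)]

/-- the size of the second factor -/
theorem mb_ppE (h n A l X : ℝ) (hh : 0 < h) (hA : 0 ≤ A) (hl : 0 ≤ l)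
    (hX : X = (A / h) * (1 + l)) :
    h * Real.log 4 * A * n ^ 2 * (1 + l) ≤ 2 * X * (h * n) ^ 2 := by
  have g1 : Real.log 4 ≤ 2 := by
    have g2 : Real.log 4 = 2 * Real.log 2 := by
      rw [show (4 : ℝ) = 2 ^ 2 by norm_num, Real.log_pow]
      norm_num
    have g3 := Real.log_two_lt_d9
    rw [g2]; linarith
  have g4 : 2 * X * (h * n) ^ 2 = h * 2 * A * n ^ 2 * (1 + l) := by
    rw [hX]
    field_simp
  rw [g4]
  have g5 : h * Real.log 4 ≤ h * 2 := mul_le_mul_of_nonneg_left g1 hh.le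
  have g6 : h * Real.log 4 * A ≤ h * 2 * A := mul_le_mul_of_nonneg_right g5 hA
  have g7 : h * Real.log 4 * A * n ^ 2 ≤ h * 2 * A * n ^ 2 :=
    mul_le_mul_of_nonneg_right g6 (by positivity)
  exact mul_le_mul_of_nonneg_right g7 (by linarith)

theorem mb_coreE (ep : ℕ) (hep : ep ≤ 1) (D h M B : ℕ) (hD : 1 ≤ D) (hM : 1 ≤ M) (hB : 1 ≤ B)
    (hBh : 16 * (M * (B * (B + 1))) ≤ h)
    (hineq : 77 * (D : ℝ) * (1 + (M * ((B : ℝ) * (B + 1)) / h) * (1 + Real.log ((M * B : ℕ) : ℝ))) <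
      (1 / 16) * Real.log ((h : ℝ) / (M * ((B : ℝ) * (B + 1)))))
    (K : Type) [Field K] [Algebra ℚ K] [FiniteDimensional ℚ K] (φ : K →ₐ[ℚ] ℝ)
    (hfin : Module.finrank ℚ K ≤ D) (f : ℕ → K) (hfi : ∀ v, IsIntegral ℤ (f v))
    (hfp : ∀ u, f (u + M) = f u) (hf0 : ∃ u, f u ≠ 0) :
    ∃ I : Finset ℕ, B ≤ I.card ∧ ∀ i ∈ I, 2 ≤ i ∧ i ≤ 2 * h ∧ (i + ep) % 2 = 0 ∧
      ∀ y : K, φ y ≠ Lr (fun v => φ (f v)) i := by
  classical
  by_contra hcon
  obtain ⟨g, hgdef⟩ : ∃ g : ℕ → ℝ, g = fun v => φ (f v) := ⟨_, rfl⟩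
  rw [← hgdef] at hcon
  have hgp : ∀ u, g (u + M) = g u := fun u => by rw [hgdef]; simp only [hfp]
  have hg0 : ∃ u, g u ≠ 0 := by
    obtain ⟨u, hu⟩ := hf0
    refine ⟨u, ?_⟩
    rw [hgdef]
    exact (map_ne_zero φ).2 hu
  obtain ⟨I, hIdef⟩ : ∃ I : Finset ℕ, I =
      (Finset.Icc 2 (2 * h)).filter (fun i => (i + ep) % 2 = 0 ∧ ∀ y : K, φ y ≠ Lr g i) := ⟨_, rfl⟩
  have hImem : ∀ i, i ∈ I ↔ (2 ≤ i ∧ i ≤ 2 * h) ∧ (i + ep) % 2 = 0 ∧ ∀ y : K, φ y ≠ Lr g i := by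
    intro i
    rw [hIdef, Finset.mem_filter, Finset.mem_Icc]
  have hIcard : I.card < B := by
    by_contra hlt
    rw [not_lt] at hlt
    refine hcon ⟨I, hlt, fun i hi => ?_⟩
    have := (hImem i).1 hi
    exact ⟨this.1.1, this.1.2, this.2.1, this.2.2⟩
  obtain ⟨w, hw, hWI⟩ := t_we B I hIcard
  obtain ⟨N, δ, c1, c2, τ, ω, hNod, h2N, hNO⟩ := t_noE M B hM w hw g hgp hg0
  have hN := hNod.hN
  have hMB1 : 1 ≤ M * (B * (B + 1)) := Nat.mul_pos hM (Nat.mul_pos hB (by omega))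
  have hh : 1 ≤ h := by omega
  have h32 : 32 * N ≤ h := by omega
  have h2N' : 2 * N ≤ h := by omega
  have hc2 : 0 < c2 := lt_of_lt_of_le (lt_of_lt_of_le hNod.hc1 (hNod.wlo 0)) (hNod.whi 0)
  -- values in the field
  have hval : ∀ i, ∃ y : K, ((i + ep) % 2 = 0 → 2 ≤ i → i ≤ 2 * h → i ∉ I → φ y = Lr g i) ∧
      (¬ ((i + ep) % 2 = 0 ∧ 2 ≤ i) → y = 0) ∧ (2 * h < i → y = 0) := by
    intro i
    by_cases hc : (i + ep) % 2 = 0 ∧ 2 ≤ i ∧ i ≤ 2 * h ∧ i ∉ I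
    · have h8 : ¬ ∀ y : K, φ y ≠ Lr g i := by
        intro hirr
        exact hc.2.2.2 ((hImem i).2 ⟨⟨hc.2.1, hc.2.2.1⟩, hc.1, hirr⟩)
      push Not at h8
      obtain ⟨y, hy⟩ := h8
      exact ⟨y, fun _ _ _ _ => hy, fun hx => absurd ⟨hc.1, hc.2.1⟩ hx, fun hx => by omega⟩
    · exact ⟨0, fun a b c d => absurd ⟨a, b, c, d⟩ hc, fun _ => rfl, fun _ => rfl⟩
  choose z hz1 hz0 hz2 using hval
  choose a ha1 ha2 using fun i => mb_int (z i)
  obtain ⟨q, hqdef⟩ : ∃ q : ℕ, q = ∏ i ∈ Finset.range (2 * h + 1), a i := ⟨_, rfl⟩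
  have hq : 1 ≤ q := by
    rw [hqdef]
    refine Nat.one_le_iff_ne_zero.2 (Finset.prod_ne_zero_iff.2 fun i _ => ?_)
    have := ha1 i
    omega
  have hqz : ∀ i, IsIntegral ℤ ((q : K) * z i) := by
    intro i
    by_cases hi : i ≤ 2 * h
    · have hd : a i ∣ q := by
        rw [hqdef]
        exact Finset.dvd_prod_of_mem _ (Finset.mem_range.2 (by omega))
      obtain ⟨e, he⟩ := hd
      have e1 : (q : K) * z i = ((e : ℕ) : K) * ((a i : K) * z i) := by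
        rw [he]; push_cast; ring
      rw [e1]
      refine IsIntegral.mul ?_ (ha2 i)
      have : ((e : ℕ) : K) = algebraMap ℤ K (e : ℤ) := by simp
      rw [this]
      exact isIntegral_algebraMap
    · rw [hz2 i (by omega), mul_zero]
      exact isIntegral_zero
  have hcast : ∀ n k, moE (A := ℝ) ep n h M B w (zzE ep g) g k =
      moE (A := ℝ) ep n h M B w (fun i => φ (z i)) g k :=
    fun n k => moE_eqz ep n h M B w I g (fun i => φ (z i)) hWI hz1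
      (fun i hi => by rw [hz0 i hi, map_zero]) k
  have hMom : ∀ n, 2 ≤ n → MomE ep n h τ ω (moE (A := ℝ) ep n h M B w (zzE ep g) g) := by
    intro n hn2 k hk
    obtain ⟨hs, hv⟩ := t_rmE ep hep M hM g hgp n h B w hn2 hh k hk
    have h8 := hNO (fun t => RvE ep n h t * yv n t ^ k) hs
    rw [← hv] at h8
    exact h8
  obtain ⟨n0, hn0⟩ := z_nvE ep hep N δ c1 c2 τ ω hNod h h32
  have hC : 0 < 4 * (N : ℝ) ^ 2 * c2 := by
    have : (0 : ℝ) < N := by exact_mod_cast hN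
    positivity
  obtain ⟨n1, hn1⟩ := t_asE N h M B q (4 * (N : ℝ) ^ 2 * c2) hN hh hM hB hq hC h2N'
  -- the bound for the conjugates of the values
  obtain ⟨Z, hZ, hZf⟩ : ∃ Z : ℝ, (∀ (σ : K →ₐ[ℚ] ℂ) (i : ℕ), ‖σ (z i)‖ ≤ Z) ∧
      ∀ (σ : K →ₐ[ℚ] ℂ) (i : ℕ), ‖σ (f i)‖ ≤ Z := by
    obtain ⟨Z1, hZ1⟩ : ∃ Z : ℝ, ∀ (σ : K →ₐ[ℚ] ℂ) (i : ℕ), ‖σ (z i)‖ ≤ Z := by
      refine ⟨∑ σ : K →ₐ[ℚ] ℂ, ∑ i ∈ Finset.range (2 * h + 1), ‖σ (z i)‖, fun σ i => ?_⟩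
      have hnn : 0 ≤ ∑ i ∈ Finset.range (2 * h + 1), ‖σ (z i)‖ :=
        Finset.sum_nonneg fun _ _ => norm_nonneg _
      have e1 : ∑ i ∈ Finset.range (2 * h + 1), ‖σ (z i)‖ ≤
          ∑ σ : K →ₐ[ℚ] ℂ, ∑ i ∈ Finset.range (2 * h + 1), ‖σ (z i)‖ :=
        Finset.single_le_sum (f := fun σ : K →ₐ[ℚ] ℂ => ∑ i ∈ Finset.range (2 * h + 1), ‖σ (z i)‖)
          (fun σ _ => Finset.sum_nonneg fun _ _ => norm_nonneg _) (Finset.mem_univ σ)
      refine le_trans ?_ e1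
      by_cases hi : i ≤ 2 * h
      · exact Finset.single_le_sum (f := fun i => ‖σ (z i)‖) (fun _ _ => norm_nonneg _)
          (Finset.mem_range.2 (by omega))
      · rw [hz2 i (by omega), map_zero, norm_zero]
        exact hnn
    obtain ⟨Z2, hZ2⟩ : ∃ Z : ℝ, ∀ (σ : K →ₐ[ℚ] ℂ) (i : ℕ), ‖σ (f i)‖ ≤ Z := by
      refine ⟨∑ σ : K →ₐ[ℚ] ℂ, ∑ i ∈ Finset.range M, ‖σ (f i)‖, fun σ i => ?_⟩
      have e1 : ∑ i ∈ Finset.range M, ‖σ (f i)‖ ≤
          ∑ σ : K →ₐ[ℚ] ℂ, ∑ i ∈ Finset.range M, ‖σ (f i)‖ :=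
        Finset.single_le_sum (f := fun σ : K →ₐ[ℚ] ℂ => ∑ i ∈ Finset.range M, ‖σ (f i)‖)
          (fun σ _ => Finset.sum_nonneg fun _ _ => norm_nonneg _) (Finset.mem_univ σ)
      refine le_trans ?_ e1
      have hmod : f i = f (i % M) := by
        have hmul : ∀ a u, f (u + M * a) = f u := by
          intro a
          induction a with
          | zero => intro u; simp
          | succ a ih =>
            intro u
            have : u + M * (a + 1) = (u + M * a) + M := by ring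
            rw [this, hfp, ih]
        conv_lhs => rw [← Nat.mod_add_div i M]
        exact hmul _ _
      rw [hmod]
      exact Finset.single_le_sum (f := fun i => ‖σ (f i)‖) (fun _ _ => norm_nonneg _)
        (Finset.mem_range.2 (Nat.mod_lt _ hM))
    exact ⟨max Z1 Z2, fun σ i => (hZ1 σ i).trans (le_max_left _ _),
      fun σ i => (hZ2 σ i).trans (le_max_right _ _)⟩
  obtain ⟨n2, hn2⟩ := t_cdE ep hep h M B w Z hh hM hB
  obtain ⟨n3, hn3⟩ : ∃ n3 : ℕ, Real.log q ≤ n3 := exists_nat_ge _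
  obtain ⟨n, hndef⟩ : ∃ n, n = 2 * (n0 + n1 + n2 + n3 + M * B + 1) := ⟨_, rfl⟩
  have hne : Even n := ⟨n0 + n1 + n2 + n3 + M * B + 1, by omega⟩
  have hn2' : 2 ≤ n := by omega
  obtain ⟨r, hr1, hr2, hr3⟩ := hn0 n (by omega) hne _ (hMom n hn2')
  have hDH : DH (moE (A := ℝ) ep n h M B w (zzE ep g) g) r = φ (DH (moE (A := K) ep n h M B w z f) r) := by
    rw [DHmoE_map, ← hgdef]
    congr 1
    funext k
    exact hcast n k
  have hr3' : DH (moE (A := K) ep n h M B w z f) r ≠ 0 := by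
    intro h8
    apply hr3
    rw [hDH, h8, map_zero]
  have e1 := t_pkE ep hep K n h M B w z f hfi q hq hqz hn2' hne hh hM hB (by omega) r hr2 hr3'
  have e2 := z_arE ep hep N δ c1 c2 τ ω hNod n h (by omega) hh hne _ (hMom n hn2') r hr2
  have e3 := hn1 n (by omega) hne r hr1 hr2
  -- notation
  obtain ⟨s, hs⟩ : ∃ s : ℚ, s = ∏ i ∈ Finset.range r, sc n h (M * B) i ^ 2 := ⟨_, rfl⟩
  have hs0 : 0 ≤ s := by
    rw [hs]; exact Finset.prod_nonneg fun i _ => sq_nonneg _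
  have hsr : (∏ i ∈ Finset.range r, (sc n h (M * B) i : ℝ) ^ 2) = (s : ℝ) := by
    rw [hs]; push_cast; rfl
  rw [← hs] at e1
  rw [hsr] at e3
  have hPp : (0 : ℝ) < (PPE n h M B : ℝ) := by exact_mod_cast PPE_pos n h M B
  have hq0 : (0 : ℝ) < (q : ℝ) := by exact_mod_cast hq
  obtain ⟨x, hx⟩ : ∃ x : K, x = algebraMap ℚ K ((q : ℚ) ^ r * s * (PPE n h M B : ℚ)) *
    DH (moE ep n h M B w z f) r := ⟨_, rfl⟩
  rw [← hx] at e1
  have hx0 : x ≠ 0 := by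
    intro h0
    rw [h0, Algebra.norm_zero, abs_zero] at e1
    exact absurd e1 (by norm_num)
  -- the norm as a product
  have hnorm : (1 : ℝ) ≤ ∏ σ : K →ₐ[ℚ] ℂ, ‖σ x‖ := by
    have h8 := Algebra.norm_eq_prod_embeddings ℚ ℂ x
    have h10 := congrArg norm h8
    rw [norm_prod] at h10
    rw [← h10]
    have h11 : ‖algebraMap ℚ ℂ (Algebra.norm ℚ x)‖ = ((|Algebra.norm ℚ x| : ℚ) : ℝ) := by
      rw [eq_ratCast, Rat.cast_abs]
      rw [← Complex.ofReal_ratCast, Complex.norm_real, Real.norm_eq_abs]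
    rw [h11]
    exact_mod_cast e1
  have hσ0 : ∀ σ : K →ₐ[ℚ] ℂ, 0 < ‖σ x‖ := by
    intro σ
    rw [norm_pos_iff]
    intro h0
    exact hx0 ((map_eq_zero σ).1 h0)
  have hlog : 0 ≤ ∑ σ : K →ₐ[ℚ] ℂ, Real.log ‖σ x‖ := by
    rw [← Real.log_prod (fun σ _ => (hσ0 σ).ne')]
    exact Real.log_nonneg hnorm
  obtain ⟨X, hX⟩ : ∃ X : ℝ, X = (M * ((B : ℝ) * (B + 1)) / h) * (1 + Real.log ((M * B : ℕ) : ℝ)) :=
    ⟨_, rfl⟩
  -- the real embedding
  obtain ⟨σ0, hσ00⟩ : ∃ σ0 : K →ₐ[ℚ] ℂ, ∀ y, σ0 y = ((φ y : ℝ) : ℂ) :=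
    ⟨(Algebra.algHom ℚ ℝ ℂ).comp φ, fun y => rfl⟩
  have hreal : Real.log ‖σ0 x‖ ≤ (12 * (1 + X) -
          (1 / 16) * Real.log ((h : ℝ) / (2 * N))) * ((h : ℝ) * n) ^ 2 := by
    rw [hX]
    refine le_trans (Real.log_le_log (hσ0 σ0) ?_) e3
    rw [hσ00, Complex.norm_real, Real.norm_eq_abs, hx, map_mul, AlgHom.commutes, abs_mul, ← hDH,
      mul_comm]
    have e5 : |algebraMap ℚ ℝ ((q : ℚ) ^ r * s * (PPE n h M B : ℚ))| =
        (q : ℝ) ^ r * (s : ℝ) * (PPE n h M B : ℝ) := by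
      rw [eq_ratCast]
      push_cast
      rw [abs_of_nonneg]
      have : (0 : ℝ) ≤ (s : ℝ) := by exact_mod_cast hs0
      positivity
    rw [e5]
    apply mul_le_mul_of_nonneg_right e2
    have : (0 : ℝ) ≤ (s : ℝ) := by exact_mod_cast hs0
    positivity
  -- the other embeddings
  have hhr : (0 : ℝ) < h := by exact_mod_cast hh
  have hh1 : (1 : ℝ) ≤ h := by exact_mod_cast hh
  have hB1 : (1 : ℝ) ≤ B := by exact_mod_cast hB
  have hM1 : (1 : ℝ) ≤ M := by exact_mod_cast hM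
  have hlB : 0 ≤ Real.log ((M * B : ℕ) : ℝ) := Real.log_natCast_nonneg _
  have hX0 : 0 ≤ X := by
    rw [hX]; positivity
  have hnr : (0 : ℝ) < n := by
    have : 0 < n := by omega
    exact_mod_cast this
  have hn3' : Real.log q ≤ n := by
    refine hn3.trans ?_
    have : n3 ≤ n := by omega
    exact_mod_cast this
  have hlq : 0 ≤ Real.log q := Real.log_nonneg (by exact_mod_cast hq)
  have hother : ∀ σ : K →ₐ[ℚ] ℂ, Real.log ‖σ x‖ ≤ (1 + 2 * X + 62) * ((h : ℝ) * n) ^ 2 := by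
    intro σ
    have f1 := hn2 n (by omega) hne (fun i => σ (z i)) (fun v => σ (f v)) (hZ σ) (hZf σ) r hr2
    rw [← hs] at f1
    have f2 : σ x = algebraMap ℚ ℂ ((q : ℚ) ^ r * (PPE n h M B : ℚ)) *
        (algebraMap ℚ ℂ s * DH (moE ep n h M B w (fun i => σ (z i)) (fun v => σ (f v))) r) := by
      rw [hx, map_mul, AlgHom.commutes, DHmoE_map, ← mul_assoc, ← map_mul]
      congr 2
      ring
    have f3 : ‖algebraMap ℚ ℂ ((q : ℚ) ^ r * (PPE n h M B : ℚ))‖ = (q : ℝ) ^ r * (PPE n h M B : ℝ) := by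
      rw [eq_ratCast, ← Complex.ofReal_ratCast, Complex.norm_real, Real.norm_eq_abs]
      push_cast
      rw [abs_of_nonneg]
      positivity
    have f4 : ‖σ x‖ ≤ (q : ℝ) ^ r * (PPE n h M B : ℝ) * Real.exp (62 * ((h : ℝ) * n) ^ 2) := by
      rw [f2, norm_mul, f3]
      exact mul_le_mul_of_nonneg_left f1 (by positivity)
    have f5 := Real.log_le_log (hσ0 σ) f4
    rw [Real.log_mul (by positivity) (Real.exp_pos _).ne', Real.log_exp,
      Real.log_mul (by positivity) hPp.ne', Real.log_pow] at f5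
    have f6 := t_ppE n h M B (by omega) hM hB
    have f7 : (r : ℝ) * Real.log q ≤ ((h : ℝ) * n) ^ 2 := by
      have g1 : (r : ℝ) ≤ (h : ℝ) * n := by
        have : r ≤ h * n := by omega
        exact_mod_cast this
      have g2 : Real.log q ≤ (h : ℝ) * n := by
        have : (1 : ℝ) * n ≤ (h : ℝ) * n := mul_le_mul_of_nonneg_right hh1 hnr.le
        linarith
      calc (r : ℝ) * Real.log q ≤ ((h : ℝ) * n) * ((h : ℝ) * n) :=
            mul_le_mul g1 g2 hlq (by positivity)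
        _ = _ := by ring
    have f8 : (h : ℝ) * Real.log 4 * (M * ((B : ℝ) * (B + 1))) * (n : ℝ) ^ 2 *
        (1 + Real.log ((M * B : ℕ) : ℝ)) ≤ 2 * X * ((h : ℝ) * n) ^ 2 :=
      mb_ppE h n (M * ((B : ℝ) * (B + 1))) (Real.log ((M * B : ℕ) : ℝ)) X hhr (by positivity) hlB hX
    have f9 : (1 + 2 * X + 62) * ((h : ℝ) * n) ^ 2 = ((h : ℝ) * n) ^ 2 +
        2 * X * ((h : ℝ) * n) ^ 2 + 62 * ((h : ℝ) * n) ^ 2 := by ring
    rw [f9]
    linarith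
  -- the sum
  have hcard : ((Finset.univ.erase σ0).card : ℝ) ≤ D := by
    have g1 : (Finset.univ.erase σ0).card ≤ Fintype.card (K →ₐ[ℚ] ℂ) :=
      Finset.card_le_univ _
    have g2 : Fintype.card (K →ₐ[ℚ] ℂ) = Module.finrank ℚ K := AlgHom.card ℚ K ℂ
    have g3 : (Finset.univ.erase σ0).card ≤ D := by omega
    exact_mod_cast g3
  have hM0 : 0 ≤ (1 + 2 * X + 62) * ((h : ℝ) * n) ^ 2 := by positivity
  have hsum : ∑ σ : K →ₐ[ℚ] ℂ, Real.log ‖σ x‖ ≤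
      (12 * (1 + X) - (1 / 16) * Real.log ((h : ℝ) / (2 * N))) * ((h : ℝ) * n) ^ 2 +
      D * ((1 + 2 * X + 62) * ((h : ℝ) * n) ^ 2) := by
    rw [← Finset.add_sum_erase _ _ (Finset.mem_univ σ0)]
    apply add_le_add hreal
    calc ∑ σ ∈ Finset.univ.erase σ0, Real.log ‖σ x‖
        ≤ ∑ _σ ∈ Finset.univ.erase σ0, (1 + 2 * X + 62) * ((h : ℝ) * n) ^ 2 :=
          Finset.sum_le_sum fun σ _ => hother σ
      _ = ((Finset.univ.erase σ0).card : ℝ) * ((1 + 2 * X + 62) * ((h : ℝ) * n) ^ 2) := by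
          rw [Finset.sum_const, nsmul_eq_mul]
      _ ≤ _ := mul_le_mul_of_nonneg_right hcard hM0
  have hNr : (0 : ℝ) < N := by exact_mod_cast hN
  have hBr : (0 : ℝ) < M * ((B : ℝ) * (B + 1)) := by positivity
  have e6 : Real.log ((h : ℝ) / (M * ((B : ℝ) * (B + 1)))) ≤ Real.log ((h : ℝ) / (2 * N)) := by
    apply Real.log_le_log (by positivity)
    apply div_le_div_of_nonneg_left hhr.le (by positivity)
    exact_mod_cast h2N
  have e7 : (0 : ℝ) < ((h : ℝ) * n) ^ 2 := by positivity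
  rw [← hX] at hineq
  have hD1 : (1 : ℝ) ≤ D := by exact_mod_cast hD
  have e8 := mb_num 12 62 X D (by norm_num) (by norm_num) hX0 hD1
  have e9 : (12 * (1 + X) - (1 / 16) * Real.log ((h : ℝ) / (2 * N))) * ((h : ℝ) * n) ^ 2 +
      D * ((1 + 2 * X + 62) * ((h : ℝ) * n) ^ 2) < 0 := by
    have k3 : (12 * (1 + X) - (1 / 16) * Real.log ((h : ℝ) / (2 * N))) * ((h : ℝ) * n) ^ 2 +
      D * ((1 + 2 * X + 62) * ((h : ℝ) * n) ^ 2) =
      (12 * (1 + X) + D * (1 + 2 * X + 62) - (1 / 16) * Real.log ((h : ℝ) / (2 * N))) *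
        ((h : ℝ) * n) ^ 2 := by ring
    rw [k3]
    apply mul_neg_of_neg_of_pos _ e7
    have e10 : (12 + 62 + 3 : ℝ) * D * (1 + X) = 77 * D * (1 + X) := by ring
    linarith
  linarith

end Run7.h317.LV
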