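import Pool.Agent.Run7.h317.LV.StmR

/-!
# The nodes for the twisted sums (adapted from `Pool/Agent/W940/OZ/NO.lean`)
-/

set_option autoImplicit false

open Polynomial Pool.Agent.H337R2 Filter Topology

namespace Run7.h317.LV

open Pool.Agent.W165.OZ

open Pool.Agent.W940.OZ (hasSum_of_mod Sd mem_Sd gauss)

/-- all fractions with denominators `M d`, `d ≤ B`, in `(0, 1]` -/
def PtM (M B : ℕ) : Finset ℚ := (Finset.Icc 1 B).biUnion fun d => Sd (M * d)

/-- the weight of a fraction: the numerator of `x` with denominator `M d` is `x * (M d)` -/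
noncomputable def omM (M B : ℕ) (w : ℕ → ℤ) (f : ℕ → ℝ) (x : ℚ) : ℝ :=
  ∑ d ∈ (Finset.Icc 1 B).filter (fun d => x ∈ Sd (M * d)), (w d : ℝ) * f (x * ((M * d : ℕ) : ℚ)).num.toNat

open Classical in
/-- the fractions with weight not zero -/
noncomputable def XsM (M B : ℕ) (w : ℕ → ℤ) (f : ℕ → ℝ) : Finset ℚ :=
  (PtM M B).filter (fun x => omM M B w f x ≠ 0)

lemma num_frac {D j : ℕ} (hD : 1 ≤ D) : ((((j : ℚ) / D) * (D : ℚ))).num.toNat = j := by
  have h : (D : ℚ) ≠ 0 := by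
    have : (0 : ℚ) < D := by exact_mod_cast hD
    exact this.ne'
  rw [div_mul_cancel₀ _ h, Rat.num_natCast, Int.toNat_natCast]

lemma PtM_pos {M B : ℕ} (hM : 1 ≤ M) {x : ℚ} (hx : x ∈ PtM M B) : 0 < x ∧ x ≤ 1 := by
  obtain ⟨d, hd, hx⟩ := Finset.mem_biUnion.1 hx
  obtain ⟨j, h1, h2, rfl⟩ := mem_Sd.1 hx
  have hd0 : 1 ≤ M * d := Nat.mul_pos hM (Finset.mem_Icc.1 hd).1
  have hd1 : (0 : ℚ) < ((M * d : ℕ) : ℚ) := by exact_mod_cast hd0
  have hj : (0 : ℚ) < j := by exact_mod_cast h1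
  have hjd : (j : ℚ) ≤ ((M * d : ℕ) : ℚ) := by exact_mod_cast h2
  exact ⟨by positivity, by rw [div_le_one hd1]; exact hjd⟩

lemma PtM_lo {M B : ℕ} (hM : 1 ≤ M) {x : ℚ} (hx : x ∈ PtM M B) : 1 / ((M * B : ℕ) : ℚ) ^ 2 ≤ x := by
  obtain ⟨d, hd, hx⟩ := Finset.mem_biUnion.1 hx
  obtain ⟨j, h1, h2, rfl⟩ := mem_Sd.1 hx
  obtain ⟨hd0, hdB⟩ := Finset.mem_Icc.1 hd
  have hd1 : (1 : ℚ) ≤ ((M * d : ℕ) : ℚ) := by exact_mod_cast Nat.mul_pos hM hd0
  have hdB' : ((M * d : ℕ) : ℚ) ≤ ((M * B : ℕ) : ℚ) := by exact_mod_cast Nat.mul_le_mul_left M hdB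
  have hj : (1 : ℚ) ≤ j := by exact_mod_cast h1
  have hB : (1 : ℚ) ≤ ((M * B : ℕ) : ℚ) := hd1.trans hdB'
  rw [div_le_div_iff₀ (by positivity) (by linarith)]
  nlinarith

lemma PtM_gap {M B : ℕ} (hM : 1 ≤ M) {x y : ℚ} (hx : x ∈ PtM M B) (hy : y ∈ PtM M B) (hxy : x < y) :
    1 / ((M * B : ℕ) : ℚ) ^ 2 ≤ y - x := by
  obtain ⟨d, hd, hx⟩ := Finset.mem_biUnion.1 hx
  obtain ⟨j, h1, h2, rfl⟩ := mem_Sd.1 hx
  obtain ⟨d', hd', hy⟩ := Finset.mem_biUnion.1 hy
  obtain ⟨j', h1', h2', rfl⟩ := mem_Sd.1 hy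
  obtain ⟨hd0, hdB⟩ := Finset.mem_Icc.1 hd
  obtain ⟨hd0', hdB'⟩ := Finset.mem_Icc.1 hd'
  have a1 : (0 : ℚ) < ((M * d : ℕ) : ℚ) := by exact_mod_cast Nat.mul_pos hM hd0
  have a2 : (0 : ℚ) < ((M * d' : ℕ) : ℚ) := by exact_mod_cast Nat.mul_pos hM hd0'
  have a3 : ((M * d : ℕ) : ℚ) ≤ ((M * B : ℕ) : ℚ) := by exact_mod_cast Nat.mul_le_mul_left M hdB
  have a4 : ((M * d' : ℕ) : ℚ) ≤ ((M * B : ℕ) : ℚ) := by exact_mod_cast Nat.mul_le_mul_left M hdB'
  generalize M * d = D at *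
  generalize M * d' = D' at *
  generalize M * B = BB at *
  have a5 : (0 : ℚ) < BB := a1.trans_le a3
  rw [div_lt_div_iff₀ a1 a2] at hxy
  have h5 : j * D' < j' * D := by exact_mod_cast hxy
  have h6 : ((j * D' : ℕ) : ℚ) + 1 ≤ ((j' * D : ℕ) : ℚ) := by exact_mod_cast h5
  push_cast at h6
  have h7 : (j' : ℚ) / D' - (j : ℚ) / D = ((j' : ℚ) * D - j * D') / (D' * D) := by
    field_simp
  rw [h7, div_le_div_iff₀ (by positivity) (by positivity)]
  have h8 : (D' : ℚ) * D ≤ BB ^ 2 := by nlinarith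
  nlinarith [sq_nonneg (BB : ℚ)]

lemma card_PtM (M B : ℕ) : 2 * (PtM M B).card ≤ M * (B * (B + 1)) := by
  rw [← gauss, ← mul_assoc, mul_comm M 2, mul_assoc, Finset.mul_sum]
  refine Nat.mul_le_mul_left 2 ?_
  refine Finset.card_biUnion_le.trans (Finset.sum_le_sum fun d _ => ?_)
  refine Finset.card_image_le.trans ?_
  simp

lemma XsM_nonempty {M B : ℕ} (hM : 1 ≤ M) {w : ℕ → ℤ} {f : ℕ → ℝ} (hf : ∀ u, f (u + M) = f u)
    (hf0 : ∃ u, f u ≠ 0) (h : ∃ d ∈ Finset.Icc 1 B, w d ≠ 0) : (XsM M B w f).Nonempty := by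
  classical
  set T := (Finset.Icc 1 B).filter (fun d => w d ≠ 0) with hT
  have hTn : T.Nonempty := by
    obtain ⟨d, hd, hw⟩ := h
    exact ⟨d, Finset.mem_filter.2 ⟨hd, hw⟩⟩
  set D := T.max' hTn with hD
  have hDT : D ∈ T := T.max'_mem hTn
  obtain ⟨hD1, hD2⟩ := Finset.mem_filter.1 hDT
  obtain ⟨hD3, hD4⟩ := Finset.mem_Icc.1 hD1
  -- the smallest positive argument with `f u ≠ 0`
  have hex : ∃ u, 1 ≤ u ∧ f u ≠ 0 := by
    obtain ⟨u, hu⟩ := hf0
    exact ⟨u + M, by omega, by rw [hf]; exact hu⟩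
  set u0 := Nat.find hex with hu0
  obtain ⟨hu1, hu2⟩ := Nat.find_spec hex
  rw [← hu0] at hu1 hu2
  have hmin : ∀ u, 1 ≤ u → f u ≠ 0 → u0 ≤ u := fun u h1 h2 => Nat.find_min' hex ⟨h1, h2⟩
  have huM : u0 ≤ M := by
    by_contra hlt
    rw [not_le] at hlt
    have h1 : f (u0 - M) ≠ 0 := by
      rw [← hf (u0 - M), Nat.sub_add_cancel hlt.le]
      exact hu2
    have h2 := hmin (u0 - M) (by omega) h1
    omega
  have hMD : 1 ≤ M * D := Nat.mul_pos hM hD3
  have hMD' : (0 : ℚ) < ((M * D : ℕ) : ℚ) := by exact_mod_cast hMD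
  have hmem : (u0 : ℚ) / ((M * D : ℕ) : ℚ) ∈ Sd (M * D) :=
    mem_Sd.2 ⟨u0, hu1, huM.trans (Nat.le_mul_of_pos_right M hD3), rfl⟩
  have hom : omM M B w f ((u0 : ℚ) / ((M * D : ℕ) : ℚ)) = w D * f u0 := by
    unfold omM
    rw [Finset.sum_eq_single_of_mem D]
    · rw [num_frac hMD]
    · exact Finset.mem_filter.2 ⟨hD1, hmem⟩
    · intro d hd hne
      obtain ⟨h1, h2⟩ := Finset.mem_filter.1 hd
      obtain ⟨j, h3, h4, h5⟩ := mem_Sd.1 h2
      have hMd : 1 ≤ M * d := Nat.mul_pos hM (Finset.mem_Icc.1 h1).1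
      have h6 : (0 : ℚ) < ((M * d : ℕ) : ℚ) := by exact_mod_cast hMd
      rw [← h5, num_frac hMd]
      by_contra hw
      have hw1 : w d ≠ 0 := by
        intro h0
        apply hw
        rw [h0]
        simp
      have hw2 : f j ≠ 0 := by
        intro h0
        apply hw
        rw [h0, mul_zero]
      have h7 : u0 ≤ j := hmin j h3 hw2
      have h8 : d ≤ D := T.le_max' d (Finset.mem_filter.2 ⟨h1, hw1⟩)
      rw [div_eq_div_iff h6.ne' hMD'.ne'] at h5
      have h9 : j * (M * D) = u0 * (M * d) := by exact_mod_cast h5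
      have h10 : d < D := lt_of_le_of_ne h8 hne
      have h11 : M * d < M * D := Nat.mul_lt_mul_of_pos_left h10 hM
      have h12 : u0 * (M * d) < j * (M * D) :=
        lt_of_lt_of_le (Nat.mul_lt_mul_of_pos_left h11 hu1) (Nat.mul_le_mul_right _ h7)
      omega
  refine ⟨(u0 : ℚ) / ((M * D : ℕ) : ℚ), Finset.mem_filter.2 ⟨Finset.mem_biUnion.2 ⟨D, hD1, hmem⟩, ?_⟩⟩
  rw [hom]
  exact mul_ne_zero (by exact_mod_cast hD2) hu2

/-- the sum over `u` as a sum over the fractions with denominator `D`, `M ∣ D` -/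
lemma tsum_dM {M D : ℕ} (hD : 1 ≤ D) (hMD : M ∣ D) (f : ℕ → ℝ) (hf : ∀ u, f (u + M) = f u) (F : ℝ → ℝ)
    (hF : Summable (fun u : ℕ => F (((u : ℝ) + D + 1) / D))) :
    (∀ x ∈ Sd D, Summable (fun v : ℕ => F (1 + (v : ℝ) + ((x : ℚ) : ℝ)))) ∧
    ∑' u : ℕ, f (u + D + 1) * F (((u : ℝ) + D + 1) / D) =
      ∑ x ∈ Sd D, f (x * (D : ℚ)).num.toNat * ∑' v : ℕ, F (1 + (v : ℝ) + ((x : ℚ) : ℝ)) := by
  have hd0 : (0 : ℝ) < D := by exact_mod_cast hD
  have hper : ∀ a u, f (u + a * M) = f u := by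
    intro a
    induction a with
    | zero => intro u; simp
    | succ a ih =>
      intro u
      have : u + (a + 1) * M = (u + a * M) + M := by ring
      rw [this, hf, ih]
  have hperD : ∀ a u, f (u + a * D) = f u := by
    obtain ⟨c, hc⟩ := hMD
    intro a u
    have : u + a * D = u + (a * c) * M := by rw [hc]; ring
    rw [this, hper]
  have hpt : ∀ e v : ℕ, (((v * D + e : ℕ) : ℝ) + D + 1) / D =
      1 + (v : ℝ) + (((((e + 1 : ℕ) : ℚ) / D : ℚ)) : ℝ) := by
    intro e v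
    push_cast
    field_simp
    ring
  have hsub : ∀ e : ℕ, Summable (fun v : ℕ => F (1 + (v : ℝ) + (((((e + 1 : ℕ) : ℚ) / D : ℚ)) : ℝ))) := by
    intro e
    have hinj : Function.Injective (fun v : ℕ => v * D + e) := by
      intro a b hab
      have : a * D = b * D := by
        simpa using hab
      exact Nat.eq_of_mul_eq_mul_right (by omega) this
    have := hF.comp_injective hinj
    refine this.congr fun v => ?_
    rw [Function.comp_apply, ← hpt]
  constructor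
  · intro x hx
    obtain ⟨j, h1, h2, rfl⟩ := mem_Sd.1 hx
    have := hsub (j - 1)
    rwa [show j - 1 + 1 = j by omega] at this
  · have h1 := hasSum_of_mod D hD (fun u : ℕ => f (u + D + 1) * F (((u : ℝ) + D + 1) / D))
      (fun e => f (e + 1) * ∑' v : ℕ, F (1 + (v : ℝ) + (((((e + 1 : ℕ) : ℚ) / D : ℚ)) : ℝ))) (fun e _ => by
        have h0 := (hsub e).hasSum.mul_left (f (e + 1))
        have h2 : (fun v : ℕ => f ((v * D + e) + D + 1) * F ((((v * D + e : ℕ) : ℝ) + D + 1) / D)) =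
            fun v : ℕ => f (e + 1) * F (1 + (v : ℝ) + (((((e + 1 : ℕ) : ℚ) / D : ℚ)) : ℝ)) := by
          funext v
          have h3 : v * D + e + D + 1 = (e + 1) + (v + 1) * D := by ring
          rw [hpt, h3, hperD]
        show HasSum (fun v : ℕ => f ((v * D + e) + D + 1) * F ((((v * D + e : ℕ) : ℝ) + D + 1) / D)) _
        rw [h2]
        exact h0)
    rw [h1.tsum_eq]
    unfold Sd
    rw [Finset.sum_image]
    · refine Finset.sum_nbij' (fun e => e + 1) (fun j => j - 1) ?_ ?_ ?_ ?_ ?_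
      · intro e he; rw [Finset.mem_range] at he; rw [Finset.mem_Icc]; omega
      · intro j hj; rw [Finset.mem_Icc] at hj; rw [Finset.mem_range]; omega
      · intro e _; omega
      · intro j hj; rw [Finset.mem_Icc] at hj; omega
      · intro e _
        rw [num_frac hD]
    · intro a _ b _ hab
      have hd' : (D : ℚ) ≠ 0 := by exact_mod_cast (by omega : D ≠ 0)
      simp only at hab
      rw [div_left_inj' hd'] at hab
      exact_mod_cast hab

/-- NO: the nodes -/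
theorem t_noE (M B : ℕ) (hM : 1 ≤ M) (w : ℕ → ℤ) (hw : ∃ d ∈ Finset.Icc 1 B, w d ≠ 0) (f : ℕ → ℝ)
    (hf : ∀ u, f (u + M) = f u) (hf0 : ∃ u, f u ≠ 0) :
    ∃ (N : ℕ) (δ c1 c2 : ℝ) (τ ω : ℕ → ℝ), Nodes N δ c1 c2 τ ω ∧ 2 * N ≤ M * (B * (B + 1)) ∧
      ∀ F : ℝ → ℝ, (∀ d ∈ Finset.Icc 1 B,
        Summable (fun u : ℕ => F (((u : ℝ) + (M * d : ℕ) + 1) / (M * d : ℕ)))) →
        HasSum (fun i => ω i * F (τ i)) (∑ d ∈ Finset.Icc 1 B, (w d : ℝ) *
          ∑' u : ℕ, f (u + M * d + 1) * F (((u : ℝ) + (M * d : ℕ) + 1) / (M * d : ℕ))) := by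
  classical
  have hX := XsM_nonempty hM hf hf0 hw
  set X := XsM M B w f with hXdef
  set N := X.card with hNdef
  have hN : 1 ≤ N := Finset.card_pos.2 hX
  have hNpos : 0 < N := hN
  have hXP : ∀ x ∈ X, x ∈ PtM M B := fun x hx => (Finset.mem_filter.1 hx).1
  have hXom : ∀ x ∈ X, omM M B w f x ≠ 0 := fun x hx => (Finset.mem_filter.1 hx).2
  let xf : ℕ → ℚ := fun i => X.orderEmbOfFin rfl ⟨i % N, Nat.mod_lt _ hNpos⟩
  have hxf : ∀ i, xf i ∈ X := fun i => Finset.orderEmbOfFin_mem _ _ _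
  have hB : 1 ≤ B := by
    obtain ⟨d, hd, -⟩ := hw
    have := Finset.mem_Icc.1 hd
    omega
  have hMB : 1 ≤ M * B := Nat.mul_pos hM hB
  have hBr : (1 : ℝ) ≤ ((M * B : ℕ) : ℝ) := by exact_mod_cast hMB
  set c2 : ℝ := ∑ x ∈ X, |omM M B w f x| with hc2
  set c1 : ℝ := X.inf' hX (fun x => |omM M B w f x|) with hc1
  refine ⟨N, 1 / ((M * B : ℕ) : ℝ) ^ 2, c1, c2, fun i => 1 + ((i / N : ℕ) : ℝ) + ((xf i : ℚ) : ℝ),
    fun i => omM M B w f (xf i), ?_, ?_, ?_⟩
  · refine ⟨hN, by positivity, ?_, ?_, ?_, ?_, ?_, ?_, ?_⟩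
    · rw [div_le_one (by positivity)]
      nlinarith
    · rw [hc1, Finset.lt_inf'_iff]
      intro x hx
      exact abs_pos.2 (hXom x hx)
    · intro i
      have : (0 : ℝ) < ((xf i : ℚ) : ℝ) := by exact_mod_cast (PtM_pos hM (hXP _ (hxf i))).1
      linarith
    · intro i
      have : ((xf i : ℚ) : ℝ) ≤ 1 := by exact_mod_cast (PtM_pos hM (hXP _ (hxf i))).2
      linarith
    · intro i
      by_cases hi : i % N + 1 < N
      · have e1 : (i + 1) / N = i / N := by
          rw [Nat.div_eq_iff hNpos]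
          have := Nat.div_add_mod i N
          have h3 : N * (i / N) = i / N * N := mul_comm _ _
          constructor
          · omega
          · omega
        have e2 : (i + 1) % N = i % N + 1 := by
          rw [Nat.add_mod_eq_ite]
          have h1N : 1 % N = 1 := Nat.mod_eq_of_lt (by omega)
          rw [h1N, if_neg (by omega)]
        have h3 : xf i < xf (i + 1) := by
          apply (X.orderEmbOfFin rfl).strictMono
          rw [Fin.lt_def]
          simp only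
          omega
        have h4 := PtM_gap hM (hXP _ (hxf i)) (hXP _ (hxf (i + 1))) h3
        have h5 : (((1 / ((M * B : ℕ) : ℚ) ^ 2 : ℚ)) : ℝ) ≤ (((xf (i + 1) - xf i : ℚ)) : ℝ) := by
          exact_mod_cast h4
        rw [Rat.cast_sub, Rat.cast_div, Rat.cast_one, Rat.cast_pow, Rat.cast_natCast] at h5
        rw [e1]
        linarith
      · have hlt := Nat.mod_lt i hNpos
        have e1 : (i + 1) / N = i / N + 1 := by
          rw [Nat.div_eq_iff hNpos]
          have := Nat.div_add_mod i N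
          have h3 : N * (i / N) = i / N * N := mul_comm _ _
          have h4 : (i / N + 1) * N = i / N * N + N := by ring
          constructor
          · omega
          · omega
        have h4 := PtM_lo hM (hXP _ (hxf (i + 1)))
        have h5 : (((1 / ((M * B : ℕ) : ℚ) ^ 2 : ℚ)) : ℝ) ≤ (((xf (i + 1) : ℚ)) : ℝ) := by
          exact_mod_cast h4
        rw [Rat.cast_div, Rat.cast_one, Rat.cast_pow, Rat.cast_natCast] at h5
        have h6 : ((xf i : ℚ) : ℝ) ≤ 1 := by exact_mod_cast (PtM_pos hM (hXP _ (hxf i))).2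
        rw [e1]
        push_cast
        push_cast at h5
        linarith
    · intro i
      exact Finset.inf'_le _ (hxf i)
    · intro i
      exact Finset.single_le_sum (f := fun x => |omM M B w f x|) (fun _ _ => abs_nonneg _) (hxf i)
  · refine le_trans (Nat.mul_le_mul_left 2 ?_) (card_PtM M B)
    exact Finset.card_le_card (Finset.filter_subset _ _)
  · intro F hF
    -- the series at a fraction
    let G : ℚ → ℝ := fun x => ∑' v : ℕ, F (1 + (v : ℝ) + ((x : ℚ) : ℝ))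
    have hdd : ∀ d ∈ Finset.Icc 1 B, 1 ≤ M * d := fun d hd => Nat.mul_pos hM (Finset.mem_Icc.1 hd).1
    have hG : ∀ x ∈ PtM M B, HasSum (fun v : ℕ => F (1 + (v : ℝ) + ((x : ℚ) : ℝ))) (G x) := by
      intro x hx
      obtain ⟨d, hd, hx⟩ := Finset.mem_biUnion.1 hx
      exact ((tsum_dM (hdd d hd) (Dvd.intro _ rfl) f hf F (hF d hd)).1 x hx).hasSum
    have hsum : ∑ d ∈ Finset.Icc 1 B, (w d : ℝ) *
          ∑' u : ℕ, f (u + M * d + 1) * F (((u : ℝ) + (M * d : ℕ) + 1) / (M * d : ℕ)) =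
        ∑ e ∈ Finset.range N, omM M B w f (xf e) * G (xf e) := by
      have e1 : ∑ d ∈ Finset.Icc 1 B, (w d : ℝ) *
          ∑' u : ℕ, f (u + M * d + 1) * F (((u : ℝ) + (M * d : ℕ) + 1) / (M * d : ℕ)) =
          ∑ d ∈ Finset.Icc 1 B, ∑ x ∈ Sd (M * d),
            (w d : ℝ) * f (x * ((M * d : ℕ) : ℚ)).num.toNat * G x := by
        refine Finset.sum_congr rfl fun d hd => ?_
        rw [(tsum_dM (hdd d hd) (Dvd.intro _ rfl) f hf F (hF d hd)).2, Finset.mul_sum]
        refine Finset.sum_congr rfl fun x _ => ?_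
        ring
      have e2 : ∑ d ∈ Finset.Icc 1 B, ∑ x ∈ Sd (M * d),
            (w d : ℝ) * f (x * ((M * d : ℕ) : ℚ)).num.toNat * G x =
          ∑ x ∈ PtM M B, ∑ d ∈ (Finset.Icc 1 B).filter (fun d => x ∈ Sd (M * d)),
            (w d : ℝ) * f (x * ((M * d : ℕ) : ℚ)).num.toNat * G x := by
        refine Finset.sum_comm' fun d x => ?_
        rw [Finset.mem_filter]
        constructor
        · rintro ⟨h1, h2⟩
          exact ⟨⟨h1, h2⟩, Finset.mem_biUnion.2 ⟨d, h1, h2⟩⟩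
        · rintro ⟨h1, -⟩
          exact h1
      have e3 : ∑ x ∈ PtM M B, ∑ d ∈ (Finset.Icc 1 B).filter (fun d => x ∈ Sd (M * d)),
            (w d : ℝ) * f (x * ((M * d : ℕ) : ℚ)).num.toNat * G x =
          ∑ x ∈ PtM M B, omM M B w f x * G x := by
        refine Finset.sum_congr rfl fun x _ => ?_
        unfold omM
        rw [Finset.sum_mul]
      have e4 : ∑ x ∈ PtM M B, omM M B w f x * G x = ∑ x ∈ X, omM M B w f x * G x := by
        rw [hXdef]
        unfold XsM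
        rw [Finset.sum_filter]
        refine Finset.sum_congr rfl fun x _ => ?_
        split_ifs with h
        · rfl
        · push Not at h
          rw [h]
          simp
      have e5 : ∑ x ∈ X, omM M B w f x * G x =
          ∑ e ∈ Finset.range N, omM M B w f (xf e) * G (xf e) := by
        symm
        refine Finset.sum_bij (fun e _ => xf e) (fun e _ => hxf e) ?_ ?_ (fun _ _ => rfl)
        · intro a ha b hb hab
          have h1 := (X.orderEmbOfFin rfl).injective hab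
          rw [Fin.mk.injEq, Nat.mod_eq_of_lt (Finset.mem_range.1 ha),
            Nat.mod_eq_of_lt (Finset.mem_range.1 hb)] at h1
          exact h1
        · intro x hx
          have h1 : x ∈ Set.range (X.orderEmbOfFin rfl) := by
            rw [Finset.range_orderEmbOfFin]
            exact hx
          obtain ⟨i, hi⟩ := h1
          refine ⟨i.1, Finset.mem_range.2 i.2, ?_⟩
          rw [← hi]
          show X.orderEmbOfFin rfl _ = _
          congr 1
          apply Fin.ext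
          exact Nat.mod_eq_of_lt i.2
      rw [e1, e2, e3, e4, e5]
    rw [hsum]
    refine hasSum_of_mod N hN _ _ fun e he => ?_
    have hx : ∀ v : ℕ, xf (v * N + e) = xf e := by
      intro v
      show X.orderEmbOfFin rfl _ = X.orderEmbOfFin rfl _
      congr 1
      apply Fin.ext
      show (v * N + e) % N = e % N
      rw [Nat.add_comm, Nat.add_mul_mod_self_right]
    have hdiv : ∀ v : ℕ, (v * N + e) / N = v := by
      intro v
      rw [Nat.add_comm, Nat.add_mul_div_right _ _ hNpos, Nat.div_eq_of_lt he, zero_add]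
    have h1 := (hG (xf e) (hXP _ (hxf e))).mul_left (omM M B w f (xf e))
    have h2 : (fun v : ℕ => omM M B w f (xf (v * N + e)) *
        F (1 + (((v * N + e) / N : ℕ) : ℝ) + ((xf (v * N + e) : ℚ) : ℝ))) =
        fun v : ℕ => omM M B w f (xf e) * F (1 + (v : ℝ) + ((xf e : ℚ) : ℝ)) := by
      funext v
      rw [hx, hdiv]
    show HasSum (fun v : ℕ => omM M B w f (xf (v * N + e)) *
        F (1 + (((v * N + e) / N : ℕ) : ℝ) + ((xf (v * N + e) : ℚ) : ℝ))) _
    rw [h2]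
    exact h1

end Run7.h317.LV
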