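import Pool.Agent.Run7.h317.LV.Defs

/-!
# The partial fraction coefficients, `p ≤ n` (adapted from `Pool/Agent/W165/OZ/PA.lean`)
-/

open Polynomial Pool.Agent.H337R2

namespace Run7.h317.LV

open Pool.Agent.W165.OZ Pool.Agent.W165.OZ.PAx

noncomputable section

namespace PAe

variable {p : ℕ} [hp : Fact p.Prime]

/-- the power series -/
def fserE (ep n k a b : ℕ) (E : ℕ) : PowerSeries ℚ :=
  TS (-(k : ℚ)) ((C 2 * X + C ((n : ℚ) - 1)) ^ ep) *
    (∏ k' ∈ Finset.Ico (n / 2 - a) (n / 2 - a + 2 * a), Lk k k') *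
    (∏ k' ∈ Finset.Ico (n / 2 - b) (n / 2 - b + 2 * b), Lk k k') *
    ∏ k' ∈ (Finset.range n).erase k, iv (-(k : ℚ) + k') ^ E

lemma pa_eqE {ep n h i i' k ι : ℕ} (hn : 2 ≤ n) (hev : Even n) (hk : k < n)
    (he : i / (n / 2) + i' / (n / 2) ≤ 2 * h) (hι : ι ≤ 2 * h) :
    pa (sP n) (mP h) (numE ep n (Qb n i * Qb n i')) k ι =
      if i / (n / 2) + i' / (n / 2) ≤ 2 * h - ι then
        PowerSeries.coeff (2 * h - ι - (i / (n / 2) + i' / (n / 2)))
          (fserE ep n k (i % (n / 2)) (i' % (n / 2)) (2 * h - (i / (n / 2) + i' / (n / 2)))) else 0 := by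
  have hm : 0 < n / 2 := by omega
  have hj : i % (n / 2) < n / 2 := Nat.mod_lt _ hm
  have hj' : i' % (n / 2) < n / 2 := Nat.mod_lt _ hm
  have h1 : pa (sP n) (mP h) (numE ep n (Qb n i * Qb n i')) k ι =
      PowerSeries.coeff (2 * h - ι) (TS (-(k : ℚ)) (numE ep n (Qb n i * Qb n i')) *
        VV ((sP n).erase k) (mP h) (-(k : ℚ))) := by
    unfold pa
    rw [if_pos hι]
    rfl
  rw [h1, ← PowerSeries.coeff_X_pow_mul']
  congr 1
  have g0 : n / 2 - n / 2 = 0 := Nat.sub_self _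
  have g1 : n / 2 + n / 2 = n := by
    obtain ⟨c, hc⟩ := hev
    omega
  have g2 : n / 2 + i % (n / 2) = n / 2 - i % (n / 2) + 2 * (i % (n / 2)) := by omega
  have g3 : n / 2 + i' % (n / 2) = n / 2 - i' % (n / 2) + 2 * (i' % (n / 2)) := by omega
  have h2 : TS (-(k : ℚ)) (numE ep n (Qb n i * Qb n i')) =
      TS (-(k : ℚ)) ((C 2 * X + C ((n : ℚ) - 1)) ^ ep) *
      ((∏ k' ∈ Finset.range n, Lk k k') ^ (i / (n / 2)) *
        (∏ k' ∈ Finset.Ico (n / 2 - i % (n / 2)) (n / 2 - i % (n / 2) + 2 * (i % (n / 2))), Lk k k') *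
      ((∏ k' ∈ Finset.range n, Lk k k') ^ (i' / (n / 2)) *
        (∏ k' ∈ Finset.Ico (n / 2 - i' % (n / 2)) (n / 2 - i' % (n / 2) + 2 * (i' % (n / 2))),
          Lk k k'))) := by
    unfold numE Qb
    rw [map_mul, Polynomial.mul_comp, Polynomial.mul_comp, Polynomial.mul_comp, Polynomial.pow_comp,
      Polynomial.pow_comp, Gy_comp n _ hev le_rfl, Gy_comp n _ hev hj.le, Gy_comp n _ hev hj'.le,
      map_mul, map_mul, map_mul, map_pow, map_pow, map_pow, TS_prod, TS_prod, TS_prod, g0, g1, g2, g3,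
      ← Finset.range_eq_Ico]
  rw [h2]
  have h3 := cancel (n := n) (h := h) (k := k) hk he
  rw [pow_add] at h3
  unfold fserE
  linear_combination (TS (-(k : ℚ)) ((C 2 * X + C ((n : ℚ) - 1)) ^ ep) *
    (∏ k' ∈ Finset.Ico (n / 2 - i % (n / 2)) (n / 2 - i % (n / 2) + 2 * (i % (n / 2))), Lk k k') *
    (∏ k' ∈ Finset.Ico (n / 2 - i' % (n / 2)) (n / 2 - i' % (n / 2) + 2 * (i' % (n / 2))),
      Lk k k')) * h3

lemma PB_T1E {N : ℕ} (ep n k : ℕ) :
    PB p ((p : ℚ) ^ Nat.log p N) 1 (TS (-(k : ℚ)) ((C 2 * X + C ((n : ℚ) - 1)) ^ ep)) := by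
  have h1 := PB.pow (rho_pos (p := p) N).le zero_le_one (PB_T1 (p := p) (N := N) n k) ep
  rw [one_pow, ← map_pow] at h1
  exact h1

lemma PB_fserE {N ep n k a b E : ℕ} (hN : n ≤ N) (hk : k < n) (ha : a ≤ n / 2) (hb : b ≤ n / 2) :
    PB p ((p : ℚ) ^ Nat.log p N)
      (1 * ((p : ℚ) ^ Nat.log p N * padicNorm p ((2 * a).factorial : ℚ)) *
        ((p : ℚ) ^ Nat.log p N * padicNorm p ((2 * b).factorial : ℚ)) *
        (padicNorm p (n.factorial : ℚ))⁻¹ ^ E) (fserE ep n k a b E) := by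
  have hρ := rho_pos (p := p) N
  have h1 : 0 ≤ (p : ℚ) ^ Nat.log p N * padicNorm p ((2 * a).factorial : ℚ) :=
    mul_nonneg hρ.le (padicNorm.nonneg _)
  have h2 : 0 ≤ (p : ℚ) ^ Nat.log p N * padicNorm p ((2 * b).factorial : ℚ) :=
    mul_nonneg hρ.le (padicNorm.nonneg _)
  have h3 : 0 ≤ (padicNorm p (n.factorial : ℚ))⁻¹ ^ E :=
    pow_nonneg (inv_nonneg.2 (padicNorm.nonneg _)) _
  have h12 : 0 ≤ 1 * ((p : ℚ) ^ Nat.log p N * padicNorm p ((2 * a).factorial : ℚ)) := by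
    rw [one_mul]
    exact h1
  exact PB.mul hρ.le (mul_nonneg h12 h2) h3 (PB.mul hρ.le h12 h2 (PB.mul hρ.le zero_le_one h1
    (PB_T1E ep n k) (PB_g (by omega) (by omega))) (PB_g (by omega) (by omega))) (PB_iv hN hk)

end PAe

open PAe in
/-- PA: the partial fraction coefficients in the adapted basis, `p ≤ n` -/
theorem t_paE (ep : ℕ) (p : ℕ) [Fact p.Prime] (n h B : ℕ) (hn : 2 ≤ n) (hev : Even n) (hh : 1 ≤ h)
    (hB : 1 ≤ B) (hpn : p ≤ n) (i i' k ι : ℕ) (hi : 2 * i < h * n) (hi' : 2 * i' < h * n) (hk : k < n)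
    (hι1 : 1 ≤ ι) (hι2 : ι ≤ 2 * h) :
    padicNorm p (sc n h B i * sc n h B i' * pa (sP n) (mP h) (numE ep n (Qb n i * Qb n i')) k ι) *
      (p : ℚ) ^ (ι * Nat.log p (B * n)) ≤ 1 := by
  have hm : 0 < n / 2 := by omega
  have hnm : n = 2 * (n / 2) := by
    obtain ⟨c, hc⟩ := hev
    omega
  have ha : i / (n / 2) < h := by
    rw [Nat.div_lt_iff_lt_mul hm]
    have h1 : h * n = 2 * (h * (n / 2)) := by
      conv_lhs => rw [hnm]
      ring
    omega
  have ha' : i' / (n / 2) < h := by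
    rw [Nat.div_lt_iff_lt_mul hm]
    have h1 : h * n = 2 * (h * (n / 2)) := by
      conv_lhs => rw [hnm]
      ring
    omega
  have hN : n ≤ B * n := Nat.le_mul_of_pos_left n hB
  rw [pa_eqE hn hev hk (by omega) hι2]
  split_ifs with hc
  · rw [padicNorm.mul, padicNorm.mul, pn_sc hpn, pn_sc hpn, pow_mul']
    have hb := PB_fserE (p := p) (ep := ep) (N := B * n) (n := n) (k := k) (a := i % (n / 2))
      (b := i' % (n / 2)) (E := 2 * h - (i / (n / 2) + i' / (n / 2))) hN hk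
      (Nat.mod_lt _ hm).le (Nat.mod_lt _ hm).le (2 * h - ι - (i / (n / 2) + i' / (n / 2)))
    refine final (E := 2 * h - (i / (n / 2) + i' / (n / 2)))
      (pn_pos (by exact_mod_cast (Nat.factorial_pos _).ne'))
      (pn_pos (by exact_mod_cast (Nat.factorial_pos _).ne'))
      (pn_pos (by exact_mod_cast (Nat.factorial_pos _).ne')) (rho_ge _) (by omega) (by omega) ?_
    have h2 : 2 * h - (i / (n / 2) + i' / (n / 2)) - ι = 2 * h - ι - (i / (n / 2) + i' / (n / 2)) := by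
      omega
    rw [h2]
    exact hb
  · rw [mul_zero, padicNorm.zero, zero_mul]
    exact zero_le_one

end

end Run7.h317.LV
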