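import Pool.Agent.Run7.h317.LV.Defs

/-!
# The size of `PPE` (adapted from `Pool/Agent/W165/OZ/PP.lean`)
-/

set_option autoImplicit false

open Finset

namespace Run7.h317.LV

open Pool.Agent.W165.OZ

/-- PP: the size of `PPE` -/
theorem t_ppE (n h M B : ℕ) (hn : 1 ≤ n) (hM : 1 ≤ M) (hB : 1 ≤ B) :
    Real.log (PPE n h M B) ≤ h * Real.log 4 * (M * ((B : ℝ) * (B + 1))) * (n : ℝ) ^ 2 *
      (1 + Real.log ((M * B : ℕ) : ℝ)) := by
  have hlog4 : 0 ≤ Real.log 4 := Real.log_nonneg (by norm_num)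
  have hlogB : 0 ≤ Real.log ((M * B : ℕ) : ℝ) := Real.log_natCast_nonneg _
  have h1 : Real.log (PPE n h M B : ℝ) =
      ∑ d ∈ Icc 1 B, ∑ k ∈ range n, (2 * (h : ℝ)) *
        ∑ p ∈ (range (M * B * n + 1)).filter (fun p => Nat.Prime p ∧ n < p),
          ((M * d * (k + 1) / p : ℕ) : ℝ) * Real.log p := by
    unfold PPE
    rw [Nat.cast_prod, Real.log_prod]
    · have h2 : ∀ p ∈ (range (M * B * n + 1)).filter (fun p => Nat.Prime p ∧ n < p),
          Real.log ((p ^ (2 * h * SpE n M B p) : ℕ) : ℝ) =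
          ∑ d ∈ Icc 1 B, ∑ k ∈ range n, (2 * (h : ℝ)) *
            (((M * d * (k + 1) / p : ℕ) : ℝ) * Real.log p) := by
        intro p _
        rw [Nat.cast_pow, Real.log_pow]
        unfold SpE
        rw [Nat.cast_mul, Nat.cast_sum, mul_sum, sum_mul]
        refine sum_congr rfl fun d _ => ?_
        rw [Nat.cast_sum, mul_sum, sum_mul]
        refine sum_congr rfl fun k _ => ?_
        push_cast
        ring
      rw [sum_congr rfl h2, sum_comm]
      refine sum_congr rfl fun d _ => ?_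
      rw [sum_comm]
      refine sum_congr rfl fun k _ => ?_
      rw [mul_sum]
    · intro p hp
      rw [mem_filter] at hp
      have := hp.2.1.pos
      positivity
  rw [h1]
  have h3 : ∀ d ∈ Icc 1 B, ∑ k ∈ range n, (2 * (h : ℝ)) *
        ∑ p ∈ (range (M * B * n + 1)).filter (fun p => Nat.Prime p ∧ n < p),
          ((M * d * (k + 1) / p : ℕ) : ℝ) * Real.log p ≤
      ∑ k ∈ range n, (2 * (h : ℝ)) * (((M * d * (k + 1) : ℕ) : ℝ) * Real.log 4 *
        (1 + Real.log ((M * B : ℕ) : ℝ))) := by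
    intro d hd
    rw [mem_Icc] at hd
    refine sum_le_sum fun k hk => ?_
    rw [mem_range] at hk
    refine mul_le_mul_of_nonneg_left (pp_inner n (M * B) (M * d * (k + 1)) ?_) (by positivity)
    exact Nat.mul_le_mul (Nat.mul_le_mul_left M hd.2) hk
  refine (sum_le_sum h3).trans ?_
  have h4 : ∑ d ∈ Icc 1 B, ∑ k ∈ range n, (2 * (h : ℝ)) * (((M * d * (k + 1) : ℕ) : ℝ) *
      Real.log 4 * (1 + Real.log ((M * B : ℕ) : ℝ))) =
      2 * h * Real.log 4 * (1 + Real.log ((M * B : ℕ) : ℝ)) * M *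
        ((∑ d ∈ Icc 1 B, (d : ℝ)) * ∑ k ∈ range n, ((k : ℝ) + 1)) := by
    rw [sum_mul_sum, mul_sum]
    refine sum_congr rfl fun d _ => ?_
    rw [mul_sum]
    refine sum_congr rfl fun k _ => ?_
    rw [Nat.cast_mul (M * d), Nat.cast_mul M d]
    push_cast
    ring
  rw [h4]
  have h5 : ∀ m : ℕ, ∑ k ∈ range m, ((k : ℝ) + 1) = m * (m + 1) / 2 := by
    intro m
    induction m with
    | zero => simp
    | succ m ih =>
      rw [sum_range_succ, ih]
      push_cast
      ring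
  have h6 : ∀ m : ℕ, ∑ d ∈ Icc 1 m, (d : ℝ) = m * (m + 1) / 2 := by
    intro m
    induction m with
    | zero => simp
    | succ m ih =>
      rw [sum_Icc_succ_top (by omega), ih]
      push_cast
      ring
  rw [h5, h6]
  have h7 : (n : ℝ) * (n + 1) / 2 ≤ (n : ℝ) ^ 2 := by
    have : (1 : ℝ) ≤ n := by exact_mod_cast hn
    nlinarith
  calc 2 * h * Real.log 4 * (1 + Real.log ((M * B : ℕ) : ℝ)) * M *
        ((B : ℝ) * (B + 1) / 2 * ((n : ℝ) * (n + 1) / 2))
      ≤ 2 * h * Real.log 4 * (1 + Real.log ((M * B : ℕ) : ℝ)) * M *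
        ((B : ℝ) * (B + 1) / 2 * (n : ℝ) ^ 2) :=
        mul_le_mul_of_nonneg_left (mul_le_mul_of_nonneg_left h7 (by positivity)) (by positivity)
    _ = h * Real.log 4 * (M * ((B : ℝ) * (B + 1))) * (n : ℝ) ^ 2 *
      (1 + Real.log ((M * B : ℕ) : ℝ)) := by ring

end Run7.h317.LV
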