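import Pool.Agent.Run7.h317.LV.SPert
import Pool.Agent.TH818.SA.CO2

/-!
# Simultaneous approximation, periodic Dirichlet series: the perturbed core of the non-vanishing argument
-/

open Polynomial Pool.Agent.H337R2 Filter Topology Pool.Agent.W165.OZ

namespace Run7.h317.LV

open COe
open Pool.Agent.TH818.SA (lagr_poly Lf_sub_seq Lf_prod_bound)

theorem t_co2E (ep N : ℕ) (δ c1 c2 : ℝ) (τ ω : ℕ → ℝ) (hN : Nodes N δ c1 c2 τ ω) (n h : ℕ) (hn : 1 ≤ n)
    (μ : ℕ → ℝ) (hM : MomE ep n h τ ω μ) (μ' : ℕ → ℝ) (E : ℝ) (hE : 0 ≤ E)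
    (hμ : ∀ k, |μ' k - μ k| ≤ E * ((n : ℝ) ^ 2) ^ k)
    (m r0 : ℕ) (hr0 : 1 ≤ r0) (hrm : r0 ≤ m) (hmn : 2 * m ≤ h * n)
    (Q : ℝ[X]) (hQ0 : Q ≠ 0) (hQd : Q.natDegree < r0) (hQ : ∀ j < m, Lf μ' (Q * X ^ j) = 0) :
    1 ≤ ∑ j ∈ Finset.range r0,
    ((∑' i, |ω (i + m)| * (RvE ep n h (τ (i + m)) * yv n (τ (i + m)) ^ ((m - 1) + (r0 - 1)))) +
      E * ((∏ l ∈ Finset.range r0, ((n : ℝ) ^ 2 + yv n (τ l))) *
        ∏ l ∈ Finset.range m, ((n : ℝ) ^ 2 + yv n (τ l)))) /
      (c1 * RvE ep n h (τ j) * (∏ l ∈ (Finset.range m).erase j, |yv n (τ j) - yv n (τ l)|) *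
        (∏ l ∈ (Finset.range r0).erase j, |yv n (τ j) - yv n (τ l)|)) := by
  obtain ⟨y, hydef⟩ : ∃ y : ℕ → ℝ, y = fun i => yv n (τ i) := ⟨_, rfl⟩
  obtain ⟨R, hRdef⟩ : ∃ R : ℕ → ℝ, R = fun i => RvE ep n h (τ i) := ⟨_, rfl⟩
  have hyi : ∀ i, yv n (τ i) = y i := fun i => by rw [hydef]
  have hRi : ∀ i, RvE ep n h (τ i) = R i := fun i => by rw [hRdef]
  have hmono : StrictMono y := by
    rw [hydef]
    exact y_mono hN hn
  have hy1 : ∀ i, 1 ≤ y i := fun i => by
    rw [← hyi]
    exact y_ge hN hn i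
  have hR0 : ∀ i, 0 < R i := fun i => by
    rw [← hRi]
    exact R_pos hN hn i
  simp only [hyi, hRi]
  obtain ⟨Y, hY⟩ : ∃ Y : ℝ, Y = ∑' i, |ω (i + m)| * (R (i + m) * y (i + m) ^ ((m - 1) + (r0 - 1))) :=
    ⟨_, rfl⟩
  rw [← hY]
  obtain ⟨b, hb⟩ : ∃ b : ℝ, b = (n : ℝ) ^ 2 := ⟨_, rfl⟩
  have hb0 : 0 ≤ b := by rw [hb]; positivity
  rw [← hb] at hμ ⊢
  have hby : ∀ l, 1 ≤ b + y l := fun l => by have := hy1 l; linarith
  obtain ⟨G, hG⟩ : ∃ G : ℝ, G = (∏ l ∈ Finset.range r0, (b + y l)) * ∏ l ∈ Finset.range m, (b + y l) :=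
    ⟨_, rfl⟩
  rw [← hG]
  obtain ⟨A, hA⟩ : ∃ A : ℝ, A = ∑ j ∈ Finset.range r0, |Q.eval (y j)| /
      ∏ l ∈ (Finset.range r0).erase j, |y j - y l| := ⟨_, rfl⟩
  have hYs : Summable fun i => |ω (i + m)| * (R (i + m) * y (i + m) ^ ((m - 1) + (r0 - 1))) := by
    have h1 := summ_abs hN hn hM ((m - 1) + (r0 - 1)) (by omega)
    simp only [hyi, hRi] at h1
    exact (summable_nat_add_iff m).2 h1
  -- distances
  have hne : ∀ j l, j ≠ l → 0 < |y j - y l| := fun j l hjl =>
    abs_pos.2 (sub_ne_zero.2 fun h => hjl (hmono.injective h))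
  have hPi : ∀ (M j : ℕ), 0 < ∏ l ∈ (Finset.range M).erase j, |y j - y l| := fun M j =>
    Finset.prod_pos fun l hl => hne j l (Finset.ne_of_mem_erase hl).symm
  have hA0 : 0 < A := by
    by_contra hcon
    apply hQ0
    have hnn : ∀ j ∈ Finset.range r0, 0 ≤ |Q.eval (y j)| /
      ∏ l ∈ (Finset.range r0).erase j, |y j - y l| := fun j _ =>
      div_nonneg (abs_nonneg _) (hPi r0 j).le
    have h1 : A = 0 := le_antisymm (not_lt.1 hcon) (by rw [hA]; exact Finset.sum_nonneg hnn)
    rw [hA, Finset.sum_eq_zero_iff_of_nonneg hnn] at h1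
    refine Polynomial.funext fun x => ?_
    rw [lagr y hmono r0 Q hQd x, eval_zero]
    refine Finset.sum_eq_zero fun j hj => ?_
    have h2 := h1 j hj
    rw [div_eq_zero_iff] at h2
    rcases h2 with h2 | h2
    · rw [abs_eq_zero.1 h2, zero_mul]
    · exact absurd h2 (hPi r0 j).ne'
  -- interpolation
  have hint : ∀ i, |Q.eval (y (i + m))| ≤ A * y (i + m) ^ (r0 - 1) := by
    intro i
    rw [lagr y hmono r0 Q hQd (y (i + m)), hA, Finset.sum_mul]
    refine (Finset.abs_sum_le_sum_abs _ _).trans (Finset.sum_le_sum fun j hj => ?_)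
    have h1 := prod_bd y hmono hy1 r0 (i + m) j (Finset.mem_range.1 hj) (by omega)
    rw [abs_mul, abs_div, Finset.abs_prod ((Finset.range r0).erase j) fun l => y j - y l]
    have h2 := hPi r0 j
    rw [div_mul_eq_mul_div, ← mul_div_assoc]
    gcongr
  -- the key estimate
  have key : ∀ j < r0, c1 * R j * (∏ l ∈ (Finset.range m).erase j, |y j - y l|) *
      |Q.eval (y j)| ≤ A * (Y + E * G) := by
    intro j hj
    have hjm : j < m := by omega
    set P : ℝ[X] := ∏ l ∈ (Finset.range m).erase j, (X - C (y l)) with hP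
    have hPd : P.natDegree = m - 1 := by
      rw [hP, natDegree_finset_prod_X_sub_C_eq_card,
        Finset.card_erase_of_mem (Finset.mem_range.2 hjm), Finset.card_range]
    have hPe : ∀ x, P.eval x = ∏ l ∈ (Finset.range m).erase j, (x - y l) := by
      intro x
      rw [hP, eval_prod]
      exact Finset.prod_congr rfl fun l _ => by simp
    have hL : Lf μ' (Q * P) = 0 := L_zero Q hQ P (by omega)
    have hdeg : (Q * P).natDegree + 2 ≤ h * n := by
      have := natDegree_mul_le (p := Q) (q := P)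
      omega
    -- the perturbation
    have hpert : |Lf (fun k => μ' k - μ k) (Q * P)| ≤ A * (E * G) := by
      have e1 : Q * P = ∑ a ∈ Finset.range r0,
          (Q.eval (y a) / ∏ l ∈ (Finset.range r0).erase a, (y a - y l)) •
            ((∏ l ∈ (Finset.range r0).erase a, (X - C (y l))) * P) := by
        conv_lhs => rw [lagr_poly y hmono r0 Q hQd]
        rw [Finset.sum_mul]
        refine Finset.sum_congr rfl fun a _ => ?_
        rw [smul_eq_C_mul, mul_assoc]
      rw [e1, map_sum, hA, Finset.sum_mul]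
      refine (Finset.abs_sum_le_sum_abs _ _).trans (Finset.sum_le_sum fun a ha => ?_)
      rw [map_smul, smul_eq_mul, abs_mul, abs_div,
        Finset.abs_prod ((Finset.range r0).erase a) fun l => y a - y l]
      refine mul_le_mul_of_nonneg_left ?_ (div_nonneg (abs_nonneg _) (hPi r0 a).le)
      have e2 : (∏ l ∈ (Finset.range r0).erase a, (X - C (y l))) * P =
          ∏ l ∈ ((Finset.range r0).erase a).disjSum ((Finset.range m).erase j),
            (X - C (Sum.elim y y l)) := by
        rw [Finset.prod_disjSum, hP]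
        rfl
      rw [e2]
      refine (Lf_prod_bound b _ _ _ E hμ).trans ?_
      rw [Finset.prod_disjSum]
      refine mul_le_mul_of_nonneg_left ?_ hE
      simp only [Sum.elim_inl, Sum.elim_inr]
      have e3 : ∀ (s : ℕ) (a : ℕ), ∏ l ∈ (Finset.range s).erase a, (b + |y l|) ≤
          ∏ l ∈ Finset.range s, (b + y l) := by
        intro s a
        have e4 : ∏ l ∈ (Finset.range s).erase a, (b + |y l|) =
            ∏ l ∈ (Finset.range s).erase a, (b + y l) :=
          Finset.prod_congr rfl fun l _ => by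
            rw [abs_of_nonneg (by have := hy1 l; linarith)]
        rw [e4]
        refine Finset.prod_le_prod_of_subset_of_one_le (Finset.erase_subset _ _)
          (fun l _ => by have := hby l; linarith) fun l _ _ => hby l
      rw [hG]
      refine mul_le_mul (e3 r0 a) (e3 m j) (Finset.prod_nonneg fun l _ => ?_)
        (Finset.prod_nonneg fun l _ => ?_)
      · have := abs_nonneg (y l); linarith
      · have := hby l; linarith
    rw [Lf_sub_seq, hL, zero_sub, abs_neg] at hpert
    have h1 := hasSum_L hM (Q * P) hdeg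
    simp only [hyi, hRi] at h1
    have h2 := (hasSum_nat_add_iff' m).2 h1
    have h3 : ∑ i ∈ Finset.range m, ω i * (R i * (Q * P).eval (y i)) =
        ω j * (R j * (Q * P).eval (y j)) := by
      refine Finset.sum_eq_single_of_mem j (Finset.mem_range.2 hjm) fun i hi hij => ?_
      have h4 : P.eval (y i) = 0 := by
        rw [hPe]
        exact Finset.prod_eq_zero (Finset.mem_erase.2 ⟨hij, hi⟩) (sub_self _)
      rw [eval_mul, h4]
      ring
    rw [h3] at h2
    have h4 : ‖∑' i, ω (i + m) * (R (i + m) * (Q * P).eval (y (i + m)))‖ ≤ A * Y := by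
      rw [hY]
      refine tsum_of_norm_bounded (hYs.hasSum.mul_left A) fun i => ?_
      rw [Real.norm_eq_abs, abs_mul, abs_mul, abs_of_pos (hR0 (i + m)), eval_mul, abs_mul,
        hPe]
      have h5 := prod_bd y hmono hy1 m (i + m) j hjm (by omega)
      have h6 := (hR0 (i + m)).le
      have h7 := hint i
      have h8 : (0 : ℝ) ≤ y (i + m) := by have := hy1 (i + m); linarith
      calc |ω (i + m)| * (R (i + m) * (|Q.eval (y (i + m))| *
          |∏ l ∈ (Finset.range m).erase j, (y (i + m) - y l)|)) ≤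
          |ω (i + m)| * (R (i + m) * ((A * y (i + m) ^ (r0 - 1)) * y (i + m) ^ (m - 1))) := by
            gcongr
        _ = _ := by rw [pow_add]; ring
    rw [h2.tsum_eq, Real.norm_eq_abs] at h4
    have h5 : |ω j * (R j * (Q * P).eval (y j))| ≤ A * Y + A * (E * G) := by
      have e : ω j * (R j * (Q * P).eval (y j)) =
          Lf μ (Q * P) - (Lf μ (Q * P) - ω j * (R j * (Q * P).eval (y j))) := by ring
      rw [e]
      refine (abs_sub _ _).trans ?_
      linarith
    rw [abs_mul, abs_mul, abs_of_pos (hR0 j), eval_mul, abs_mul, hPe, Finset.abs_prod] at h5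
    refine le_trans (le_of_eq_of_le ?_ (mul_le_mul_of_nonneg_right (hN.wlo j) ?_))
      (h5.trans (le_of_eq (by ring)))
    · ring
    · have := hR0 j
      have := hPi m j
      positivity
  have hc1 := hN.hc1
  have hfin : A ≤ A * ∑ j ∈ Finset.range r0, (Y + E * G) /
      (c1 * R j * (∏ l ∈ (Finset.range m).erase j, |y j - y l|) *
        (∏ l ∈ (Finset.range r0).erase j, |y j - y l|)) := by
    conv_lhs => rw [hA]
    rw [Finset.mul_sum]
    refine Finset.sum_le_sum fun j hj => ?_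
    have h1 := key j (Finset.mem_range.1 hj)
    have h2 := hPi r0 j
    have h3 : 0 < c1 * R j * (∏ l ∈ (Finset.range m).erase j, |y j - y l|) := by
      have := hR0 j
      have := hPi m j
      positivity
    have h4 : |Q.eval (y j)| ≤
        A * (Y + E * G) / (c1 * R j * (∏ l ∈ (Finset.range m).erase j, |y j - y l|)) := by
      rw [le_div_iff₀ h3]
      linarith
    calc |Q.eval (y j)| / (∏ l ∈ (Finset.range r0).erase j, |y j - y l|)
        ≤ A * (Y + E * G) / (c1 * R j * (∏ l ∈ (Finset.range m).erase j, |y j - y l|)) /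
          (∏ l ∈ (Finset.range r0).erase j, |y j - y l|) := by gcongr
      _ = A * ((Y + E * G) / (c1 * R j * (∏ l ∈ (Finset.range m).erase j, |y j - y l|) *
        (∏ l ∈ (Finset.range r0).erase j, |y j - y l|))) := by
          rw [div_div, mul_div_assoc]
  exact le_of_mul_le_mul_left (by rw [mul_one]; exact hfin) hA0

end Run7.h317.LV
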