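import Pool.Agent.Run7.h317.LV.SNV2
import Pool.Agent.Run7.h317.LV.SAS2
import Pool.Agent.TH818.SA.ES

/-!
# Simultaneous approximation, periodic Dirichlet series: the choice of parameters
(adapted from `Pool/Agent/TH818/SA/ES.lean`; the letter `T` is the period)
-/

open Polynomial Pool.Agent.H337R2 Filter Topology Pool.Agent.W165.OZ

namespace Run7.h317.LV

noncomputable section

/-- the choice of the parameters -/
theorem t_fi2E : ∃ s0 : ℕ, ∀ s ≥ s0, ∀ D T : ℕ, 1 ≤ D → 1 ≤ T →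
  (D : ℝ) ≤ (1 / 1000) * Real.log (Real.log s) →
  (D : ℝ) ^ 2 * T ≤ (1 / 1000) ^ 2 * (s * Real.log (Real.log s) / Real.log s) → ∃ h B : ℕ,
  2 * h ≤ s ∧ 1 ≤ B ∧ 32 * D * (T * (B * (B + 1))) ≤ h ∧
  (1 / 1000) / D * Real.sqrt (s * Real.log (Real.log s) / (T * Real.log s)) ≤ B ∧
  D * (52 + 90 * D * (T * ((B : ℝ) * (B + 1)) / h * (1 + Real.log ((T * B : ℕ) : ℝ)))) ≤
    Real.log ((h : ℝ) / (16 * D * (T * (B * (B + 1))))) := by
  obtain ⟨c, hc⟩ : ∃ c : ℝ, c = 1 / 1000 := ⟨_, rfl⟩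
  have hc0 : 0 < c := by rw [hc]; norm_num
  rw [← hc]
  have e1 : ∀ᶠ s : ℕ in atTop, Real.log s * Real.log s ≤ s := by
    have h1 := (Real.isLittleO_pow_log_id_atTop (n := 2)).bound (show (0 : ℝ) < 1 by norm_num)
    have h2 := (tendsto_natCast_atTop_atTop (R := ℝ)).eventually h1
    filter_upwards [h2] with s hs
    have hs' : ‖Real.log (s : ℝ) ^ 2‖ ≤ 1 * ‖(s : ℝ)‖ := by simpa using hs
    rw [one_mul, Real.norm_eq_abs, Real.norm_eq_abs, abs_of_nonneg (by positivity : (0 : ℝ) ≤ (s : ℝ)),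
      abs_of_nonneg (sq_nonneg _), sq] at hs'
    exact hs'
  have e2 : ∀ᶠ s : ℕ in atTop, 3 ≤ Real.log s :=
    (Real.tendsto_log_atTop.comp tendsto_natCast_atTop_atTop).eventually_ge_atTop 3
  obtain ⟨s0, hs0⟩ := eventually_atTop.1 (e1.and e2)
  refine ⟨s0, fun s hs D T hD hT hDL hDT => ?_⟩
  obtain ⟨h1, h2⟩ := hs0 s hs
  obtain ⟨L1, hL1⟩ : ∃ L, L = Real.log s := ⟨_, rfl⟩
  obtain ⟨L2, hL2⟩ : ∃ L, L = Real.log L1 := ⟨_, rfl⟩
  rw [← hL1] at h1 h2 hDL hDT ⊢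
  rw [← hL2] at hDL hDT ⊢
  have hs2 : (4 : ℝ) ≤ s := by
    by_contra hcon
    push Not at hcon
    have hsp : (0 : ℝ) < s := by
      rcases Nat.eq_zero_or_pos s with h | h
      · subst h
        simp at hL1
        linarith
      · exact_mod_cast h
    have := Real.log_le_sub_one_of_pos hsp
    rw [← hL1] at this
    linarith
  have hs4 : 4 ≤ s := by exact_mod_cast hs2
  have hL2p : 0 < L2 := by
    rw [hL2]
    exact Real.log_pos (by linarith)
  have hL21 : L2 ≤ L1 := by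
    rw [hL2]
    have := Real.log_le_sub_one_of_pos (show 0 < L1 by linarith)
    linarith
  have hD1 : (1 : ℝ) ≤ D := by exact_mod_cast hD
  have hT1 : (1 : ℝ) ≤ T := by exact_mod_cast hT
  have hL1p : 0 < L1 := by linarith
  obtain ⟨x, hx⟩ : ∃ x, x = (s : ℝ) * L2 / (T * L1) / (D : ℝ) ^ 2 := ⟨_, rfl⟩
  have hsx : c / D * Real.sqrt ((s : ℝ) * L2 / (T * L1)) = c * Real.sqrt x := by
    rw [hx, Real.sqrt_div' ((s : ℝ) * L2 / (T * L1)) (show (0 : ℝ) ≤ (D : ℝ) ^ 2 by positivity),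
      Real.sqrt_sq (by positivity)]
    ring
  rw [hsx]
  have hxp : 0 < x := by
    rw [hx]
    positivity
  have hx1 : (1 / c) ^ 2 ≤ x := by
    rw [hx, le_div_iff₀ (by positivity), le_div_iff₀ (by positivity)]
    calc (1 / c) ^ 2 * (D : ℝ) ^ 2 * (T * L1) = ((1 / c) ^ 2 * L1) * ((D : ℝ) ^ 2 * T) := by ring
      _ ≤ ((1 / c) ^ 2 * L1) * (c ^ 2 * (s * L2 / L1)) := mul_le_mul_of_nonneg_left hDT (by positivity)
      _ = s * L2 := by field_simp
  have hsq : 1 / c ≤ Real.sqrt x := Real.le_sqrt_of_sq_le hx1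
  have hcs : 1 ≤ c * Real.sqrt x := by
    calc 1 = c * (1 / c) := by field_simp
      _ ≤ _ := mul_le_mul_of_nonneg_left hsq hc0.le
  obtain ⟨B, hB⟩ : ∃ B, B = ⌈c * Real.sqrt x⌉₊ := ⟨_, rfl⟩
  have hB1 : c * Real.sqrt x ≤ B := by
    rw [hB]
    exact Nat.le_ceil _
  have hB2 : (B : ℝ) ≤ 2 * (c * Real.sqrt x) := by
    have := (Nat.ceil_lt_add_one (show 0 ≤ c * Real.sqrt x by positivity)).le
    rw [← hB] at this
    linarith
  have hB3 : (1 : ℝ) ≤ B := hcs.trans hB1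
  have hB4 : (B : ℝ) * (B + 1) ≤ 8 * c ^ 2 * x := by
    have h3 : (B : ℝ) * (B + 1) ≤ 2 * (B : ℝ) ^ 2 := by nlinarith
    have h4 : (B : ℝ) ^ 2 ≤ (2 * (c * Real.sqrt x)) ^ 2 :=
      pow_le_pow_left₀ (by linarith) hB2 2
    have h5 : (2 * (c * Real.sqrt x)) ^ 2 = 4 * c ^ 2 * x := by
      rw [mul_pow, mul_pow, Real.sq_sqrt hxp.le]
      ring
    linarith
  obtain ⟨h, hh⟩ : ∃ h, h = s / 2 := ⟨_, rfl⟩
  have hh1 : 2 * h ≤ s := by omega
  have hh2 : (s : ℝ) / 4 ≤ h := by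
    have h3 : s ≤ 4 * h := by omega
    have h4 : (s : ℝ) ≤ 4 * h := by exact_mod_cast h3
    linarith
  have hhp : (0 : ℝ) < h := by linarith
  -- the quotient
  have hy : T * ((B : ℝ) * (B + 1)) / h ≤ 32 * c ^ 2 * L2 / ((D : ℝ) ^ 2 * L1) := by
    rw [div_le_div_iff₀ hhp (by positivity)]
    have h3 : T * (8 * c ^ 2 * x) * ((D : ℝ) ^ 2 * L1) = 8 * c ^ 2 * (s * L2) := by
      rw [hx]
      field_simp
    calc T * ((B : ℝ) * (B + 1)) * ((D : ℝ) ^ 2 * L1) ≤ T * (8 * c ^ 2 * x) * ((D : ℝ) ^ 2 * L1) := by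
          gcongr
      _ = 32 * c ^ 2 * L2 * (s / 4) := by rw [h3]; ring
      _ ≤ 32 * c ^ 2 * L2 * h := mul_le_mul_of_nonneg_left hh2 (by positivity)
  have hDy : D * (T * ((B : ℝ) * (B + 1)) / h) ≤ 32 * c ^ 2 * (L2 / L1) := by
    calc D * (T * ((B : ℝ) * (B + 1)) / h) ≤ D * (32 * c ^ 2 * L2 / ((D : ℝ) ^ 2 * L1)) :=
          mul_le_mul_of_nonneg_left hy (by positivity)
      _ = (32 * c ^ 2 * (L2 / L1)) * (1 / D) := by field_simp
      _ ≤ (32 * c ^ 2 * (L2 / L1)) * 1 := by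
          apply mul_le_mul_of_nonneg_left _ (by positivity)
          rw [div_le_one (by positivity)]
          exact hD1
      _ = _ := mul_one _
  have hyp : 0 < T * ((B : ℝ) * (B + 1)) / h := by positivity
  have h32 : 32 * D * (T * (B * (B + 1))) ≤ h := by
    have h3 : L2 / L1 ≤ 1 := by
      rw [div_le_one hL1p]
      exact hL21
    have h4 : D * (T * ((B : ℝ) * (B + 1)) / h) ≤ 1 / 32 := by
      refine hDy.trans ?_
      have : 32 * c ^ 2 * (L2 / L1) ≤ 32 * c ^ 2 * 1 := mul_le_mul_of_nonneg_left h3 (by positivity)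
      refine this.trans ?_
      rw [hc]
      norm_num
    rw [← mul_div_assoc, div_le_iff₀ hhp] at h4
    have h5 : (32 : ℝ) * D * (T * (B * (B + 1))) ≤ h := by linarith
    exact_mod_cast h5
  have hTB1 : (1 : ℝ) ≤ ((T * B : ℕ) : ℝ) := by
    push_cast
    nlinarith
  have hBs : ((T * B : ℕ) : ℝ) ≤ s := by
    have h3 : T * B ≤ s := by
      have h4 : T * (B * 1) ≤ T * (B * (B + 1)) := Nat.mul_le_mul_left T (Nat.mul_le_mul_left B (by omega))
      have h5 : 1 * (T * (B * (B + 1))) ≤ 32 * D * (T * (B * (B + 1))) := Nat.mul_le_mul_right _ (by omega)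
      rw [mul_one] at h4
      omega
    exact_mod_cast h3
  have hlB : 1 + Real.log ((T * B : ℕ) : ℝ) ≤ 2 * L1 := by
    have h3 := Real.log_le_log (by linarith) hBs
    rw [← hL1] at h3
    linarith
  have hlB0 : 0 ≤ 1 + Real.log ((T * B : ℕ) : ℝ) := by
    have := Real.log_nonneg hTB1
    linarith
  refine ⟨h, B, hh1, by exact_mod_cast hB3, h32, hB1, ?_⟩
  have hleft : D * (52 + 90 * D * (T * ((B : ℝ) * (B + 1)) / h * (1 + Real.log ((T * B : ℕ) : ℝ)))) ≤ L2 / 2 := by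
    have h3 : (T * ((B : ℝ) * (B + 1)) / h) * (1 + Real.log ((T * B : ℕ) : ℝ)) ≤
        (32 * c ^ 2 * L2 / ((D : ℝ) ^ 2 * L1)) * (2 * L1) :=
      mul_le_mul hy hlB hlB0 (by positivity)
    calc D * (52 + 90 * D * (T * ((B : ℝ) * (B + 1)) / h * (1 + Real.log ((T * B : ℕ) : ℝ)))) ≤
          D * (52 + 90 * D * ((32 * c ^ 2 * L2 / ((D : ℝ) ^ 2 * L1)) * (2 * L1))) := by gcongr
      _ = 52 * D + 5760 * c ^ 2 * L2 := by field_simp; ring
      _ ≤ 52 * (c * L2) + 5760 * c ^ 2 * L2 := by linarith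
      _ ≤ L2 / 2 := by
        rw [hc]
        norm_num
        linarith
  have hright : L2 / 2 ≤ Real.log ((h : ℝ) / (16 * D * (T * (B * (B + 1))))) := by
    have h4 : L1 / L2 ≤ (h : ℝ) / (16 * D * (T * (B * (B + 1)))) := by
      rw [div_le_div_iff₀ hL2p (by positivity)]
      rw [← mul_div_assoc, div_le_iff₀ hhp] at hDy
      have h5 : L1 * (16 * D * (T * (B * (B + 1)))) = 16 * L1 * (D * (T * ((B : ℝ) * (B + 1)))) := by ring
      rw [h5]
      have h6 : 16 * L1 * (D * (T * ((B : ℝ) * (B + 1)))) ≤ 16 * L1 * (32 * c ^ 2 * (L2 / L1) * h) :=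
        mul_le_mul_of_nonneg_left hDy (by positivity)
      refine h6.trans ?_
      have h7 : 16 * L1 * (32 * c ^ 2 * (L2 / L1) * h) = (512 * c ^ 2) * (h * L2) := by
        field_simp
        ring
      rw [h7]
      have h8 : 512 * c ^ 2 ≤ 1 := by rw [hc]; norm_num
      have h9 : 0 ≤ (h : ℝ) * L2 := by positivity
      nlinarith
    have h5 := Real.log_le_log (by positivity) h4
    rw [Real.log_div hL1p.ne' hL2p.ne', ← hL2] at h5
    have h6 : Real.log L2 ≤ L2 / 2 := by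
      have h7 := Real.log_le_sub_one_of_pos (show 0 < L2 / 2 by positivity)
      rw [Real.log_div hL2p.ne' (by norm_num)] at h7
      have h8 := Real.log_two_lt_d9
      linarith
    linarith
  linarith

end

end Run7.h317.LV
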