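import Pool.Agent.TH818.SA.ES

/-!
# Simultaneous approximation: the size of the perturbation (adapted from `Pool/Agent/TH818/SA/ES.lean`, with
another power of `n`)
-/

open Polynomial Pool.Agent.H337R2 Filter Topology Pool.Agent.W165.OZ

namespace Run7.h317.LV

noncomputable section

theorem t_es4 (N h D : ℕ) (hN : 1 ≤ N) (hD : 1 ≤ D) (hDN : 64 * D * N ≤ h) (Cc c0 V : ℝ) (hCc : 0 < Cc)
    (hc0 : 0 < c0) (hV : 2 * Real.log ((h : ℝ) / (32 * D * N)) + 13 ≤ V) :
    ∃ ν0 : ℕ, ∀ ν ≥ ν0, ∀ n m M : ℕ, n = 4 * D * ν → m = h * ν → M = 2 * D * h * ν → 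
      ∀ η : ℝ, 0 < η → Real.log η ≤ -(V * (h * (n - 4 * D))) →
      η * Cc * (n : ℝ) ^ 4 * ((8 : ℝ) ^ n / n.factorial) ^ (2 * h) * 16 ^ m * MM N m ^ (4 * M) ≤ c0 := by
  have hh64 : 64 ≤ h := by
    have : 1 * 1 ≤ D * N := Nat.mul_le_mul hD hN
    have : 64 * (D * N) ≤ h := by rw [← mul_assoc]; exact hDN
    omega
  have hN' : (1 : ℝ) ≤ N := by exact_mod_cast hN
  have hD' : (1 : ℝ) ≤ D := by exact_mod_cast hD
  have hh' : (64 : ℝ) ≤ h := by exact_mod_cast hh64
  have hDN' : 64 * (D : ℝ) * N ≤ h := by exact_mod_cast hDN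
  set lam : ℝ := Real.log ((h : ℝ) / (32 * D * N)) with hlam
  set K0 : ℝ := V * (h * (4 * D)) + Real.log Cc - Real.log c0 with hK0
  obtain ⟨n1, hn1⟩ := as_growth K0 4 0
  refine ⟨max 1 n1, fun ν hν n m M hn hm hM η hη hlη => ?_⟩
  have hν1 : 1 ≤ ν := (le_max_left _ _).trans hν
  have hnν : ν ≤ n := by
    rw [hn]
    have : 1 * ν ≤ (4 * D) * ν := Nat.mul_le_mul_right ν (by omega)
    omega
  obtain ⟨hn1', hgr⟩ := hn1 n (((le_max_right _ _).trans hν).trans hnν)
  have hnR : (1 : ℝ) ≤ n := by exact_mod_cast hn1'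
  have hnpos : (0 : ℝ) < n := by linarith
  have hνpos : (0 : ℝ) < ν := by exact_mod_cast hν1
  have hnνR : (n : ℝ) = 4 * D * ν := by rw [hn]; push_cast; ring
  have hmνR : (m : ℝ) = h * ν := by rw [hm]; push_cast; ring
  have hMhR : 4 * (M : ℝ) = 2 * (h * n) := by rw [hM, hn]; push_cast; ring
  -- the maximum
  have hMM : MM N m = (n : ℝ) * 8 * ((h : ℝ) / (32 * D * N)) := by
    have e1 : (m : ℝ) / N = (n : ℝ) * 8 * ((h : ℝ) / (32 * D * N)) := by
      rw [hmνR, hnνR]
      field_simp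
      ring
    unfold MM
    rw [← e1]
    apply max_eq_right
    rw [le_div_iff₀ (by linarith), hmνR]
    have e2 : (N : ℝ) ≤ h := by nlinarith
    have e3 : (1 : ℝ) ≤ ν := by exact_mod_cast hν1
    nlinarith
  have hlMM : Real.log (MM N m) = Real.log n + Real.log 8 + lam := by
    rw [hMM, Real.log_mul (by positivity) (by positivity), Real.log_mul (by positivity) (by norm_num)]
  have hMMpos : 0 < MM N m := by rw [hMM]; positivity
  have hfpos : (0 : ℝ) < (n.factorial : ℝ) := by exact_mod_cast n.factorial_pos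
  have hpos : 0 < η * Cc * (n : ℝ) ^ 4 * ((8 : ℝ) ^ n / n.factorial) ^ (2 * h) * 16 ^ m *
      MM N m ^ (4 * M) := by positivity
  rw [← Real.log_le_log_iff hpos hc0]
  rw [Real.log_mul (by positivity) (by positivity), Real.log_mul (by positivity) (by positivity),
    Real.log_mul (by positivity) (by positivity), Real.log_mul (by positivity) (by positivity),
    Real.log_mul (by positivity) (by positivity), Real.log_pow, Real.log_pow, Real.log_pow, Real.log_pow,
    Real.log_div (by positivity) (by positivity), Real.log_pow, hlMM]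
  have hf := ls_fact n hn1'
  have hl8 : Real.log 8 = 3 * Real.log 2 := by
    rw [show (8 : ℝ) = 2 ^ 3 by norm_num, Real.log_pow]; norm_num
  have hl16 : Real.log 16 = 4 * Real.log 2 := by
    rw [show (16 : ℝ) = 2 ^ 4 by norm_num, Real.log_pow]; norm_num
  have hl2 := Real.log_two_lt_d9
  have hl2p : 0 < Real.log 2 := Real.log_pos (by norm_num)
  have hhn : 0 < (h : ℝ) * n := by positivity
  have hV2 : V * (h * (n - 4 * D)) = V * (h * n) - V * (h * (4 * D)) := by ring
  rw [hV2] at hlη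
  have hV3 : (2 * lam + 13) * (h * n) ≤ V * (h * n) := mul_le_mul_of_nonneg_right hV hhn.le
  push_cast
  have e1 : 2 * (h : ℝ) * (n * Real.log 8 - Real.log n.factorial) ≤
      2 * h * (n * Real.log 8 - (n * Real.log n - n)) :=
    mul_le_mul_of_nonneg_left (by linarith) (by positivity)
  have e2 : (m : ℝ) * Real.log 16 ≤ (h * n) * Real.log 2 := by
    rw [hl16]
    have e3 : (m : ℝ) * 4 ≤ h * n := by
      rw [hmνR, hnνR]
      have : (h : ℝ) * ν * 4 * 1 ≤ h * ν * 4 * D := mul_le_mul_of_nonneg_left hD' (by positivity)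
      linarith
    have := mul_le_mul_of_nonneg_right e3 hl2p.le
    linarith
  rw [hMhR, hl8]
  rw [hl8] at e1
  have e4 : (h * n) * (13 * Real.log 2) ≤ ((h : ℝ) * n) * 9.1 :=
    mul_le_mul_of_nonneg_left (by norm_num at hl2 ⊢; linarith) hhn.le
  have e5 : 6 * (n : ℝ) ≤ (6 / 64) * (h * n) := by
    have : 64 * (n : ℝ) ≤ h * n := mul_le_mul_of_nonneg_right hh' hnpos.le
    linarith
  rw [zero_mul, add_zero, hK0] at hgr
  have e6 : 2 * (h : ℝ) * (n * (3 * Real.log 2) - (n * Real.log n - n)) =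
      6 * ((h * n) * Real.log 2) - 2 * ((h * n) * Real.log n) + 2 * (h * n) := by ring
  rw [e6] at e1
  have e7 : 2 * ((h : ℝ) * n) * (Real.log n + 3 * Real.log 2 + lam) =
      2 * ((h * n) * Real.log n) + 6 * ((h * n) * Real.log 2) + 2 * ((h * n) * lam) := by ring
  rw [e7]
  have e8 : (2 * lam + 13) * (h * n) = 2 * ((h * n) * lam) + 13 * (h * n) := by ring
  rw [e8] at hV3
  have e9 : (h * n) * (13 * Real.log 2) = 13 * (((h : ℝ) * n) * Real.log 2) := by ring
  rw [e9] at e4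
  linarith


end

end Run7.h317.LV
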