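import Pool.Agent.Run7.h317.LV.SMV
import Pool.Agent.Run7.h317.LV.Fin
import Pool.Agent.TH818.SA.Sub

/-!
# Values of periodic Dirichlet series outside finite-dimensional rational subspaces
-/

open Filter Topology

namespace Run7.h317.LV

open Pool.Agent.TH818.SA (sim_sub)

noncomputable section

/-- the conditions on the parameters -/
def Par (s D T B : ℕ) : Prop := ∃ h : ℕ, 2 * h ≤ s ∧ 1 ≤ B ∧ 32 * D * (T * (B * (B + 1))) ≤ h ∧
  D * (52 + 90 * D * (T * ((B : ℝ) * (B + 1)) / h * (1 + Real.log ((T * B : ℕ) : ℝ)))) ≤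
    Real.log ((h : ℝ) / (16 * D * (T * (B * (B + 1)))))

/-- Simultaneous approximation of the values relative to the coefficients. -/
theorem v_simC (s D T B : ℕ) (hD : 1 ≤ D) (hT : 1 ≤ T) (hP : Par s D T B)
    (g : ℕ → ℝ) (hgp : ∀ u, g (u + T) = g u) (hg0 : ∃ u, g u ≠ 0) (a : ℕ) (ha : a < 2) :
    ∃ q0 : ℕ, ∀ q : ℕ, q0 ≤ q → (∀ v, ∃ p : ℤ, |(q : ℝ) * g v - p| < (q : ℝ) ^ (-(1 / (D : ℝ)))) →
    (B : ℝ) ≤ (Set.ncard {i : ℕ | 2 ≤ i ∧ i ≤ s ∧ i % 2 = a ∧ ∀ p : ℤ,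
        (q : ℝ) ^ (-(1 / (D : ℝ))) ≤ |(q : ℝ) * (∑' n : ℕ, g (n + 1) / ((n : ℝ) + 1) ^ i) - p|} : ℝ) := by
  obtain ⟨h, h1, h2, h3, h5⟩ := hP
  obtain ⟨q0, hq0⟩ := t_mainV a (by omega) h T B D hD hT h2 h3 h5 g hgp hg0
  refine ⟨q0, fun q hq hgq => ?_⟩
  obtain ⟨I, hI, hI2⟩ := hq0 q hq hgq
  have hfin : {i : ℕ | 2 ≤ i ∧ i ≤ s ∧ i % 2 = a ∧ ∀ p : ℤ,
        (q : ℝ) ^ (-(1 / (D : ℝ))) ≤
          |(q : ℝ) * (∑' n : ℕ, g (n + 1) / ((n : ℝ) + 1) ^ i) - p|}.Finite :=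
    (Set.finite_Iic s).subset fun i hi => hi.2.1
  have hsub : (I : Set ℕ) ⊆ {i : ℕ | 2 ≤ i ∧ i ≤ s ∧ i % 2 = a ∧ ∀ p : ℤ,
        (q : ℝ) ^ (-(1 / (D : ℝ))) ≤
          |(q : ℝ) * (∑' n : ℕ, g (n + 1) / ((n : ℝ) + 1) ^ i) - p|} := by
    intro i hi
    obtain ⟨a1, a2, a3, a4⟩ := hI2 i hi
    exact ⟨a1, a2.trans h1, by omega, a4⟩
  have h6 := Set.ncard_le_ncard hsub hfin
  rw [Set.ncard_coe_finset] at h6
  exact_mod_cast hI.trans h6

/-- real coefficients -/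
theorem v_subRC (s D T B : ℕ) (hT : 1 ≤ T) (hP : Par s (D + 1) T B)
    (V : Submodule ℚ ℝ) (hV : FiniteDimensional ℚ V) (hVD : Module.finrank ℚ V ≤ D)
    (g : ℕ → ℝ) (hgV : ∀ u, g u ∈ V) (hgp : ∀ u, g (u + T) = g u) (hg0 : ∃ u, g u ≠ 0)
    (a : ℕ) (ha : a < 2) :
    (B : ℝ) ≤ (Set.ncard {i : ℕ | 2 ≤ i ∧ i ≤ s ∧ i % 2 = a ∧
        (∑' n : ℕ, g (n + 1) / ((n : ℝ) + 1) ^ i) ∉ V} : ℝ) := by
  classical
  obtain ⟨q0, hq0⟩ := v_simC s (D + 1) T B (by omega) hT hP g hgp hg0 a ha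
  -- the values and the coefficients in one sequence
  obtain ⟨x, hx⟩ : ∃ x : ℕ → ℝ, x = fun j => if j % 2 = 0 then
      (∑' n : ℕ, g (n + 1) / ((n : ℝ) + 1) ^ (j / 2)) else g (j / 2) := ⟨_, rfl⟩
  obtain ⟨J, hJ⟩ : ∃ J : Finset ℕ, J = ((Finset.Icc 2 s).filter (fun i => i % 2 = a ∧
    (∑' n : ℕ, g (n + 1) / ((n : ℝ) + 1) ^ i) ∈ V)).image (fun i => 2 * i) ∪
      (Finset.range T).image (fun v => 2 * v + 1) := ⟨_, rfl⟩
  obtain ⟨q, hqq0, hq⟩ := sim_sub V D hVD J x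
    (fun j hj => by
      rw [hJ, Finset.mem_union, Finset.mem_image, Finset.mem_image] at hj
      rcases hj with ⟨i, hi, rfl⟩ | ⟨v, hv, rfl⟩
      · rw [Finset.mem_filter] at hi
        rw [hx]
        simp only [Nat.mul_mod_right, if_true]
        rw [show 2 * i / 2 = i by omega]
        exact hi.2.2
      · rw [hx]
        simp only
        rw [if_neg (by omega), show (2 * v + 1) / 2 = v by omega]
        exact hgV v) q0
  have hqL : ∀ i, 2 ≤ i → i ≤ s → i % 2 = a → (∑' n : ℕ, g (n + 1) / ((n : ℝ) + 1) ^ i) ∈ V →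
      ∃ p : ℤ, |(q : ℝ) * (∑' n : ℕ, g (n + 1) / ((n : ℝ) + 1) ^ i) - p| <
        (q : ℝ) ^ (-(1 / ((D : ℝ) + 1))) := by
    intro i a1 a2 a3 hmem
    have hiJ : 2 * i ∈ J := by
      rw [hJ, Finset.mem_union]
      left
      rw [Finset.mem_image]
      refine ⟨i, ?_, rfl⟩
      rw [Finset.mem_filter, Finset.mem_Icc]
      exact ⟨⟨a1, a2⟩, a3, hmem⟩
    obtain ⟨p, hp⟩ := hq _ hiJ
    refine ⟨p, ?_⟩
    rw [hx] at hp
    simp only [Nat.mul_mod_right, if_true] at hp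
    rwa [show 2 * i / 2 = i by omega] at hp
  have hqv : ∀ v, ∃ p : ℤ, |(q : ℝ) * g v - p| < (q : ℝ) ^ (-(1 / ((D + 1 : ℕ) : ℝ))) := by
    intro v
    have hmod : g v = g (v % T) := by
      have hmul : ∀ b u, g (u + T * b) = g u := by
        intro b
        induction b with
        | zero => intro u; simp
        | succ b ih =>
          intro u
          have : u + T * (b + 1) = (u + T * b) + T := by ring
          rw [this, hgp, ih]
      conv_lhs => rw [← Nat.mod_add_div v T]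
      exact hmul _ _
    have hiJ : 2 * (v % T) + 1 ∈ J := by
      rw [hJ, Finset.mem_union]
      right
      rw [Finset.mem_image]
      exact ⟨v % T, Finset.mem_range.2 (Nat.mod_lt _ hT), rfl⟩
    obtain ⟨p, hp⟩ := hq _ hiJ
    refine ⟨p, ?_⟩
    rw [hx] at hp
    simp only at hp
    rw [if_neg (by omega), show (2 * (v % T) + 1) / 2 = v % T by omega] at hp
    rw [hmod]
    push_cast
    exact hp
  have h2 := hq0 q hqq0 hqv
  refine h2.trans ?_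
  have hfin : {i : ℕ | 2 ≤ i ∧ i ≤ s ∧ i % 2 = a ∧
      (∑' n : ℕ, g (n + 1) / ((n : ℝ) + 1) ^ i) ∉ V}.Finite :=
    (Set.finite_Iic s).subset fun i hi => hi.2.1
  have hsub : {i : ℕ | 2 ≤ i ∧ i ≤ s ∧ i % 2 = a ∧ ∀ p : ℤ, (q : ℝ) ^ (-(1 / ((D + 1 : ℕ) : ℝ))) ≤
      |(q : ℝ) * (∑' n : ℕ, g (n + 1) / ((n : ℝ) + 1) ^ i) - p|} ⊆
      {i : ℕ | 2 ≤ i ∧ i ≤ s ∧ i % 2 = a ∧ (∑' n : ℕ, g (n + 1) / ((n : ℝ) + 1) ^ i) ∉ V} := by
    rintro i ⟨a1, a2, a3, a4⟩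
    refine ⟨a1, a2, a3, fun hmem => ?_⟩
    obtain ⟨p, hp⟩ := hqL i a1 a2 a3 hmem
    have h4 := a4 p
    push_cast at h4
    linarith
  exact_mod_cast Set.ncard_le_ncard hsub hfin

/-- complex coefficients -/
theorem v_subCC (s D T B : ℕ) (hT : 1 ≤ T) (hP : Par s (D + 1) T B)
    (V : Submodule ℚ ℂ) (hV : FiniteDimensional ℚ V) (hVD : Module.finrank ℚ V ≤ D)
    (f : ℕ → ℂ) (hfV : ∀ u, f u ∈ V) (hfp : ∀ u, f (u + T) = f u) (hf0 : ∃ u, f u ≠ 0)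
    (a : ℕ) (ha : a < 2) :
    (B : ℝ) ≤ (Set.ncard {i : ℕ | 2 ≤ i ∧ i ≤ s ∧ i % 2 = a ∧
        (∑' n : ℕ, f (n + 1) / ((n : ℂ) + 1) ^ i) ∉ V} : ℝ) := by
  -- a rational-linear projection to the real line which does not kill `f`
  have key : ∀ (π : ℂ →ₗ[ℚ] ℝ), (∀ (F : ℕ → ℂ), Summable F → π (∑' n, F n) = ∑' n, π (F n)) →
      (∀ (z : ℂ) (r : ℝ), π (z / (r : ℂ)) = π z / r) → (∃ u, π (f u) ≠ 0) →
      (B : ℝ) ≤ (Set.ncard {i : ℕ | 2 ≤ i ∧ i ≤ s ∧ i % 2 = a ∧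
        (∑' n : ℕ, f (n + 1) / ((n : ℂ) + 1) ^ i) ∉ V} : ℝ) := by
    intro π hsum hdiv hne
    have hfd : FiniteDimensional ℚ (V.map π) := inferInstance
    have hfr : Module.finrank ℚ (V.map π) ≤ D := (Submodule.finrank_map_le π V).trans hVD
    refine (v_subRC s D T B hT hP (V.map π) hfd hfr (fun u => π (f u))
      (fun u => Submodule.mem_map_of_mem (hfV u)) (fun u => by simp only [hfp]) hne a ha).trans ?_
    have hfin : {i : ℕ | 2 ≤ i ∧ i ≤ s ∧ i % 2 = a ∧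
        (∑' n : ℕ, f (n + 1) / ((n : ℂ) + 1) ^ i) ∉ V}.Finite :=
      (Set.finite_Iic s).subset fun i hi => hi.2.1
    have hsub : {i : ℕ | 2 ≤ i ∧ i ≤ s ∧ i % 2 = a ∧
        (∑' n : ℕ, π (f (n + 1)) / ((n : ℝ) + 1) ^ i) ∉ V.map π} ⊆
        {i : ℕ | 2 ≤ i ∧ i ≤ s ∧ i % 2 = a ∧ (∑' n : ℕ, f (n + 1) / ((n : ℂ) + 1) ^ i) ∉ V} := by
      rintro i ⟨a1, a2, a3, a4⟩
      refine ⟨a1, a2, a3, fun hmem => a4 ?_⟩
      have e1 : π (∑' n : ℕ, f (n + 1) / ((n : ℂ) + 1) ^ i) =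
          ∑' n : ℕ, π (f (n + 1)) / ((n : ℝ) + 1) ^ i := by
        rw [hsum _ (fin_summable T hT f hfp i a1)]
        refine tsum_congr fun n => ?_
        have e2 : ((n : ℂ) + 1) ^ i = ((((n : ℝ) + 1) ^ i : ℝ) : ℂ) := by push_cast; ring
        rw [e2, hdiv]
      rw [← e1]
      exact Submodule.mem_map_of_mem hmem
    exact_mod_cast Set.ncard_le_ncard hsub hfin
  obtain ⟨u0, hu0⟩ := hf0
  by_cases hre : ∃ u, (f u).re ≠ 0
  · refine key (Complex.reLm.restrictScalars ℚ) (fun F hF => ?_) (fun z r => ?_) hre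
    · exact Complex.re_tsum hF
    · exact Complex.div_ofReal_re z r
  · push Not at hre
    refine key (Complex.imLm.restrictScalars ℚ) (fun F hF => ?_) (fun z r => ?_) ⟨u0, fun h => hu0 ?_⟩
    · exact Complex.im_tsum hF
    · exact Complex.div_ofReal_im z r
    · exact Complex.ext (hre u0) h

/-- the first choice of the parameters -/
theorem par1 : ∃ s0 : ℕ, ∀ s ≥ s0, ∀ D T : ℕ, 1 ≤ D → 1 ≤ T →
    (D : ℝ) ≤ (1 / 1000) * Real.log (Real.log s) →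
    (D : ℝ) ^ 2 * T ≤ (1 / 1000) ^ 2 * (s * Real.log (Real.log s) / Real.log s) →
    ∃ B : ℕ, Par s D T B ∧
      (1 / 1000) / D * Real.sqrt (s * Real.log (Real.log s) / (T * Real.log s)) ≤ B := by
  obtain ⟨s0, hs0⟩ := t_fi2E
  refine ⟨s0, fun s hs D T hD hT hDL hDT => ?_⟩
  obtain ⟨h, B, h1, h2, h3, h4, h5⟩ := hs0 s hs D T hD hT hDL hDT
  exact ⟨B, ⟨h, h1, h2, h3, h5⟩, h4⟩

/-- the first choice of the parameters, for `D + 1` -/
theorem par1' : ∃ s0 : ℕ, ∀ s ≥ s0, ∀ D T : ℕ, 1 ≤ D → 1 ≤ T →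
    (D : ℝ) ≤ (1 / 2000) * Real.log (Real.log s) →
    (D : ℝ) ^ 2 * T ≤ (1 / 2000) ^ 2 * (s * Real.log (Real.log s) / Real.log s) →
    ∃ B : ℕ, Par s (D + 1) T B ∧
      (1 / 2000) / D * Real.sqrt (s * Real.log (Real.log s) / (T * Real.log s)) ≤ B := by
  obtain ⟨s0, hs0⟩ := par1
  refine ⟨s0, fun s hs D T hD hT hDL hDT => ?_⟩
  have hDr : (1 : ℝ) ≤ D := by exact_mod_cast hD
  have h1 : ((D + 1 : ℕ) : ℝ) ≤ (1 / 1000) * Real.log (Real.log s) := by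
    push_cast
    linarith
  have h1' : ((D + 1 : ℕ) : ℝ) ^ 2 * T ≤ (1 / 1000) ^ 2 * (s * Real.log (Real.log s) / Real.log s) := by
    have e1 : ((D + 1 : ℕ) : ℝ) ^ 2 ≤ 4 * (D : ℝ) ^ 2 := by
      push_cast
      nlinarith
    have e2 : ((D + 1 : ℕ) : ℝ) ^ 2 * T ≤ 4 * (D : ℝ) ^ 2 * T :=
      mul_le_mul_of_nonneg_right e1 (Nat.cast_nonneg _)
    linarith
  obtain ⟨B, h2, h3⟩ := hs0 s hs (D + 1) T (by omega) hT h1 h1'
  refine ⟨B, h2, le_trans ?_ h3⟩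
  apply mul_le_mul_of_nonneg_right _ (Real.sqrt_nonneg _)
  push_cast
  rw [div_le_div_iff₀ (by positivity) (by positivity)]
  linarith

/-- the second choice of the parameters -/
theorem par2 : ∃ s0 : ℕ, ∀ s ≥ s0, ∀ D T : ℕ, 1 ≤ T →
    (D : ℝ) ≤ (1 / 1000) * Real.log s → (T : ℝ) ≤ (s : ℝ) ^ (1 / 4 : ℝ) →
    ∃ B : ℕ, Par s (D + 1) T B ∧ (s : ℝ) ^ (1 / 4 : ℝ) ≤ B := by
  -- the growth conditions
  have e1 : ∀ᶠ s : ℕ in atTop, Real.log s ^ 4 ≤ (s : ℝ) ^ (1 / 8 : ℝ) := by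
    have h1 := (isLittleO_log_rpow_rpow_atTop (4 : ℝ) (show (0 : ℝ) < 1 / 8 by norm_num)).bound
      (show (0 : ℝ) < 1 by norm_num)
    have h2 := (tendsto_natCast_atTop_atTop (R := ℝ)).eventually h1
    filter_upwards [h2, eventually_ge_atTop 1] with s hs hs1
    have hs1' : (1 : ℝ) ≤ s := by exact_mod_cast hs1
    have hL0 : 0 ≤ Real.log s := Real.log_nonneg hs1'
    rw [one_mul, Real.norm_eq_abs, Real.norm_eq_abs, abs_of_nonneg (by positivity),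
      abs_of_nonneg (by positivity)] at hs
    have e : Real.log s ^ (4 : ℝ) = Real.log s ^ 4 := by
      rw [← Real.rpow_natCast]
      norm_num
    rwa [e] at hs
  have e2 : ∀ᶠ s : ℕ in atTop, 100000 ≤ Real.log s :=
    (Real.tendsto_log_atTop.comp tendsto_natCast_atTop_atTop).eventually_ge_atTop 100000
  obtain ⟨s0, hs0⟩ := eventually_atTop.1 (e1.and e2)
  refine ⟨s0, fun s hs D T hT hDL hTs => ?_⟩
  obtain ⟨h1, h2⟩ := hs0 s hs
  obtain ⟨L, hL⟩ : ∃ L, L = Real.log s := ⟨_, rfl⟩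
  obtain ⟨X, hX⟩ : ∃ X, X = (s : ℝ) ^ (1 / 8 : ℝ) := ⟨_, rfl⟩
  have hspos : (0 : ℝ) < s := by
    rcases Nat.eq_zero_or_pos s with h | h
    · subst h
      norm_num at h2
    · exact_mod_cast h
  have hX4 : (s : ℝ) ^ (1 / 4 : ℝ) = X ^ 2 := by
    rw [hX, ← Real.rpow_natCast, ← Real.rpow_mul hspos.le]
    norm_num
  have hX8 : (s : ℝ) = X ^ 8 := by
    rw [hX, ← Real.rpow_natCast, ← Real.rpow_mul hspos.le]
    norm_num
  rw [hX4] at hTs ⊢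
  rw [← hX, ← hL] at h1
  rw [← hL] at h2 hDL
  have hL0 : 0 < L := by linarith
  have hX0 : 0 < X := by rw [hX]; positivity
  have hlX : Real.log X = L / 8 := by
    rw [hX, Real.log_rpow hspos, ← hL]
    ring
  have hL3 : L ≤ X := by
    refine le_trans ?_ h1
    calc L = L ^ 1 := (pow_one L).symm
      _ ≤ L ^ 4 := pow_le_pow_right₀ (by linarith) (by norm_num)
  have hX1 : 100000 ≤ X := h2.trans hL3
  have hlL : Real.log L ≤ L / 32 := by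
    have h3 := Real.log_le_log (by positivity) h1
    rw [Real.log_pow, hlX] at h3
    push_cast at h3
    linarith
  have hD1 : ((D + 1 : ℕ) : ℝ) ≤ L / 900 := by
    push_cast
    linarith
  have hDpos : (0 : ℝ) < ((D + 1 : ℕ) : ℝ) := by positivity
  obtain ⟨B, hB⟩ : ∃ B, B = ⌈X ^ 2⌉₊ := ⟨_, rfl⟩
  have hB1 : X ^ 2 ≤ B := by rw [hB]; exact Nat.le_ceil _
  have hX2 : (1 : ℝ) ≤ X ^ 2 := by nlinarith
  have hB2 : (B : ℝ) ≤ 2 * X ^ 2 := by
    have := (Nat.ceil_lt_add_one (show 0 ≤ X ^ 2 by positivity)).le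
    rw [← hB] at this
    linarith
  have hB3 : (1 : ℝ) ≤ B := hX2.trans hB1
  have hT1 : (1 : ℝ) ≤ T := by exact_mod_cast hT
  have hBB : (B : ℝ) * (B + 1) ≤ 8 * X ^ 4 := by
    calc (B : ℝ) * (B + 1) ≤ (2 * X ^ 2) * (4 * X ^ 2) := by
          apply mul_le_mul hB2 (by linarith) (by linarith) (by positivity)
      _ = _ := by ring
  have hTBB : (T : ℝ) * ((B : ℝ) * (B + 1)) ≤ 8 * X ^ 6 := by
    calc (T : ℝ) * ((B : ℝ) * (B + 1)) ≤ X ^ 2 * (8 * X ^ 4) := by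
          apply mul_le_mul hTs hBB (by positivity) (by positivity)
      _ = _ := by ring
  obtain ⟨h, hh⟩ : ∃ h, h = s / 2 := ⟨_, rfl⟩
  have hh1 : 2 * h ≤ s := by omega
  have hs4 : 4 ≤ s := by
    have : (4 : ℝ) ≤ s := by
      rw [hX8]
      have : X ^ 1 ≤ X ^ 8 := pow_le_pow_right₀ (by linarith) (by norm_num)
      linarith
    exact_mod_cast this
  have hh2 : X ^ 8 / 4 ≤ h := by
    have h3 : s ≤ 4 * h := by omega
    have h4 : (s : ℝ) ≤ 4 * h := by exact_mod_cast h3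
    rw [hX8] at h4
    linarith
  have hhp : (0 : ℝ) < h := lt_of_lt_of_le (by positivity) hh2
  have hLX : L ≤ X ^ 2 / 100000 := by
    rw [le_div_iff₀ (by norm_num)]
    nlinarith
  have h32' : (32 : ℝ) * ((D + 1 : ℕ) : ℝ) * (T * (B * (B + 1))) ≤ h := by
    refine le_trans ?_ hh2
    calc (32 : ℝ) * ((D + 1 : ℕ) : ℝ) * (T * (B * (B + 1))) ≤ 32 * (L / 900) * (8 * X ^ 6) := by
          gcongr
      _ ≤ 32 * (X ^ 2 / 100000 / 900) * (8 * X ^ 6) := by gcongr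
      _ = (256 / 90000000) * X ^ 8 := by ring
      _ ≤ X ^ 8 / 4 := by
          have : 0 < X ^ 8 := by positivity
          linarith
  have h32 : 32 * (D + 1) * (T * (B * (B + 1))) ≤ h := by exact_mod_cast h32'
  have hTBs : ((T * B : ℕ) : ℝ) ≤ s := by
    have h3 : T * B ≤ s := by
      have h4 : T * (B * 1) ≤ T * (B * (B + 1)) := Nat.mul_le_mul_left T (Nat.mul_le_mul_left B (by omega))
      have h5 : 1 * (T * (B * (B + 1))) ≤ 32 * (D + 1) * (T * (B * (B + 1))) :=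
        Nat.mul_le_mul_right _ (by omega)
      rw [mul_one] at h4
      omega
    exact_mod_cast h3
  have hTB1 : (1 : ℝ) ≤ ((T * B : ℕ) : ℝ) := by
    push_cast
    nlinarith
  have hlTB : 1 + Real.log ((T * B : ℕ) : ℝ) ≤ 2 * L := by
    have h3 := Real.log_le_log (by linarith) hTBs
    rw [← hL] at h3
    linarith
  have hlTB0 : 0 ≤ 1 + Real.log ((T * B : ℕ) : ℝ) := by
    have := Real.log_nonneg hTB1
    linarith
  have hq : (T : ℝ) * ((B : ℝ) * (B + 1)) / h ≤ 32 / X ^ 2 := by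
    rw [div_le_div_iff₀ hhp (by positivity)]
    calc (T : ℝ) * ((B : ℝ) * (B + 1)) * X ^ 2 ≤ (8 * X ^ 6) * X ^ 2 := by gcongr
      _ = 32 * (X ^ 8 / 4) := by ring
      _ ≤ 32 * h := by gcongr
  refine ⟨B, ⟨h, hh1, by exact_mod_cast hB3, h32, ?_⟩, hB1⟩
  have hY : (T : ℝ) * ((B : ℝ) * (B + 1)) / h * (1 + Real.log ((T * B : ℕ) : ℝ)) ≤ 64 * L / X ^ 2 := by
    calc (T : ℝ) * ((B : ℝ) * (B + 1)) / h * (1 + Real.log ((T * B : ℕ) : ℝ)) ≤ (32 / X ^ 2) * (2 * L) := by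
          gcongr
      _ = 64 * L / X ^ 2 := by ring
  have hLL : L ^ 2 ≤ X := by
    refine le_trans (pow_le_pow_right₀ (by linarith) (by norm_num)) h1
  have hleft : ((D + 1 : ℕ) : ℝ) * (52 + 90 * ((D + 1 : ℕ) : ℝ) *
      (T * ((B : ℝ) * (B + 1)) / h * (1 + Real.log ((T * B : ℕ) : ℝ)))) ≤ (L / 900) * 60 := by
    have h3 : 90 * ((D + 1 : ℕ) : ℝ) * (T * ((B : ℝ) * (B + 1)) / h * (1 + Real.log ((T * B : ℕ) : ℝ))) ≤
        90 * (L / 900) * (64 * L / X ^ 2) := by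
      have h0 : 0 ≤ T * ((B : ℝ) * (B + 1)) / h * (1 + Real.log ((T * B : ℕ) : ℝ)) := by positivity
      gcongr
    have h4 : 90 * (L / 900) * (64 * L / X ^ 2) ≤ 8 := by
      have h5 : 90 * (L / 900) * (64 * L / X ^ 2) = (6.4 * L ^ 2) / X ^ 2 := by
        field_simp
        norm_num
      rw [h5, div_le_iff₀ (by positivity)]
      nlinarith
    refine mul_le_mul hD1 (by linarith) ?_ (by positivity)
    have h0 : 0 ≤ T * ((B : ℝ) * (B + 1)) / h * (1 + Real.log ((T * B : ℕ) : ℝ)) := by positivity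
    positivity
  have hright : L / 4 - Real.log L ≤ Real.log ((h : ℝ) / (16 * ((D + 1 : ℕ) : ℝ) * (T * (B * (B + 1))))) := by
    have h3 : X ^ 2 / L ≤ (h : ℝ) / (16 * ((D + 1 : ℕ) : ℝ) * (T * (B * (B + 1)))) := by
      rw [div_le_div_iff₀ hL0 (by positivity)]
      calc X ^ 2 * (16 * ((D + 1 : ℕ) : ℝ) * (T * (B * (B + 1)))) ≤
            X ^ 2 * (16 * (L / 900) * (8 * X ^ 6)) := by gcongr
        _ = (128 / 900) * (X ^ 8 * L) := by ring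
        _ ≤ (1 / 4) * (X ^ 8 * L) := by
            have : 0 < X ^ 8 * L := by positivity
            linarith
        _ = (X ^ 8 / 4) * L := by ring
        _ ≤ h * L := by gcongr
    have h4 := Real.log_le_log (by positivity) h3
    rw [Real.log_div (by positivity) hL0.ne', Real.log_pow, hlX] at h4
    push_cast at h4 ⊢
    linarith
  linarith

end

end Run7.h317.LV
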