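import Pool.Agent.Run7.h317.LV.SPert2
import Pool.Agent.Run7.h317.LV.SES4

/-!
# Periodic Dirichlet series with real coefficients: simultaneous approximation of the values relative to
the coefficients (the letter `T` is the period)
-/

open Polynomial Pool.Agent.H337R2 Filter Topology Pool.Agent.W165.OZ

namespace Run7.h317.LV

open Pool.Agent.TH818.SA (exp_cond)

noncomputable section

/-- the moments are homogeneous in the values and the coefficients -/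
lemma moE_smul (ep n h T B : ℕ) (w : ℕ → ℤ) (q : ℚ) (z f : ℕ → ℚ) (k : ℕ) :
    moE (A := ℚ) ep n h T B w (fun i => q * z i) (fun v => q * f v) k = q * moE (A := ℚ) ep n h T B w z f k := by
  unfold moE LaE betE hsE
  rw [Finset.mul_sum]
  refine Finset.sum_congr rfl fun i _ => ?_
  rw [mul_sub, Finset.mul_sum]
  congr 1
  · ring
  · refine Finset.sum_congr rfl fun d _ => ?_
    rw [Finset.mul_sum]
    refine Finset.sum_congr rfl fun l _ => ?_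
    have e1 : ∑ l_1 ∈ Finset.range (T * d * (l + 1)),
        (algebraMap ℚ ℚ) (1 / ((l_1 : ℚ) + 1) ^ i) * (q * f (l_1 + 1)) =
        q * ∑ l_1 ∈ Finset.range (T * d * (l + 1)),
        (algebraMap ℚ ℚ) (1 / ((l_1 : ℚ) + 1) ^ i) * f (l_1 + 1) := by
      rw [Finset.mul_sum]
      refine Finset.sum_congr rfl fun x _ => ?_
      ring
    rw [e1]
    ring

lemma DH_smul (μ : ℕ → ℚ) (q : ℚ) (r : ℕ) : DH (fun k => q * μ k) r = q ^ r * DH μ r := by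
  unfold DH
  have e1 : (Matrix.of fun i j : Fin r => q * μ (i.1 + j.1)) =
      q • (Matrix.of fun i j : Fin r => μ (i.1 + j.1)) := by
    ext i j
    simp
  first
  | (rw [e1, Matrix.det_smul, Fintype.card_fin])
  | (simp only [e1, Matrix.det_smul, Fintype.card_fin])

lemma moE_castQ (ep n h T B : ℕ) (w : ℕ → ℤ) (z f : ℕ → ℚ) (k : ℕ) :
    moE (A := ℝ) ep n h T B w (fun i => ((z i : ℚ) : ℝ)) (fun v => ((f v : ℚ) : ℝ)) k =
      ((moE (A := ℚ) ep n h T B w z f k : ℚ) : ℝ) := by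
  have h1 := moE_map (Algebra.ofId ℚ ℝ) ep n h T B w z f k
  have h2 : (Algebra.ofId ℚ ℝ) (moE (A := ℚ) ep n h T B w z f k) =
      ((moE (A := ℚ) ep n h T B w z f k : ℚ) : ℝ) := rfl
  rw [← h2, h1]
  rfl

theorem t_coreV (ep : ℕ) (hep : ep ≤ 1) (h T B D : ℕ) (hD : 1 ≤ D) (hT : 1 ≤ T) (hB : 1 ≤ B)
    (hBh : 32 * D * (T * (B * (B + 1))) ≤ h)
    (hineq : D * (52 + 90 * D * (T * ((B : ℝ) * (B + 1)) / h * (1 + Real.log ((T * B : ℕ) : ℝ)))) ≤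
      Real.log ((h : ℝ) / (16 * D * (T * (B * (B + 1))))))
    (g : ℕ → ℝ) (hgp : ∀ u, g (u + T) = g u) (hg0 : ∃ u, g u ≠ 0) (I : Finset ℕ) (hI : I.card < B) :
    ∃ q0 : ℕ, ∀ q : ℕ, q0 ≤ q → (∀ v, ∃ p : ℤ, |(q : ℝ) * g v - p| < (q : ℝ) ^ (-(1 / (D : ℝ)))) →
      ¬ ∀ i, (i + ep) % 2 = 0 → 2 ≤ i → i ≤ 2 * h → i ∉ I →
      ∃ p : ℤ, |(q : ℝ) * Lr g i - p| < (q : ℝ) ^ (-(1 / (D : ℝ))) := by
  classical
  obtain ⟨w, hw, hWI⟩ := t_we B I hI
  obtain ⟨N, δ, c1, c2, τ, ω, hNod, h2N, hNO⟩ := t_noE T B hT w hw g hgp hg0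
  have hN := hNod.hN
  have hDN : 64 * D * N ≤ h := by
    have e1 : 32 * D * (2 * N) ≤ 32 * D * (T * (B * (B + 1))) := Nat.mul_le_mul_left _ h2N
    have e2 : 32 * D * (2 * N) = 64 * D * N := by ring
    omega
  have hh : 1 ≤ h := by
    have : 1 * 1 ≤ D * N := Nat.mul_le_mul hD hN
    have : 64 * (D * N) ≤ h := by rw [← mul_assoc]; exact hDN
    omega
  have hc2 : 0 < c2 := lt_of_lt_of_le (lt_of_lt_of_le hNod.hc1 (hNod.wlo 0)) (hNod.whi 0)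
  have hNr : (1 : ℝ) ≤ N := by exact_mod_cast hN
  have hDr : (1 : ℝ) ≤ D := by exact_mod_cast hD
  have hhr : (1 : ℝ) ≤ h := by exact_mod_cast hh
  have hBr : (1 : ℝ) ≤ B := by exact_mod_cast hB
  have hTr : (1 : ℝ) ≤ T := by exact_mod_cast hT
  have hC : 0 < 4 * (N : ℝ) ^ 2 * c2 := by positivity
  -- the exponents
  obtain ⟨lam, hlam⟩ : ∃ lam, lam = Real.log ((h : ℝ) / (32 * D * N)) := ⟨_, rfl⟩
  obtain ⟨Y, hY⟩ : ∃ Y, Y = T * ((B : ℝ) * (B + 1)) / h * (1 + Real.log ((T * B : ℕ) : ℝ)) := ⟨_, rfl⟩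
  have hlB : 0 ≤ Real.log ((T * B : ℕ) : ℝ) := Real.log_natCast_nonneg _
  have hY0 : 0 ≤ Y := by rw [hY]; positivity
  have hlam2 : D * (52 + 90 * D * Y) ≤ lam := by
    rw [hY, hlam]
    refine hineq.trans (Real.log_le_log (by positivity) ?_)
    apply div_le_div_of_nonneg_left (by positivity) (by positivity)
    have : (2 * N : ℝ) ≤ T * ((B : ℝ) * (B + 1)) := by exact_mod_cast h2N
    have e1 : 16 * (D : ℝ) * (2 * N) ≤ 16 * D * (T * ((B : ℝ) * (B + 1))) :=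
      mul_le_mul_of_nonneg_left this (by positivity)
    linarith
  obtain ⟨U, hU⟩ : ∃ U, U = UUE N h T B D := ⟨_, rfl⟩
  have hU' : U = (2 - 1 / (2 * (D : ℝ))) * lam - 19 - 45 * D * Y := by
    rw [hU, hlam, hY]
    rfl
  obtain ⟨hV, hU1⟩ := exp_cond D lam Y U hDr hU' hY0 hlam2
  obtain ⟨V, hVdef⟩ : ∃ V, V = (1 + 1 / (D : ℝ)) * U := ⟨_, rfl⟩
  rw [← hVdef, hlam] at hV
  -- the thresholds
  obtain ⟨m0, hm0⟩ := t_nvarE ep hep N δ c1 c2 τ ω hNod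
  obtain ⟨ν1, hν1⟩ := t_as2E N h T B D (2 * (4 * (N : ℝ) ^ 2 * c2)) hN hT hB hD (by positivity) hDN
  obtain ⟨ν2, hν2⟩ := t_es4 N h D hN hD hDN (Cv h T B w + 1) (4 * (N : ℝ) ^ 2 * c2) V
    (by have := Cv_nonneg h T B w; linarith) hC hV
  have hP : 0 < 4 * (D : ℝ) * h * U := by positivity
  have hlim := (Real.tendsto_log_atTop.comp tendsto_natCast_atTop_atTop).eventually_ge_atTop
    (4 * (D : ℝ) * h * U * (((m0 + ν1 + ν2 + T * B + 1 : ℕ)) : ℝ))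
  obtain ⟨q1, hq1⟩ := eventually_atTop.1 hlim
  refine ⟨max q1 1, fun q hq hgq hall => ?_⟩
  have hqq1 : 4 * (D : ℝ) * h * U * (((m0 + ν1 + ν2 + T * B + 1 : ℕ)) : ℝ) ≤ Real.log q :=
    hq1 q ((le_max_left _ _).trans hq)
  have hq1' : 1 ≤ q := (le_max_right _ _).trans hq
  have hqr : (1 : ℝ) ≤ q := by exact_mod_cast hq1'
  have hqpos : (0 : ℝ) < q := by linarith
  -- the choice of `ν`
  obtain ⟨ν, hν⟩ : ∃ ν, ν = ⌈Real.log q / (4 * D * h * U)⌉₊ := ⟨_, rfl⟩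
  have hνa : Real.log q / (4 * D * h * U) ≤ ν := by rw [hν]; exact Nat.le_ceil _
  have hνb : (ν : ℝ) < Real.log q / (4 * D * h * U) + 1 := by
    rw [hν]
    exact Nat.ceil_lt_add_one (div_nonneg (Real.log_nonneg hqr) hP.le)
  have hνge : m0 + ν1 + ν2 + T * B + 1 ≤ ν := by
    have e1 : (((m0 + ν1 + ν2 + T * B + 1 : ℕ)) : ℝ) ≤ Real.log q / (4 * D * h * U) := by
      rw [le_div_iff₀ hP]
      linarith
    exact_mod_cast e1.trans hνa
  have hνc : Real.log q ≤ 4 * D * h * U * ν := by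
    rw [div_le_iff₀ hP] at hνa
    linarith
  have hνd : 4 * D * h * U * (ν - 1) ≤ Real.log q := by
    have e1 : (ν : ℝ) - 1 ≤ Real.log q / (4 * D * h * U) := by linarith
    rw [le_div_iff₀ hP] at e1
    linarith
  obtain ⟨n, hn⟩ : ∃ n, n = 4 * D * ν := ⟨_, rfl⟩
  obtain ⟨m, hm⟩ : ∃ m, m = h * ν := ⟨_, rfl⟩
  obtain ⟨M, hM⟩ : ∃ M, M = 2 * D * h * ν := ⟨_, rfl⟩
  have hnν : ν ≤ n := by
    rw [hn]
    have : 1 * ν ≤ (4 * D) * ν := Nat.mul_le_mul_right ν (by omega)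
    omega
  have hmν : ν ≤ m := by
    rw [hm]
    have : 1 * ν ≤ h * ν := Nat.mul_le_mul_right ν hh
    omega
  have hn2 : 2 ≤ n := by
    rw [hn]
    have : 1 * 1 ≤ D * ν := Nat.mul_le_mul hD (by omega)
    have : 4 * D * ν = 4 * (D * ν) := by ring
    omega
  have hne : Even n := ⟨2 * D * ν, by rw [hn]; ring⟩
  have hmM : m ≤ M := by
    have e1 : M = 2 * D * m := by rw [hM, hm]; ring
    rw [e1]
    have : 1 * m ≤ (2 * D) * m := Nat.mul_le_mul_right m (by omega)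
    omega
  have hMh : 2 * M = h * n := by rw [hM, hn]; ring
  have hmn : 16 * N * n ≤ m := by
    rw [hm, hn]
    calc 16 * N * (4 * D * ν) = 64 * D * N * ν := by ring
      _ ≤ h * ν := Nat.mul_le_mul_right ν hDN
  -- the rational approximations
  obtain ⟨η, hη⟩ : ∃ η : ℝ, η = (q : ℝ) ^ (-(1 + 1 / (D : ℝ))) := ⟨_, rfl⟩
  have hη0 : 0 < η := by rw [hη]; exact Real.rpow_pos_of_pos hqpos _
  have hrat : ∀ i, ∃ p : ℤ, ((i + ep) % 2 = 0 → 2 ≤ i → i ≤ 2 * h → i ∉ I →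
      |(q : ℝ) * Lr g i - p| < (q : ℝ) ^ (-(1 / (D : ℝ)))) ∧
      (¬ ((i + ep) % 2 = 0 ∧ 2 ≤ i ∧ i ≤ 2 * h ∧ i ∉ I) → p = 0) := by
    intro i
    by_cases hc : (i + ep) % 2 = 0 ∧ 2 ≤ i ∧ i ≤ 2 * h ∧ i ∉ I
    · obtain ⟨p, hp⟩ := hall i hc.1 hc.2.1 hc.2.2.1 hc.2.2.2
      exact ⟨p, fun _ _ _ _ => hp, fun hx => absurd hc hx⟩
    · exact ⟨0, fun a b c d => absurd ⟨a, b, c, d⟩ hc, fun _ => rfl⟩
  choose p hp1 hp0 using hrat
  obtain ⟨z, hz⟩ : ∃ z : ℕ → ℚ, z = fun i => (p i : ℚ) / q := ⟨_, rfl⟩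
  -- the approximations of the coefficients
  choose P hP1 using hgq
  obtain ⟨F, hF⟩ : ∃ F : ℕ → ℚ, F = fun v => (P v : ℚ) / q := ⟨_, rfl⟩
  have hqF : ∀ v, (q : ℚ) * F v = P v := by
    intro v
    rw [hF]
    have : (q : ℚ) ≠ 0 := by
      have : 0 < q := hq1'
      positivity
    field_simp
  have hcloseF : ∀ v, |((F v : ℚ) : ℝ) - g v| ≤ η := by
    intro v
    have e1 := hP1 v
    rw [hF]
    push_cast
    have e3 : (P v : ℝ) / q - g v = -(((q : ℝ) * g v - P v) / q) := by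
      field_simp
      ring
    rw [e3, abs_neg, abs_div, abs_of_pos hqpos, div_le_iff₀ hqpos, hη]
    have e4 : (q : ℝ) ^ (-(1 + 1 / (D : ℝ))) * q = (q : ℝ) ^ (-(1 / (D : ℝ))) := by
      conv_lhs => rw [← Real.rpow_one (q : ℝ), ← Real.rpow_mul hqpos.le, ← Real.rpow_add hqpos]
      congr 1
      ring
    rw [e4]
    exact e1.le
  have hqz : ∀ i, ∃ a : ℤ, (q : ℚ) * z i = a := by
    intro i
    refine ⟨p i, ?_⟩
    rw [hz]
    have : (q : ℚ) ≠ 0 := by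
      have : 0 < q := hq1'
      positivity
    field_simp
  have hclose : ∀ i ∈ Finset.Icc 1 (2 * h), WWE T B w i ≠ 0 → |((z i : ℚ) : ℝ) - zzE ep g i| ≤ η := by
    intro i hi hWi
    have hi2 := (Finset.mem_Icc.1 hi).2
    have hiI : i ∉ I := fun hmem => hWi (by rw [WWE_eq, hWI i hmem, mul_zero])
    by_cases hc : 2 ≤ i ∧ (i + ep) % 2 = 0
    · have e1 := hp1 i hc.2 hc.1 hi2 hiI
      have e2 : zzE ep g i = Lr g i := by
        unfold zzE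
        rw [if_pos hc]
      rw [e2, hz]
      push_cast
      have e3 : (p i : ℝ) / q - Lr g i = -(((q : ℝ) * Lr g i - p i) / q) := by
        field_simp
        ring
      rw [e3, abs_neg, abs_div, abs_of_pos hqpos, div_le_iff₀ hqpos, hη]
      have e4 : (q : ℝ) ^ (-(1 + 1 / (D : ℝ))) * q = (q : ℝ) ^ (-(1 / (D : ℝ))) := by
        conv_lhs => rw [← Real.rpow_one (q : ℝ), ← Real.rpow_mul hqpos.le, ← Real.rpow_add hqpos]
        congr 1
        ring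
      rw [e4]
      exact e1.le
    · have e1 : p i = 0 := hp0 i fun hx => hc ⟨hx.2.1, hx.1⟩
      have e2 : zzE ep g i = 0 := by
        unfold zzE
        rw [if_neg hc]
      rw [e2, hz]
      simp only
      rw [e1]
      simp
      exact hη0.le
  -- the moments
  have hMom : MomE ep n h τ ω (moE (A := ℝ) ep n h T B w (zzE ep g) g) := by
    intro k hk
    obtain ⟨hs, hv⟩ := t_rmE ep hep T hT g hgp n h B w hn2 hh k hk
    have h8 := hNO (fun t => RvE ep n h t * yv n t ^ k) hs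
    rw [← hv] at h8
    exact h8
  have hpert := moE_pert2 ep hep n h T B (by omega) hT w (fun i => ((z i : ℚ) : ℝ)) (zzE ep g)
    (fun v => ((F v : ℚ) : ℝ)) g η hη0.le hclose hcloseF
  have hEp0 : 0 ≤ Ev n h T B w η := Ev_nonneg n h T B w hη0.le
  -- the size of the perturbation
  have hlη : Real.log η ≤ -(V * (h * (n - 4 * D))) := by
    rw [hη, Real.log_rpow hqpos]
    have e1 : V * ((h : ℝ) * (n - 4 * D)) = (1 + 1 / (D : ℝ)) * (4 * D * h * U * (ν - 1)) := by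
      rw [hVdef, hn]
      push_cast
      ring
    rw [e1]
    have e2 : (1 + 1 / (D : ℝ)) * (4 * D * h * U * (ν - 1)) ≤ (1 + 1 / (D : ℝ)) * Real.log q :=
      mul_le_mul_of_nonneg_left hνd (by positivity)
    linarith
  have hes := hν2 ν (by omega) n m M hn hm hM η hη0 hlη
  have hEsmall : Ev n h T B w η * 16 ^ m * MM N m ^ (4 * M) ≤ 4 * (N : ℝ) ^ 2 * c2 := by
    refine le_trans ?_ hes
    have hMM : 0 ≤ MM N m := le_trans zero_le_one (ARe.MM_one N m)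
    unfold Ev
    gcongr
    linarith
  obtain ⟨r, hr1, hr2, hr3, hr4⟩ := hm0 m (by omega) n M h (by omega) hh hmn hmM hMh _ hMom
    (moE (A := ℝ) ep n h T B w (fun i => ((z i : ℚ) : ℝ)) (fun v => ((F v : ℚ) : ℝ))) (Ev n h T B w η) hEp0 hpert hEsmall
  have hDH : DH (moE (A := ℝ) ep n h T B w (fun i => ((z i : ℚ) : ℝ)) (fun v => ((F v : ℚ) : ℝ))) r =
      ((DH (moE (A := ℚ) ep n h T B w z F) r : ℚ) : ℝ) := by
    rw [← ma_DH_cast]
    congr 1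
    funext k
    exact moE_castQ ep n h T B w z F k
  have hr3' : DH (moE (A := ℚ) ep n h T B w z F) r ≠ 0 := by
    intro h8
    apply hr3
    rw [hDH, h8]
    simp
  have hq0Q : (q : ℚ) ≠ 0 := by
    have : 0 < q := hq1'
    positivity
  have hsm : DH (moE (A := ℚ) ep n h T B w (fun i => (q : ℚ) * z i) (fun v => (q : ℚ) * F v)) r =
      (q : ℚ) ^ r * DH (moE (A := ℚ) ep n h T B w z F) r := by
    rw [← DH_smul]
    congr 1
    funext k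
    exact moE_smul ep n h T B w q z F k
  have e1 := t_pkE ep hep ℚ n h T B w (fun i => (q : ℚ) * z i) (fun v => (q : ℚ) * F v) (fun v => by
      simp only [hqF]
      have : ((P v : ℤ) : ℚ) = algebraMap ℤ ℚ (P v) := by simp
      rw [this]
      exact isIntegral_algebraMap) 1 le_rfl (fun i => by
      obtain ⟨a, ha⟩ := hqz i
      simp only [ha]
      have : ((1 : ℕ) : ℚ) * ((a : ℤ) : ℚ) = algebraMap ℤ ℚ a := by simp
      rw [this]
      exact isIntegral_algebraMap) hn2 hne hh hT hB (by omega) r (by omega) (by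
      rw [hsm]
      exact mul_ne_zero (pow_ne_zero _ hq0Q) hr3')
  rw [Algebra.norm_self, MonoidHom.id_apply, hsm, eq_ratCast, Rat.cast_id, Nat.cast_one, one_pow,
    one_mul, ← mul_assoc] at e1
  have hs0 : (0 : ℚ) ≤ (q : ℚ) ^ r * (∏ i ∈ Finset.range r, sc n h (T * B) i ^ 2) * (PPE n h T B : ℚ) := by
    have : (0 : ℚ) ≤ ∏ i ∈ Finset.range r, sc n h (T * B) i ^ 2 :=
      Finset.prod_nonneg fun i _ => sq_nonneg _
    positivity
  have e1' : (1 : ℝ) ≤ |DH (moE (A := ℝ) ep n h T B w (fun i => ((z i : ℚ) : ℝ)) (fun v => ((F v : ℚ) : ℝ))) r| *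
      ((q : ℝ) ^ r * (∏ i ∈ Finset.range r, (sc n h (T * B) i : ℝ) ^ 2) * (PPE n h T B : ℝ)) := by
    rw [hDH]
    have e0 : (∏ i ∈ Finset.range r, sc n h (T * B) i ^ 2) * (PPE n h T B : ℚ) * (q : ℚ) ^ r =
        (q : ℚ) ^ r * (∏ i ∈ Finset.range r, sc n h (T * B) i ^ 2) * (PPE n h T B : ℚ) := by ring
    rw [e0, abs_mul, abs_of_nonneg hs0, mul_comm] at e1
    have h8 : ((1 : ℚ) : ℝ) ≤ ((|DH (moE (A := ℚ) ep n h T B w z F) r| *
      ((q : ℚ) ^ r * (∏ i ∈ Finset.range r, sc n h (T * B) i ^ 2) * (PPE n h T B : ℚ)) : ℚ) : ℝ) :=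
      Rat.cast_le.2 e1
    push_cast at h8
    exact h8
  have hnn : (0 : ℝ) ≤ (q : ℝ) ^ r * (∏ i ∈ Finset.range r, (sc n h (T * B) i : ℝ) ^ 2) *
      (PPE n h T B : ℝ) := by
    have : (0 : ℝ) ≤ ∏ i ∈ Finset.range r, (sc n h (T * B) i : ℝ) ^ 2 :=
      Finset.prod_nonneg fun i _ => sq_nonneg _
    positivity
  have e4 : (1 : ℝ) ≤ Arc N n h (2 * (4 * (N : ℝ) ^ 2 * c2)) r *
      ((q : ℝ) ^ r * (∏ i ∈ Finset.range r, (sc n h (T * B) i : ℝ) ^ 2) * (PPE n h T B : ℝ)) :=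
    e1'.trans (mul_le_mul_of_nonneg_right hr4 hnn)
  have e5 := Real.log_nonneg e4
  have e6 := hν1 ν (by omega) n m M hn hm hM r hr1 hr2 q hq1' (by
    rw [← hU]
    refine hνc.trans (le_of_eq ?_)
    rw [hn]
    push_cast
    ring)
  linarith

/-- simultaneous approximation -/
theorem t_mainV (ep : ℕ) (hep : ep ≤ 1) (h T B D : ℕ) (hD : 1 ≤ D) (hT : 1 ≤ T) (hB : 1 ≤ B)
    (hBh : 32 * D * (T * (B * (B + 1))) ≤ h)
    (hineq : D * (52 + 90 * D * (T * ((B : ℝ) * (B + 1)) / h * (1 + Real.log ((T * B : ℕ) : ℝ)))) ≤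
      Real.log ((h : ℝ) / (16 * D * (T * (B * (B + 1))))))
    (g : ℕ → ℝ) (hgp : ∀ u, g (u + T) = g u) (hg0 : ∃ u, g u ≠ 0) :
    ∃ q0 : ℕ, ∀ q : ℕ, q0 ≤ q → (∀ v, ∃ p : ℤ, |(q : ℝ) * g v - p| < (q : ℝ) ^ (-(1 / (D : ℝ)))) →
      ∃ I : Finset ℕ, B ≤ I.card ∧ ∀ i ∈ I, 2 ≤ i ∧ i ≤ 2 * h ∧ (i + ep) % 2 = 0 ∧
      ∀ p : ℤ, (q : ℝ) ^ (-(1 / (D : ℝ))) ≤ |(q : ℝ) * Lr g i - p| := by
  classical
  have h1 : ∀ I : Finset ℕ, ∃ q0 : ℕ, I.card < B → ∀ q : ℕ, q0 ≤ q →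
      (∀ v, ∃ p : ℤ, |(q : ℝ) * g v - p| < (q : ℝ) ^ (-(1 / (D : ℝ)))) → ¬ ∀ i, (i + ep) % 2 = 0 → 2 ≤ i →
      i ≤ 2 * h → i ∉ I → ∃ p : ℤ, |(q : ℝ) * Lr g i - p| < (q : ℝ) ^ (-(1 / (D : ℝ))) := by
    intro I
    by_cases hI : I.card < B
    · obtain ⟨q0, hq0⟩ := t_coreV ep hep h T B D hD hT hB hBh hineq g hgp hg0 I hI
      exact ⟨q0, fun _ => hq0⟩
    · exact ⟨0, fun h => absurd h hI⟩
  choose F hF using h1
  refine ⟨(Finset.Icc 2 (2 * h)).powerset.sup F, fun q hq hgq => ?_⟩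
  obtain ⟨I, hI⟩ : ∃ I : Finset ℕ, I = (Finset.Icc 2 (2 * h)).filter (fun i => (i + ep) % 2 = 0 ∧
    ∀ p : ℤ, (q : ℝ) ^ (-(1 / (D : ℝ))) ≤ |(q : ℝ) * Lr g i - p|) := ⟨_, rfl⟩
  have hmem : ∀ i, i ∈ I ↔ (2 ≤ i ∧ i ≤ 2 * h) ∧ (i + ep) % 2 = 0 ∧
      ∀ p : ℤ, (q : ℝ) ^ (-(1 / (D : ℝ))) ≤ |(q : ℝ) * Lr g i - p| := by
    intro i
    rw [hI, Finset.mem_filter, Finset.mem_Icc]
  refine ⟨I, ?_, fun i hi => ?_⟩
  · by_contra hcon
    push Not at hcon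
    have h2 : I ∈ (Finset.Icc 2 (2 * h)).powerset := by
      rw [Finset.mem_powerset, hI]
      exact Finset.filter_subset _ _
    have h3 := hF I hcon q ((Finset.le_sup (f := F) h2).trans hq) hgq
    apply h3
    intro i ho h3 h4 hiI
    by_contra hno
    push Not at hno
    exact hiI ((hmem i).2 ⟨⟨h3, h4⟩, ho, hno⟩)
  · obtain ⟨a, b, c⟩ := (hmem i).1 hi
    exact ⟨a.1, a.2, b, c⟩


end

end Run7.h317.LV
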