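import Pool.Agent.Run7.h317.LV.SCO2
import Pool.Agent.TH818.SA.NV2

/-!
# Simultaneous approximation, periodic Dirichlet series: non-vanishing and archimedean bound for the
perturbed Hankel determinants (adapted from `Pool/Agent/TH818/SA/NV2.lean`)
-/

open Polynomial Pool.Agent.H337R2 Filter Topology Pool.Agent.W165.OZ

namespace Run7.h317.LV

open Pool.Agent.TH818.SA (det_bound y_nonneg pert_prod pert_small t_nu2 Lf_sub_seq Lf_prod_bound)

theorem t_nvarE (ep : ℕ) (hep : ep ≤ 1) (N : ℕ) (δ c1 c2 : ℝ) (τ ω : ℕ → ℝ) (hN : Nodes N δ c1 c2 τ ω) :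
    ∃ m0 : ℕ, ∀ m ≥ m0, ∀ n M h : ℕ, 1 ≤ n → 1 ≤ h → 16 * N * n ≤ m → m ≤ M → 2 * M = h * n →
      ∀ μ : ℕ → ℝ, MomE ep n h τ ω μ → ∀ μ' : ℕ → ℝ, ∀ E : ℝ, 0 ≤ E →
      (∀ k, |μ' k - μ k| ≤ E * ((n : ℝ) ^ 2) ^ k) →
      E * 16 ^ m * MM N m ^ (4 * M) ≤ 4 * (N : ℝ) ^ 2 * c2 →
      ∃ r : ℕ, m ≤ 8 * r ∧ r ≤ m ∧ DH μ' r ≠ 0 ∧
        |DH μ' r| ≤ Arc N n h (2 * (4 * (N : ℝ) ^ 2 * c2)) r := by
  have hc1 : 0 < c1 := hN.hc1
  have hc2 : 0 < c2 := lt_of_lt_of_le hc1 ((hN.wlo 0).trans (hN.whi 0))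
  have hN1 : 1 ≤ N := hN.hN
  have hN0 : (0 : ℝ) < N := by exact_mod_cast hN1
  obtain ⟨m1, hm1⟩ := t_nu2 N δ c1 (2 * c2) hN1 hN.hδ hN.hδ1 hc1 (by positivity)
  refine ⟨max m1 (240 * N + 8), fun m hm n M h hn hh hmn hmM hMh μ hμ μ' E hE hμ' hEC => ?_⟩
  have hmm1 : m1 ≤ m := (le_max_left _ _).trans hm
  have hm2 : 240 * N + 8 ≤ m := (le_max_right _ _).trans hm
  obtain ⟨r0, hr0⟩ : ∃ r0, r0 = (m + 7) / 8 := ⟨_, rfl⟩
  have hr1 : 1 ≤ r0 := by omega
  have hrm : r0 ≤ m := by omega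
  have hr8 : m ≤ 8 * r0 := by omega
  have hsmall := fun i j hi hj => pert_small hN hn hm2 hmn hmM hE hEC i j hi hj
  have hMM : 0 < MM N m := by
    unfold MM
    exact lt_of_lt_of_le one_pos (le_max_left _ _)
  -- non-vanishing
  obtain ⟨r, hrr0, hrm', hDne⟩ : ∃ r, r0 ≤ r ∧ r ≤ m ∧ DH μ' r ≠ 0 := by
    by_contra hcon
    push Not at hcon
    obtain ⟨Q, hQ0, hQd, hQo⟩ := t_hk μ' r0 m hr1 hrm hcon
    have hco := t_co2E ep N δ c1 c2 τ ω hN n h hn μ hμ μ' E hE hμ' m r0 hr1 hrm (by omega) Q hQ0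
      hQd hQo
    have hnum := hm1 m hmm1 n M h r0 hmn hmM hMh hr0
    have hk : (m - 1) + (r0 - 1) + 2 ≤ h * n := by omega
    have htb := (t_tbE ep hep N δ c1 c2 τ ω hN n h m ((m - 1) + (r0 - 1)) hn hh hk).2
    have hexp : h * n - 2 - ((m - 1) + (r0 - 1)) = 2 * M - m - r0 := by omega
    rw [hexp] at htb
    have hsm := hsmall r0 m hrm le_rfl
    rw [show 2 * M - r0 - m = 2 * M - m - r0 by omega] at hsm
    obtain ⟨A, hA⟩ : ∃ A : ℝ, A = δ ^ (6 * N) * (((m - 1).factorial : ℝ) ^ 2 /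
      (6 * (N : ℝ) ^ 2) ^ (m - 1)) := ⟨_, rfl⟩
    obtain ⟨B, hB⟩ : ∃ B : ℝ, B = δ ^ (6 * N) * (((r0 - 1).factorial : ℝ) ^ 2 /
      (6 * (N : ℝ) ^ 2) ^ (r0 - 1)) := ⟨_, rfl⟩
    have hδ := hN.hδ
    have hA0 : 0 < A := by rw [hA]; positivity
    have hB0 : 0 < B := by rw [hB]; positivity
    rw [← hA, ← hB] at hnum
    obtain ⟨X, hX⟩ : ∃ X : ℝ, X = 4 * (N : ℝ) ^ 2 * (2 * c2) * (MM N m ^ (2 * (2 * M - m - r0)))⁻¹ :=
      ⟨_, rfl⟩
    have hX0 : 0 ≤ X := by rw [hX]; positivity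
    rw [← hX] at hnum
    have hT : (∑' i, |ω (i + m)| * (RvE ep n h (τ (i + m)) * yv n (τ (i + m)) ^ ((m - 1) + (r0 - 1)))) +
      E * ((∏ l ∈ Finset.range r0, ((n : ℝ) ^ 2 + yv n (τ l))) *
        ∏ l ∈ Finset.range m, ((n : ℝ) ^ 2 + yv n (τ l))) ≤ X := by
      rw [hX]
      linarith
    obtain ⟨Y, hY⟩ : ∃ Y : ℝ, Y = (2 + (r0 : ℝ) / N + n) ^ (2 * h * n) := ⟨_, rfl⟩
    have hY0 : 0 < Y := by rw [hY]; positivity
    rw [← hY] at hnum
    have hterm : ∀ j ∈ Finset.range r0,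
        ((∑' i, |ω (i + m)| * (RvE ep n h (τ (i + m)) * yv n (τ (i + m)) ^ ((m - 1) + (r0 - 1)))) +
          E * ((∏ l ∈ Finset.range r0, ((n : ℝ) ^ 2 + yv n (τ l))) *
        ∏ l ∈ Finset.range m, ((n : ℝ) ^ 2 + yv n (τ l)))) /
        (c1 * RvE ep n h (τ j) * (∏ l ∈ (Finset.range m).erase j, |yv n (τ j) - yv n (τ l)|) *
          (∏ l ∈ (Finset.range r0).erase j, |yv n (τ j) - yv n (τ l)|)) ≤
        X * Y / (c1 * A * B) := by
      intro j hj
      rw [Finset.mem_range] at hj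
      have e1 := t_pi N δ c1 c2 τ ω hN n hn m j (by omega)
      have e2 := t_pi N δ c1 c2 τ ω hN n hn r0 j hj
      rw [← hA] at e1
      rw [← hB] at e2
      have e3 := t_rlE ep N δ c1 c2 τ ω hN n h j hn
      have e4 : (2 + (j : ℝ) / N + n) ^ (2 * h * n) ≤ Y := by
        rw [hY]
        refine pow_le_pow_left₀ (by positivity) ?_ _
        have : (j : ℝ) / N ≤ (r0 : ℝ) / N := by
          refine div_le_div_of_nonneg_right ?_ hN0.le
          exact_mod_cast hj.le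
        linarith
      have e5 : Y⁻¹ ≤ RvE ep n h (τ j) := by
        refine le_trans ?_ e3
        exact inv_anti₀ (by positivity) e4
      have hYi : 0 < Y⁻¹ := inv_pos.2 hY0
      have e6 : c1 * Y⁻¹ * A * B ≤
          c1 * RvE ep n h (τ j) * (∏ l ∈ (Finset.range m).erase j, |yv n (τ j) - yv n (τ l)|) *
          (∏ l ∈ (Finset.range r0).erase j, |yv n (τ j) - yv n (τ l)|) := by
        have f1 : c1 * Y⁻¹ ≤ c1 * RvE ep n h (τ j) := mul_le_mul_of_nonneg_left e5 hc1.le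
        have f0 : 0 ≤ c1 * RvE ep n h (τ j) := le_trans (by positivity) f1
        have f2 : c1 * Y⁻¹ * A ≤ c1 * RvE ep n h (τ j) *
            (∏ l ∈ (Finset.range m).erase j, |yv n (τ j) - yv n (τ l)|) :=
          mul_le_mul f1 e1 hA0.le f0
        exact mul_le_mul f2 e2 hB0.le (le_trans (by positivity) f2)
      have e7 : X * Y / (c1 * A * B) = X / (c1 * Y⁻¹ * A * B) := by
        field_simp
      rw [e7]
      exact div_le_div₀ hX0 hT (by positivity) e6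
    have hsum := Finset.sum_le_sum hterm
    rw [Finset.sum_const, Finset.card_range, nsmul_eq_mul] at hsum
    have e8 : c1 * A * B = c1 * A * B := rfl
    linarith
  refine ⟨r, by omega, hrm', hDne, ?_⟩
  -- the archimedean bound
  set C0 : ℝ := 4 * (N : ℝ) ^ 2 * c2 with hC0
  have hC0n : 0 ≤ C0 := by positivity
  let A : ℕ → ℝ := fun i => (MM N i ^ (2 * (M - 1 - i)))⁻¹
  have hdet := t_bas ℝ ℝ (Lf μ') (ARe.Qn n τ) (ARe.Qn_monic n τ) (ARe.Qn_deg n τ) r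
  have hDH : DH (fun k => Lf μ' (X ^ k)) r = DH μ' r := by
    congr 1
    funext k
    exact Lf_X_pow μ' k
  rw [hDH] at hdet
  rw [← hdet]
  have hent : ∀ i j : Fin r, |(Matrix.of fun i j : Fin r => Lf μ' (ARe.Qn n τ i.1 * ARe.Qn n τ j.1)) i j|
      ≤ (2 * C0) * (A i.1 * A j.1) := by
    intro i j
    have hi := i.2
    have hj := j.2
    have p1 := ARe.MM_one N i.1
    have p2 := ARe.MM_one N j.1
    have p3 := ARe.MM_one N (max i.1 j.1)
    have q1 : |Lf μ (ARe.Qn n τ i.1 * ARe.Qn n τ j.1)| ≤ C0 * (A i.1 * A j.1) := by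
      refine (ARe.entry (t_tbE ep hep) hN hn hh hμ i.1 j.1 (by omega)).trans ?_
      apply mul_le_mul_of_nonneg_left _ hC0n
      have e1 : 2 * (h * n - 2 - (i.1 + j.1)) = 2 * (M - 1 - i.1) + 2 * (M - 1 - j.1) := by omega
      rw [e1, pow_add, ← mul_inv]
      apply inv_anti₀ (by positivity)
      apply mul_le_mul
      · exact pow_le_pow_left₀ (by linarith) (ARe.MM_mono N (le_max_left _ _)) _
      · exact pow_le_pow_left₀ (by linarith) (ARe.MM_mono N (le_max_right _ _)) _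
      · positivity
      · positivity
    have q2 : |Lf (fun k => μ' k - μ k) (ARe.Qn n τ i.1 * ARe.Qn n τ j.1)| ≤ C0 * (A i.1 * A j.1) := by
      have e2 : ARe.Qn n τ i.1 * ARe.Qn n τ j.1 =
          ∏ l ∈ (Finset.range i.1).disjSum (Finset.range j.1),
            (X - C (Sum.elim (fun l => yv n (τ l)) (fun l => yv n (τ l)) l)) := by
        rw [Finset.prod_disjSum]
        rfl
      rw [e2]
      refine (Lf_prod_bound ((n : ℝ) ^ 2) _ _ _ E hμ').trans ?_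
      rw [Finset.prod_disjSum]
      simp only [Sum.elim_inl, Sum.elim_inr]
      have e4 : ∀ s : ℕ, ∏ l ∈ Finset.range s, ((n : ℝ) ^ 2 + |yv n (τ l)|) =
          ∏ l ∈ Finset.range s, ((n : ℝ) ^ 2 + yv n (τ l)) := fun s =>
        Finset.prod_congr rfl fun l _ => by
          rw [abs_of_nonneg (y_nonneg hN hn l)]
      rw [e4, e4]
      refine (hsmall i.1 j.1 (by omega) (by omega)).trans ?_
      apply mul_le_mul_of_nonneg_left _ hC0n
      have e5 : 2 * (M - 1 - i.1) + 2 * (M - 1 - j.1) ≤ 2 * (2 * M - i.1 - j.1) := by omega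
      rw [← mul_inv]
      apply inv_anti₀ (by positivity)
      refine le_trans ?_ (pow_le_pow_right₀ (ARe.MM_one N m) e5)
      rw [pow_add]
      apply mul_le_mul
      · exact pow_le_pow_left₀ (by linarith) (ARe.MM_mono N (by omega)) _
      · exact pow_le_pow_left₀ (by linarith) (ARe.MM_mono N (by omega)) _
      · positivity
      · positivity
    rw [Lf_sub_seq] at q2
    have e6 : Lf μ' (ARe.Qn n τ i.1 * ARe.Qn n τ j.1) = Lf μ (ARe.Qn n τ i.1 * ARe.Qn n τ j.1) +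
      (Lf μ' (ARe.Qn n τ i.1 * ARe.Qn n τ j.1) - Lf μ (ARe.Qn n τ i.1 * ARe.Qn n τ j.1)) := by ring
    change |Lf μ' (ARe.Qn n τ i.1 * ARe.Qn n τ j.1)| ≤ _
    rw [e6]
    refine (abs_add_le _ _).trans ?_
    linarith
  refine (det_bound r _ _ A hent).trans (le_of_eq ?_)
  unfold Arc
  congr 1
  apply Finset.prod_congr rfl
  intro i _
  have hm2 : h * n / 2 = M := by omega
  change ((MM N i ^ (2 * (M - 1 - i)))⁻¹) ^ 2 = _
  rw [inv_pow, ← pow_mul, hm2]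
  congr 2
  ring

end Run7.h317.LV
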