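import Pool.Agent.TH818.SA.Pert
import Pool.Agent.Run7.h317.LV.MB

/-!
# Simultaneous approximation of the values of periodic Dirichlet series: the perturbation of the moments
(adapted from `Pool/Agent/TH818/SA/Pert.lean`)

If the values are replaced by rational numbers at distance `≤ η`, the `k`-th moment of the linear form
changes by at most `η · const · n² · (8^n/n!)^(2h) · (n²)^k`.
-/

open Polynomial Pool.Agent.H337R2 Filter Topology Pool.Agent.W165.OZ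

namespace Run7.h317.LV

noncomputable section

open CB

lemma pa_boundE (ep : ℕ) (hep : ep ≤ 1) (n h e k i : ℕ) (hk : k < n) :
    |pa (sP n) (mP h) (numE ep n (X ^ e)) k i| ≤
      2 ^ (2 * h) * ((n : ℚ) * ((n : ℚ) ^ 2) ^ e * ((8 : ℚ) ^ n / n.factorial) ^ (2 * h)) := by
  have hn1 : (1 : ℚ) ≤ n := by exact_mod_cast (by omega : 1 ≤ n)
  have hAB : AB ((n : ℚ) * ((n : ℚ) ^ 2) ^ e * ((8 : ℚ) ^ n / n.factorial) ^ (2 * h))
      (TS (-(k : ℚ)) (numE ep n (X ^ e)) * VV ((sP n).erase k) (mP h) (-(k : ℚ))) := by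
    refine AB.mul ?_ (Pool.Agent.TH818.SA.AB_VV n h k hk)
    unfold numE
    rw [Polynomial.pow_comp, Polynomial.X_comp, map_mul, map_pow, map_pow]
    refine (((AB_ll n k hk).pow ep).mul ((Pool.Agent.TH818.SA.AB_yp n k hk).pow e)).mono ?_
    refine mul_le_mul_of_nonneg_right ?_ (by positivity)
    calc (n : ℚ) ^ ep ≤ (n : ℚ) ^ 1 := pow_le_pow_right₀ hn1 hep
      _ = n := pow_one _
  have hnn := hAB.nonneg
  unfold pa
  split_ifs
  · unfold pfc
    refine (hAB.coeff_le _).trans ?_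
    apply mul_le_mul_of_nonneg_right _ hnn
    apply pow_le_pow_right₀ (by norm_num)
    have hmP : mP h k = 2 * h := rfl
    omega
  · rw [abs_zero]
    positivity

lemma rhoP_boundE (ep : ℕ) (hep : ep ≤ 1) (n h e i : ℕ) :
    |rhoP n h (numE ep n (X ^ e)) i| ≤
      (n : ℚ) ^ 2 * 2 ^ (2 * h) * ((8 : ℚ) ^ n / n.factorial) ^ (2 * h) * ((n : ℚ) ^ 2) ^ e := by
  unfold rhoP
  refine (Finset.abs_sum_le_sum_abs _ _).trans ?_
  refine (Finset.sum_le_sum fun k hk => pa_boundE ep hep n h e k i (Finset.mem_range.1 hk)).trans ?_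
  rw [Finset.sum_const, Finset.card_range, nsmul_eq_mul]
  apply le_of_eq
  ring

/-- the constant in the perturbation bound -/
def CwE (h M B : ℕ) (w : ℕ → ℤ) : ℝ := 2 ^ (2 * h) * ∑ i ∈ Finset.Icc 1 (2 * h), |(WWE M B w i : ℝ)|

lemma CwE_nonneg (h M B : ℕ) (w : ℕ → ℤ) : 0 ≤ CwE h M B w :=
  mul_nonneg (by positivity) (Finset.sum_nonneg fun _ _ => abs_nonneg _)

/-- the size of the perturbation -/
def EpE (n h M B : ℕ) (w : ℕ → ℤ) (η : ℝ) : ℝ :=
  η * CwE h M B w * (n : ℝ) ^ 2 * ((8 : ℝ) ^ n / n.factorial) ^ (2 * h)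

lemma EpE_nonneg (n h M B : ℕ) (w : ℕ → ℤ) {η : ℝ} (hη : 0 ≤ η) : 0 ≤ EpE n h M B w η := by
  unfold EpE
  have := CwE_nonneg h M B w
  positivity

theorem moE_pert (ep : ℕ) (hep : ep ≤ 1) (n h M B : ℕ) (w : ℕ → ℤ) (z z' f : ℕ → ℝ) (η : ℝ)
    (hz : ∀ i ∈ Finset.Icc 1 (2 * h), WWE M B w i ≠ 0 → |z i - z' i| ≤ η) (k : ℕ) :
    |moE ep n h M B w z f k - moE ep n h M B w z' f k| ≤ EpE n h M B w η * ((n : ℝ) ^ 2) ^ k := by
  have e1 : moE ep n h M B w z f k - moE ep n h M B w z' f k =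
      ∑ i ∈ Finset.Icc 1 (2 * h), ((rhoP n h (numE ep n (X ^ k)) i : ℚ) : ℝ) * (WWE M B w i : ℝ) *
        (z i - z' i) := by
    unfold moE LaE
    rw [← Finset.sum_sub_distrib]
    refine Finset.sum_congr rfl fun i _ => ?_
    simp only [eq_ratCast, Rat.cast_mul, Rat.cast_intCast]
    ring
  rw [e1]
  refine (Finset.abs_sum_le_sum_abs _ _).trans ?_
  have e2 : ∀ i ∈ Finset.Icc 1 (2 * h), |((rhoP n h (numE ep n (X ^ k)) i : ℚ) : ℝ) * (WWE M B w i : ℝ) *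
        (z i - z' i)| ≤ ((n : ℝ) ^ 2 * 2 ^ (2 * h) * ((8 : ℝ) ^ n / n.factorial) ^ (2 * h) *
          ((n : ℝ) ^ 2) ^ k) * η * |(WWE M B w i : ℝ)| := by
    intro i hi
    by_cases h0 : WWE M B w i = 0
    · rw [h0]; simp
    · have e3 := hz i hi h0
      have e4 : |((rhoP n h (numE ep n (X ^ k)) i : ℚ) : ℝ)| ≤
          (n : ℝ) ^ 2 * 2 ^ (2 * h) * ((8 : ℝ) ^ n / n.factorial) ^ (2 * h) * ((n : ℝ) ^ 2) ^ k := by
        have := (Rat.cast_le (K := ℝ)).2 (rhoP_boundE ep hep n h k i)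
        push_cast at this
        exact this
      rw [abs_mul, abs_mul]
      calc |((rhoP n h (numE ep n (X ^ k)) i : ℚ) : ℝ)| * |(WWE M B w i : ℝ)| * |z i - z' i|
          ≤ ((n : ℝ) ^ 2 * 2 ^ (2 * h) * ((8 : ℝ) ^ n / n.factorial) ^ (2 * h) *
            ((n : ℝ) ^ 2) ^ k) * |(WWE M B w i : ℝ)| * η := by gcongr
        _ = _ := by ring
  refine (Finset.sum_le_sum e2).trans ?_
  rw [← Finset.mul_sum]
  unfold EpE CwE
  apply le_of_eq
  ring

end

end Run7.h317.LV
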