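import Pool.Agent.Run7.h317.LV.SMA2

/-!
# Simultaneous approximation of the values of periodic Dirichlet series: the perturbation of the moments
if also the coefficients are replaced by rational numbers
-/

open Polynomial Pool.Agent.H337R2 Filter Topology Pool.Agent.W165.OZ

namespace Run7.h317.LV

noncomputable section

open CB

lemma hsE_abs (f : ℕ → ℝ) (η : ℝ) (hf : ∀ v, |f v| ≤ η) (i m : ℕ) : |hsE f i m| ≤ m * η := by
  unfold hsE
  refine (Finset.abs_sum_le_sum_abs _ _).trans ?_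
  calc _ ≤ ∑ l ∈ Finset.range m, η := by
        refine Finset.sum_le_sum fun l _ => ?_
        rw [abs_mul, eq_ratCast]
        have h1 : |((1 / ((l : ℚ) + 1) ^ i : ℚ) : ℝ)| ≤ 1 := by
          have h2 : (0 : ℝ) ≤ l := Nat.cast_nonneg l
          push_cast
          rw [abs_of_nonneg (by positivity)]
          rw [div_le_one (by positivity)]
          exact one_le_pow₀ (by linarith)
        calc _ ≤ 1 * η := mul_le_mul h1 (hf _) (abs_nonneg _) (by norm_num)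
          _ = η := one_mul _
    _ = _ := by rw [Finset.sum_const, Finset.card_range, nsmul_eq_mul]

lemma betE_sub_f (n h M B : ℕ) (w : ℕ → ℤ) (f f' : ℕ → ℝ) (P : ℚ[X]) (i : ℕ) :
    betE n h M B w f P i - betE n h M B w f' P i = betE n h M B w (fun v => f v - f' v) P i := by
  unfold betE hsE
  rw [← Finset.sum_sub_distrib]
  refine Finset.sum_congr rfl fun d _ => ?_
  rw [← Finset.sum_sub_distrib]
  refine Finset.sum_congr rfl fun k _ => ?_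
  rw [← mul_sub, ← Finset.sum_sub_distrib]
  congr 1
  refine Finset.sum_congr rfl fun l _ => ?_
  ring

/-- the sum of the weights -/
def Ws (B : ℕ) (w : ℕ → ℤ) : ℝ := ∑ d ∈ Finset.Icc 1 B, |(w d : ℝ)|

lemma Ws_nonneg (B : ℕ) (w : ℕ → ℤ) : 0 ≤ Ws B w := Finset.sum_nonneg fun _ _ => abs_nonneg _

lemma betE_abs (ep : ℕ) (hep : ep ≤ 1) (n h M B : ℕ) (hM : 1 ≤ M) (w : ℕ → ℤ) (f : ℕ → ℝ) (η : ℝ)
    (hη : 0 ≤ η) (hf : ∀ v, |f v| ≤ η) (k i : ℕ) (hi : i ≤ 2 * h) :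
    |betE n h M B w f (numE ep n (X ^ k)) i| ≤
      η * (2 ^ (2 * h) * (Ws B w * ((M * B : ℕ) : ℝ) ^ (2 * h) * (M * B : ℕ))) * (n : ℝ) ^ 3 *
        ((8 : ℝ) ^ n / n.factorial) ^ (2 * h) * ((n : ℝ) ^ 2) ^ k := by
  unfold betE
  refine (Finset.abs_sum_le_sum_abs _ _).trans ?_
  have h1 : ∀ d ∈ Finset.Icc 1 B, |∑ k' ∈ sP n,
      algebraMap ℚ ℝ ((w d : ℚ) * ((M * d : ℕ) : ℚ) ^ i * pa (sP n) (mP h) (numE ep n (X ^ k)) k' i) *
        hsE f i (M * d * (k' + 1))| ≤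
      |(w d : ℝ)| * (η * (2 ^ (2 * h) * (((M * B : ℕ) : ℝ) ^ (2 * h) * (M * B : ℕ))) * (n : ℝ) ^ 3 *
        ((8 : ℝ) ^ n / n.factorial) ^ (2 * h) * ((n : ℝ) ^ 2) ^ k) := by
    intro d hd
    rw [Finset.mem_Icc] at hd
    have hB1 : 1 ≤ B := by omega
    have hMB : (1 : ℝ) ≤ ((M * B : ℕ) : ℝ) := by exact_mod_cast Nat.mul_pos hM hB1
    have hMd : ((M * d : ℕ) : ℝ) ≤ ((M * B : ℕ) : ℝ) := by
      exact_mod_cast Nat.mul_le_mul_left M hd.2
    refine (Finset.abs_sum_le_sum_abs _ _).trans ?_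
    have h2 : ∀ k' ∈ sP n, |algebraMap ℚ ℝ ((w d : ℚ) * ((M * d : ℕ) : ℚ) ^ i *
        pa (sP n) (mP h) (numE ep n (X ^ k)) k' i) * hsE f i (M * d * (k' + 1))| ≤
        |(w d : ℝ)| * ((M * B : ℕ) : ℝ) ^ (2 * h) * (2 ^ (2 * h) * ((n : ℝ) * ((n : ℝ) ^ 2) ^ k *
          ((8 : ℝ) ^ n / n.factorial) ^ (2 * h))) * (((M * B : ℕ) : ℝ) * n * η) := by
      intro k' hk'
      have hkn : k' < n := Finset.mem_range.1 hk'
      have hpa : |((pa (sP n) (mP h) (numE ep n (X ^ k)) k' i : ℚ) : ℝ)| ≤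
          2 ^ (2 * h) * ((n : ℝ) * ((n : ℝ) ^ 2) ^ k * ((8 : ℝ) ^ n / n.factorial) ^ (2 * h)) := by
        have := (Rat.cast_le (K := ℝ)).2 (pa_boundE ep hep n h k k' i hkn)
        push_cast at this
        exact this
      have hhs : |hsE f i (M * d * (k' + 1))| ≤ ((M * B : ℕ) : ℝ) * n * η := by
        refine (hsE_abs f η hf i _).trans ?_
        refine mul_le_mul_of_nonneg_right ?_ hη
        have : M * d * (k' + 1) ≤ M * B * n :=
          Nat.mul_le_mul (Nat.mul_le_mul_left M hd.2) (by omega)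
        exact_mod_cast this
      have hMdi : ((M * d : ℕ) : ℝ) ^ i ≤ ((M * B : ℕ) : ℝ) ^ (2 * h) :=
        (pow_le_pow_left₀ (Nat.cast_nonneg _) hMd i).trans (pow_le_pow_right₀ hMB hi)
      rw [abs_mul, eq_ratCast, Rat.cast_mul, Rat.cast_mul, Rat.cast_intCast, Rat.cast_pow,
        Rat.cast_natCast, abs_mul, abs_mul,
        abs_of_nonneg (by positivity : (0 : ℝ) ≤ ((M * d : ℕ) : ℝ) ^ i)]
      gcongr
    refine (Finset.sum_le_sum h2).trans ?_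
    have hcard : (sP n).card = n := Finset.card_range n
    rw [Finset.sum_const, hcard, nsmul_eq_mul]
    apply le_of_eq
    ring
  refine (Finset.sum_le_sum h1).trans ?_
  rw [← Finset.sum_mul]
  unfold Ws
  apply le_of_eq
  ring

/-- the constant in the perturbation bound -/
def Cv (h M B : ℕ) (w : ℕ → ℤ) : ℝ :=
  CwE h M B w + 2 * h * (2 ^ (2 * h) * (Ws B w * ((M * B : ℕ) : ℝ) ^ (2 * h) * (M * B : ℕ)))

lemma Cv_nonneg (h M B : ℕ) (w : ℕ → ℤ) : 0 ≤ Cv h M B w := by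
  unfold Cv
  have := CwE_nonneg h M B w
  have := Ws_nonneg B w
  positivity

/-- the size of the perturbation -/
def Ev (n h M B : ℕ) (w : ℕ → ℤ) (η : ℝ) : ℝ :=
  η * Cv h M B w * (n : ℝ) ^ 4 * ((8 : ℝ) ^ n / n.factorial) ^ (2 * h)

lemma Ev_nonneg (n h M B : ℕ) (w : ℕ → ℤ) {η : ℝ} (hη : 0 ≤ η) : 0 ≤ Ev n h M B w η := by
  unfold Ev
  have := Cv_nonneg h M B w
  positivity

theorem moE_pert2 (ep : ℕ) (hep : ep ≤ 1) (n h M B : ℕ) (hn : 1 ≤ n) (hM : 1 ≤ M) (w : ℕ → ℤ)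
    (z z' f f' : ℕ → ℝ) (η : ℝ) (hη : 0 ≤ η)
    (hz : ∀ i ∈ Finset.Icc 1 (2 * h), WWE M B w i ≠ 0 → |z i - z' i| ≤ η)
    (hf : ∀ v, |f v - f' v| ≤ η) (k : ℕ) :
    |moE ep n h M B w z f k - moE ep n h M B w z' f' k| ≤ Ev n h M B w η * ((n : ℝ) ^ 2) ^ k := by
  have hn1 : (1 : ℝ) ≤ n := by exact_mod_cast hn
  have h1 := moE_pert ep hep n h M B w z z' f η hz k
  have h2 : |moE ep n h M B w z' f k - moE ep n h M B w z' f' k| ≤
      2 * h * (η * (2 ^ (2 * h) * (Ws B w * ((M * B : ℕ) : ℝ) ^ (2 * h) * (M * B : ℕ))) * (n : ℝ) ^ 3 *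
        ((8 : ℝ) ^ n / n.factorial) ^ (2 * h) * ((n : ℝ) ^ 2) ^ k) := by
    have e1 : moE ep n h M B w z' f k - moE ep n h M B w z' f' k =
        ∑ i ∈ Finset.Icc 1 (2 * h), -betE n h M B w (fun v => f v - f' v) (numE ep n (X ^ k)) i := by
      unfold moE LaE
      rw [← Finset.sum_sub_distrib]
      refine Finset.sum_congr rfl fun i _ => ?_
      rw [← betE_sub_f]
      ring
    rw [e1]
    refine (Finset.abs_sum_le_sum_abs _ _).trans ?_
    have h5 : ∀ i ∈ Finset.Icc 1 (2 * h),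
        |-betE n h M B w (fun v => f v - f' v) (numE ep n (X ^ k)) i| ≤
        η * (2 ^ (2 * h) * (Ws B w * ((M * B : ℕ) : ℝ) ^ (2 * h) * (M * B : ℕ))) * (n : ℝ) ^ 3 *
          ((8 : ℝ) ^ n / n.factorial) ^ (2 * h) * ((n : ℝ) ^ 2) ^ k := by
      intro i hi
      rw [abs_neg]
      exact betE_abs ep hep n h M B hM w _ η hη hf k i (Finset.mem_Icc.1 hi).2
    refine (Finset.sum_le_sum h5).trans ?_
    rw [Finset.sum_const, Nat.card_Icc, nsmul_eq_mul]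
    apply le_of_eq
    push_cast [Nat.add_sub_cancel]
    ring
  have h3 : moE ep n h M B w z f k - moE ep n h M B w z' f' k =
      (moE ep n h M B w z f k - moE ep n h M B w z' f k) +
      (moE ep n h M B w z' f k - moE ep n h M B w z' f' k) := by ring
  rw [h3]
  refine (abs_add_le _ _).trans ?_
  obtain ⟨X0, hX0⟩ : ∃ X : ℝ, X = ((8 : ℝ) ^ n / n.factorial) ^ (2 * h) * ((n : ℝ) ^ 2) ^ k := ⟨_, rfl⟩
  have hX00 : 0 ≤ X0 := by rw [hX0]; positivity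
  have hC := CwE_nonneg h M B w
  have hW := Ws_nonneg B w
  have g1 : |moE ep n h M B w z f k - moE ep n h M B w z' f k| ≤ η * CwE h M B w * (n : ℝ) ^ 4 * X0 := by
    refine h1.trans ?_
    unfold EpE
    rw [hX0]
    have : (n : ℝ) ^ 2 ≤ (n : ℝ) ^ 4 := pow_le_pow_right₀ hn1 (by norm_num)
    calc η * CwE h M B w * (n : ℝ) ^ 2 * ((8 : ℝ) ^ n / n.factorial) ^ (2 * h) * ((n : ℝ) ^ 2) ^ k
        ≤ η * CwE h M B w * (n : ℝ) ^ 4 * ((8 : ℝ) ^ n / n.factorial) ^ (2 * h) * ((n : ℝ) ^ 2) ^ k := by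
          gcongr
      _ = _ := by ring
  have g2 : |moE ep n h M B w z' f k - moE ep n h M B w z' f' k| ≤
      η * (2 * h * (2 ^ (2 * h) * (Ws B w * ((M * B : ℕ) : ℝ) ^ (2 * h) * (M * B : ℕ)))) * (n : ℝ) ^ 4 * X0 := by
    refine h2.trans ?_
    have : (n : ℝ) ^ 3 ≤ (n : ℝ) ^ 4 := pow_le_pow_right₀ hn1 (by norm_num)
    rw [hX0]
    calc 2 * h * (η * (2 ^ (2 * h) * (Ws B w * ((M * B : ℕ) : ℝ) ^ (2 * h) * (M * B : ℕ))) * (n : ℝ) ^ 3 *
        ((8 : ℝ) ^ n / n.factorial) ^ (2 * h) * ((n : ℝ) ^ 2) ^ k) ≤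
        2 * h * (η * (2 ^ (2 * h) * (Ws B w * ((M * B : ℕ) : ℝ) ^ (2 * h) * (M * B : ℕ))) * (n : ℝ) ^ 4 *
        ((8 : ℝ) ^ n / n.factorial) ^ (2 * h) * ((n : ℝ) ^ 2) ^ k) := by gcongr
      _ = _ := by ring
  refine (add_le_add g1 g2).trans (le_of_eq ?_)
  unfold Ev Cv
  rw [hX0]
  ring

end

end Run7.h317.LV
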