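import Pool.Agent.Run7.h317.LV.SFin

/-!
# Odd zeta values and powers of `π`
-/

open Filter Topology Polynomial

namespace Run7.h317.LV

noncomputable section

/-- the odd character modulo `4` -/
def chi4 (n : ℕ) : ℤ := if n % 4 = 1 then 1 else if n % 4 = 3 then -1 else 0

lemma chi4_add (n : ℕ) : chi4 (n + 4) = chi4 n := by
  unfold chi4
  rw [Nat.add_mod_right]

lemma sin_chi4 (n : ℕ) : Real.sin (2 * Real.pi * n * (1 / 4)) = (chi4 n : ℝ) := by
  obtain ⟨q, r, hr, rfl⟩ : ∃ q r, r < 4 ∧ n = r + 4 * q := ⟨n / 4, n % 4, Nat.mod_lt _ (by norm_num),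
    (Nat.mod_add_div n 4).symm⟩
  have e1 : 2 * Real.pi * ((r + 4 * q : ℕ) : ℝ) * (1 / 4) = r * (Real.pi / 2) + q * (2 * Real.pi) := by
    push_cast
    ring
  rw [e1, Real.sin_add_nat_mul_two_pi]
  unfold chi4
  rw [Nat.add_mul_mod_self_left]
  interval_cases r
  · simp
  · simp
  · have e2 : ((2 : ℕ) : ℝ) * (Real.pi / 2) = Real.pi := by push_cast; ring
    rw [e2]
    simp
  · have e2 : ((3 : ℕ) : ℝ) * (Real.pi / 2) = Real.pi + Real.pi / 2 := by push_cast; ring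
    rw [e2, Real.sin_add]
    simp

/-- the rational numbers with `β(i) = r_i π^i` -/
def rpi (i : ℕ) : ℚ := (-1) ^ (i / 2 + 1) * 2 ^ i / 2 / i.factorial * (Polynomial.bernoulli i).eval (1 / 4)

lemma summ_chi (i : ℕ) (hi : 2 ≤ i) : Summable fun n : ℕ => (chi4 (n + 1) : ℝ) / ((n : ℝ) + 1) ^ i := by
  have h1 : Summable fun n : ℕ => 1 / ((n : ℝ) + 1) ^ i := by
    have := (summable_nat_add_iff 1).2 (Real.summable_one_div_nat_pow.2 (show 1 < i by omega))
    refine this.congr fun n => ?_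
    push_cast
    rfl
  refine Summable.of_norm_bounded h1 fun n => ?_
  rw [Real.norm_eq_abs, abs_div, abs_of_nonneg (by positivity : (0 : ℝ) ≤ ((n : ℝ) + 1) ^ i)]
  apply div_le_div_of_nonneg_right _ (by positivity)
  unfold chi4
  split_ifs <;> simp

theorem beta_val (i : ℕ) (hi : 3 ≤ i) (ho : Odd i) :
    ∑' n : ℕ, (chi4 (n + 1) : ℝ) / ((n : ℝ) + 1) ^ i = (rpi i : ℝ) * Real.pi ^ i := by
  obtain ⟨k, rfl⟩ := ho
  have h1 := hasSum_one_div_nat_pow_mul_sin (k := k) (by omega) (x := 1 / 4) (by constructor <;> norm_num)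
  have h2 := (hasSum_nat_add_iff' 1).2 h1
  rw [Finset.sum_range_one] at h2
  have h3 : HasSum (fun n : ℕ => (chi4 (n + 1) : ℝ) / ((n : ℝ) + 1) ^ (2 * k + 1))
      ((rpi (2 * k + 1) : ℝ) * Real.pi ^ (2 * k + 1)) := by
    have hF : (fun n : ℕ => (chi4 (n + 1) : ℝ) / ((n : ℝ) + 1) ^ (2 * k + 1)) =
        fun n : ℕ => 1 / ((n + 1 : ℕ) : ℝ) ^ (2 * k + 1) *
          Real.sin (2 * Real.pi * ((n + 1 : ℕ) : ℝ) * (1 / 4)) := by
      funext n
      rw [sin_chi4]
      push_cast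
      ring
    rw [hF]
    refine (congrArg (HasSum _) ?_).mp h2
    · symm
      unfold rpi
      have e1 : (2 * k + 1) / 2 = k := by omega
      have e2 : (Polynomial.map (algebraMap ℚ ℝ) (Polynomial.bernoulli (2 * k + 1))).eval (1 / 4 : ℝ) =
          (((Polynomial.bernoulli (2 * k + 1)).eval (1 / 4 : ℚ) : ℚ) : ℝ) := by
        have := Polynomial.eval_map_apply (f := algebraMap ℚ ℝ) (p := Polynomial.bernoulli (2 * k + 1)) (1 / 4 : ℚ)
        rw [show (algebraMap ℚ ℝ) (1 / 4 : ℚ) = (1 / 4 : ℝ) by norm_num] at this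
        rw [this]
        rfl
      rw [e1, e2]
      push_cast
      rw [mul_pow]
      simp
      ring
  exact h3.tsum_eq

theorem rpi_ne (i : ℕ) (hi : 3 ≤ i) (ho : Odd i) : rpi i ≠ 0 := by
  intro h0
  have h1 := beta_val i hi ho
  rw [h0, Rat.cast_zero, zero_mul] at h1
  have hs := summ_chi i (by omega)
  have h2 := hs.tsum_eq_zero_add
  rw [h1] at h2
  have e1 : (chi4 (0 + 1) : ℝ) / (((0 : ℕ) : ℝ) + 1) ^ i = 1 := by
    unfold chi4
    simp
  rw [e1] at h2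
  -- the tail is small
  have hz : Summable fun n : ℕ => 1 / ((n : ℝ) + 1) ^ 2 := by
    have := (summable_nat_add_iff 1).2 (Real.summable_one_div_nat_pow.2 (show 1 < 2 by norm_num))
    refine this.congr fun n => ?_
    push_cast
    rfl
  have hz2 : ∑' n : ℕ, 1 / ((n : ℝ) + 1) ^ 2 = Real.pi ^ 2 / 6 := by
    have h3 := hasSum_zeta_two
    have h4 := (hasSum_nat_add_iff' 1).2 h3
    rw [Finset.sum_range_one] at h4
    have h5 : HasSum (fun n : ℕ => 1 / ((n : ℝ) + 1) ^ 2) (Real.pi ^ 2 / 6) := by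
      have hF : (fun n : ℕ => 1 / ((n : ℝ) + 1) ^ 2) = fun n : ℕ => 1 / ((n + 1 : ℕ) : ℝ) ^ 2 := by
        funext n
        push_cast
        ring
      rw [hF]
      have hv : Real.pi ^ 2 / 6 - 1 / ((0 : ℕ) : ℝ) ^ 2 = Real.pi ^ 2 / 6 := by simp
      rwa [hv] at h4
    exact h5.tsum_eq
  have h3 := hz.tsum_eq_zero_add
  rw [hz2] at h3
  have h4 : ‖∑' n : ℕ, (chi4 (n + 1 + 1) : ℝ) / (((n + 1 : ℕ) : ℝ) + 1) ^ i‖ ≤
      ∑' n : ℕ, 1 / (((n + 1 : ℕ) : ℝ) + 1) ^ 2 := by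
    refine tsum_of_norm_bounded ((summable_nat_add_iff 1).2 hz).hasSum fun n => ?_
    rw [Real.norm_eq_abs, abs_div, abs_of_nonneg (by positivity : (0 : ℝ) ≤ (((n + 1 : ℕ) : ℝ) + 1) ^ i)]
    apply div_le_div₀ (by norm_num) _ (by positivity)
    · exact pow_le_pow_right₀ (by push_cast; linarith [Nat.cast_nonneg (α := ℝ) n]) (by omega)
    · unfold chi4
      split_ifs <;> simp
  rw [Real.norm_eq_abs] at h4
  have h5 := abs_le.1 h4
  have hpi := Real.pi_lt_d2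
  have hpi0 := Real.pi_pos
  have h6 : Real.pi ^ 2 / 6 < 2 := by nlinarith
  norm_num at h3
  norm_num at h2 h5
  linarith

theorem v_piC (s D B : ℕ) (hP : Par s (D + 1) 4 B)
    (V : Submodule ℚ ℂ) (hV : FiniteDimensional ℚ V) (hVD : Module.finrank ℚ V ≤ D)
    (α β : ℂ) (hα : α ∈ V) (hβ : β ∈ V) (h0 : α ≠ 0 ∨ β ≠ 0) :
    (B : ℝ) ≤ (Set.ncard {i : ℕ | 3 ≤ i ∧ i ≤ s ∧ Odd i ∧
        α * riemannZeta i + β * ((rpi i : ℂ) * (Real.pi : ℂ) ^ i) ∉ V} : ℝ) := by
  obtain ⟨f, hf⟩ : ∃ f : ℕ → ℂ, f = fun n => α + (chi4 n : ℂ) * β := ⟨_, rfl⟩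
  have hfV : ∀ u, f u ∈ V := by
    intro u
    rw [hf]
    refine V.add_mem hα ?_
    have : (chi4 u : ℂ) * β = (chi4 u : ℤ) • β := by rw [zsmul_eq_mul]
    show (chi4 u : ℂ) * β ∈ V
    rw [this]
    exact V.toAddSubgroup.zsmul_mem hβ _
  have hfp : ∀ u, f (u + 4) = f u := by
    intro u
    rw [hf]
    simp only [chi4_add]
  have hf0 : ∃ u, f u ≠ 0 := by
    by_cases hα0 : α = 0
    · refine ⟨1, ?_⟩
      rw [hf]
      rcases h0 with h | h
      · exact absurd hα0 h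
      · simp only [hα0, zero_add]
        have : chi4 1 = 1 := by unfold chi4; simp
        rw [this]
        simpa using h
    · refine ⟨0, ?_⟩
      rw [hf]
      have : chi4 0 = 0 := by unfold chi4; simp
      simp only [this]
      simpa using hα0
  refine (v_subCC s D 4 B (by norm_num) hP V hV hVD f hfV hfp hf0 1 (by norm_num)).trans ?_
  have hfin : {i : ℕ | 3 ≤ i ∧ i ≤ s ∧ Odd i ∧
        α * riemannZeta i + β * ((rpi i : ℂ) * (Real.pi : ℂ) ^ i) ∉ V}.Finite :=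
    (Set.finite_Iic s).subset fun i hi => hi.2.1
  have hsub : {i : ℕ | 2 ≤ i ∧ i ≤ s ∧ i % 2 = 1 ∧ (∑' n : ℕ, f (n + 1) / ((n : ℂ) + 1) ^ i) ∉ V} ⊆
      {i : ℕ | 3 ≤ i ∧ i ≤ s ∧ Odd i ∧
        α * riemannZeta i + β * ((rpi i : ℂ) * (Real.pi : ℂ) ^ i) ∉ V} := by
    rintro i ⟨a1, a2, a3, a4⟩
    have hi3 : 3 ≤ i := by omega
    have hio : Odd i := Nat.odd_iff.2 a3
    refine ⟨hi3, a2, hio, ?_⟩
    have e1 : α * riemannZeta i + β * ((rpi i : ℂ) * (Real.pi : ℂ) ^ i) =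
        ∑' n : ℕ, f (n + 1) / ((n : ℂ) + 1) ^ i := by
      have hb := beta_val i hi3 hio
      have hb' : (((rpi i : ℚ) : ℂ) * (Real.pi : ℂ) ^ i) =
          ∑' n : ℕ, (chi4 (n + 1) : ℂ) / ((n : ℂ) + 1) ^ i := by
        have := congrArg (fun x : ℝ => (x : ℂ)) hb
        simp only [Complex.ofReal_tsum] at this
        push_cast at this
        exact this.symm
      have hz : riemannZeta i = ∑' n : ℕ, 1 / ((n : ℂ) + 1) ^ i := by
        have h1 := zeta_eq_tsum_one_div_nat_add_one_cpow (s := (i : ℂ)) (by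
          rw [Complex.natCast_re]
          exact_mod_cast (by omega : 1 < i))
        rw [h1]
        refine tsum_congr fun n => ?_
        rw [Complex.cpow_natCast]
      have hs1 : Summable fun n : ℕ => 1 / ((n : ℂ) + 1) ^ i := by
        have := fin_summable 1 le_rfl (fun _ => (1 : ℂ)) (fun _ => rfl) i (by omega)
        exact this
      have hs2 : Summable fun n : ℕ => (chi4 (n + 1) : ℂ) / ((n : ℂ) + 1) ^ i := by
        exact fin_summable 4 (by norm_num) (fun n => (chi4 n : ℂ)) (fun u => by rw [chi4_add]) i (by omega)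
      rw [hb', hz, ← tsum_mul_left, ← tsum_mul_left, ← (hs1.mul_left α).tsum_add (hs2.mul_left β)]
      refine tsum_congr fun n => ?_
      rw [hf]
      ring
    rw [e1]
    exact a4
  exact_mod_cast Set.ncard_le_ncard hsub hfin

end

end Run7.h317.LV
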