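import Pool.Agent.Run7.h317.LV.SPi
import Pool.Agent.H340R2.LW

/-!
# Odd zeta values and powers of `π`: polynomials in `π`
-/

open Filter Topology Polynomial

namespace Run7.h317.LV

noncomputable section

/-- the values at `π` of the polynomials of degree less than `D` -/
def Vpi (D : ℕ) : Submodule ℚ ℂ :=
  (Polynomial.degreeLT ℚ D).map (Polynomial.aeval (Real.pi : ℂ)).toLinearMap

lemma finrank_degreeLT (D : ℕ) : Module.finrank ℚ (Polynomial.degreeLT ℚ D) = D := by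
  rw [(Polynomial.degreeLTEquiv ℚ D).finrank_eq, Module.finrank_fin_fun]

instance (D : ℕ) : FiniteDimensional ℚ (Polynomial.degreeLT ℚ D) :=
  Module.Finite.equiv (Polynomial.degreeLTEquiv ℚ D).symm

lemma Vpi_fd (D : ℕ) : FiniteDimensional ℚ (Vpi D) := by
  unfold Vpi
  infer_instance

lemma Vpi_rank (D : ℕ) : Module.finrank ℚ (Vpi D) ≤ D := by
  unfold Vpi
  refine (Submodule.finrank_map_le _ _).trans ?_
  rw [finrank_degreeLT]

lemma mem_Vpi {D : ℕ} {P : ℚ[X]} (hP : P.degree < D) : Polynomial.aeval (Real.pi : ℂ) P ∈ Vpi D := by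
  unfold Vpi
  refine Submodule.mem_map_of_mem (f := (Polynomial.aeval (Real.pi : ℂ)).toLinearMap) ?_
  rw [Polynomial.mem_degreeLT]
  exact hP

lemma aeval_pi_ne {P : ℚ[X]} (hP : P ≠ 0) : Polynomial.aeval (Real.pi : ℂ) P ≠ 0 := fun h =>
  Pool.Agent.H340R2.LW.transcendental_pi_complex ⟨P, hP, h⟩

theorem v_polyC (s D B : ℕ) (hPar : Par s (D + 1) 4 B) (P Q : ℚ[X]) (hP : P.degree < D)
    (hQ : Q.degree < D) (h0 : P ≠ 0 ∨ Q ≠ 0) :
    (B : ℝ) ≤ (Set.ncard {i : ℕ | 3 ≤ i ∧ i ≤ s ∧ Odd i ∧ ∀ S : ℚ[X], S.degree < D →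
      Polynomial.aeval (Real.pi : ℂ) P * riemannZeta i +
        Polynomial.aeval (Real.pi : ℂ) Q * ((rpi i : ℂ) * (Real.pi : ℂ) ^ i) ≠
        Polynomial.aeval (Real.pi : ℂ) S} : ℝ) := by
  refine (v_piC s D B hPar (Vpi D) (Vpi_fd D) (Vpi_rank D) _ _ (mem_Vpi hP) (mem_Vpi hQ)
    (h0.imp aeval_pi_ne aeval_pi_ne)).trans ?_
  have hfin : {i : ℕ | 3 ≤ i ∧ i ≤ s ∧ Odd i ∧ ∀ S : ℚ[X], S.degree < D →
      Polynomial.aeval (Real.pi : ℂ) P * riemannZeta i +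
        Polynomial.aeval (Real.pi : ℂ) Q * ((rpi i : ℂ) * (Real.pi : ℂ) ^ i) ≠
        Polynomial.aeval (Real.pi : ℂ) S}.Finite :=
    (Set.finite_Iic s).subset fun i hi => hi.2.1
  have hsub : {i : ℕ | 3 ≤ i ∧ i ≤ s ∧ Odd i ∧ Polynomial.aeval (Real.pi : ℂ) P * riemannZeta i +
        Polynomial.aeval (Real.pi : ℂ) Q * ((rpi i : ℂ) * (Real.pi : ℂ) ^ i) ∉ Vpi D} ⊆
      {i : ℕ | 3 ≤ i ∧ i ≤ s ∧ Odd i ∧ ∀ S : ℚ[X], S.degree < D →
      Polynomial.aeval (Real.pi : ℂ) P * riemannZeta i +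
        Polynomial.aeval (Real.pi : ℂ) Q * ((rpi i : ℂ) * (Real.pi : ℂ) ^ i) ≠
        Polynomial.aeval (Real.pi : ℂ) S} := by
    rintro i ⟨a1, a2, a3, a4⟩
    refine ⟨a1, a2, a3, fun S hS h => a4 ?_⟩
    rw [h]
    exact mem_Vpi hS
  exact_mod_cast Set.ncard_le_ncard hsub hfin

end

end Run7.h317.LV
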