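import Pool.Agent.Run7.h317.LV.Defs

/-!
# Periodic Dirichlet series: the statements of the parts on the real side
-/

open Polynomial Pool.Agent.H337R2 Filter Topology

namespace Run7.h317.LV

open Pool.Agent.W165.OZ

noncomputable section

/-- TB: the tail bound -/
def S_TBE (ep : ℕ) : Prop := ∀ (N : ℕ) (δ c1 c2 : ℝ) (τ ω : ℕ → ℝ), Nodes N δ c1 c2 τ ω → ∀ n h M k : ℕ, 1 ≤ n → 1 ≤ h →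
  k + 2 ≤ h * n →
  Summable (fun i => |ω (i + M)| * (RvE ep n h (τ (i + M)) * yv n (τ (i + M)) ^ k)) ∧
  ∑' i, |ω (i + M)| * (RvE ep n h (τ (i + M)) * yv n (τ (i + M)) ^ k) ≤
    4 * (N : ℝ) ^ 2 * c2 * (MM N M ^ (2 * (h * n - 2 - k)))⁻¹

/-- RL: lower bound for `R` -/
def S_RLE (ep : ℕ) : Prop := ∀ (N : ℕ) (δ c1 c2 : ℝ) (τ ω : ℕ → ℝ), Nodes N δ c1 c2 τ ω → ∀ n h j : ℕ, 1 ≤ n →
  ((2 + (j : ℝ) / N + n) ^ (2 * h * n))⁻¹ ≤ RvE ep n h (τ j)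

/-- CO: the core of the non-vanishing argument -/
def S_COE (ep : ℕ) : Prop := ∀ (N : ℕ) (δ c1 c2 : ℝ) (τ ω : ℕ → ℝ), Nodes N δ c1 c2 τ ω → ∀ n h : ℕ, 1 ≤ n → 1 ≤ h →
  ∀ μ : ℕ → ℝ, MomE ep n h τ ω μ → ∀ m r0 : ℕ, 1 ≤ r0 → r0 ≤ m → 2 * m ≤ h * n →
  ∀ Q : ℝ[X], Q ≠ 0 → Q.natDegree < r0 → (∀ j < m, Lf μ (Q * X ^ j) = 0) →
  1 ≤ ∑ j ∈ Finset.range r0,
    (∑' i, |ω (i + m)| * (RvE ep n h (τ (i + m)) * yv n (τ (i + m)) ^ ((m - 1) + (r0 - 1)))) /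
      (c1 * RvE ep n h (τ j) * (∏ l ∈ (Finset.range m).erase j, |yv n (τ j) - yv n (τ l)|) *
        (∏ l ∈ (Finset.range r0).erase j, |yv n (τ j) - yv n (τ l)|))

/-- NV: the non-vanishing theorem -/
def S_NVE (ep : ℕ) : Prop := ∀ (N : ℕ) (δ c1 c2 : ℝ) (τ ω : ℕ → ℝ), Nodes N δ c1 c2 τ ω → ∀ h : ℕ, 32 * N ≤ h →
  ∃ n0 : ℕ, ∀ n ≥ n0, Even n → ∀ μ : ℕ → ℝ, MomE ep n h τ ω μ →
    ∃ r : ℕ, h * n ≤ 16 * r ∧ 2 * r ≤ h * n ∧ DH μ r ≠ 0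

/-- AR: the archimedean bound -/
def S_ARE (ep : ℕ) : Prop := ∀ (N : ℕ) (δ c1 c2 : ℝ) (τ ω : ℕ → ℝ), Nodes N δ c1 c2 τ ω → ∀ n h : ℕ, 1 ≤ n → 1 ≤ h → Even n →
  ∀ μ : ℕ → ℝ, MomE ep n h τ ω μ → ∀ r : ℕ, 2 * r ≤ h * n → |DH μ r| ≤ Arc N n h (4 * (N : ℝ) ^ 2 * c2) r

end

end Run7.h317.LV
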